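import Pool.Agent.Lib.MP_586990_lc_W.Birk

set_option autoImplicit false

/-!
# Finite distributive lattices
-/

namespace Pool.Agent.Lib.MP_586990_lc.W

/-- The conditions of `DL` characterise the finite distributive lattices. -/
theorem DL_iff {M : Type} [i : PartialOrder M] [Finite M] :
    DL M ↔ Nonempty M ∧ ∃ d : DistribLattice M, d.toPartialOrder = i := by
  constructor
  · intro h
    obtain ⟨x0, -⟩ := h.ne
    obtain ⟨e⟩ := birkhoff h
    refine ⟨⟨x0⟩, ⟨{ i with
      sup := fun x y => e.symm (e x ⊔ e y)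
      inf := fun x y => e.symm (e x ⊓ e y)
      le_sup_left := fun x y => ?_
      le_sup_right := fun x y => ?_
      sup_le := fun x y z hx hy => ?_
      inf_le_left := fun x y => ?_
      inf_le_right := fun x y => ?_
      le_inf := fun x y z hx hy => ?_
      le_sup_inf := fun x y z => ?_ }, rfl⟩⟩
    · show x ≤ e.symm (e x ⊔ e y)
      rw [e.le_symm_apply]
      exact le_sup_left
    · show y ≤ e.symm (e x ⊔ e y)
      rw [e.le_symm_apply]
      exact le_sup_right
    · show e.symm (e x ⊔ e y) ≤ z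
      rw [e.symm_apply_le]
      exact sup_le (e.le_iff_le.2 hx) (e.le_iff_le.2 hy)
    · show e.symm (e x ⊓ e y) ≤ x
      rw [e.symm_apply_le]
      exact inf_le_left
    · show e.symm (e x ⊓ e y) ≤ y
      rw [e.symm_apply_le]
      exact inf_le_right
    · show x ≤ e.symm (e y ⊓ e z)
      rw [e.le_symm_apply]
      exact le_inf (e.le_iff_le.2 hx) (e.le_iff_le.2 hy)
    · show e.symm (e (e.symm (e x ⊔ e y)) ⊓ e (e.symm (e x ⊔ e z))) ≤
        e.symm (e x ⊔ e (e.symm (e y ⊓ e z)))
      rw [e.symm.le_iff_le]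
      simp only [OrderIso.apply_symm_apply]
      exact le_sup_inf
  · rintro ⟨⟨x0⟩, d, rfl⟩
    refine ⟨⟨x0, trivial⟩, fun x y => ⟨x ⊔ y, le_sup_left, le_sup_right,
      fun w hx hy => sup_le hx hy⟩, fun x y => ⟨x ⊓ y, inf_le_left, inf_le_right,
      fun w hx hy => le_inf hx hy⟩, ?_⟩
    intro j x y z hj hz hjz
    have hz1 : z ≤ x ⊔ y := hz.2.2 _ le_sup_left le_sup_right
    have h1 : j = (j ⊓ x) ⊔ (j ⊓ y) := by
      rw [← inf_sup_left]
      exact (inf_eq_left.2 (hjz.trans hz1)).symm
    have h2 : Lub (j ⊓ x) (j ⊓ y) j := by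
      refine ⟨inf_le_left, inf_le_left, fun w h3 h4 => ?_⟩
      rw [h1]
      exact sup_le h3 h4
    rcases hj.2 _ _ h2 with h3 | h3
    · left
      exact inf_eq_left.1 h3.symm
    · right
      exact inf_eq_left.1 h3.symm

end Pool.Agent.Lib.MP_586990_lc.W
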