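import Pool.Agent.Lib.MP_586990_lc.RudSub

set_option autoImplicit false

/-!
# Rudimentary sets: images and preimages for polynomials
-/

namespace Pool.Agent.Lib.MP_586990_lc.W

private theorem rudPoly_eval {k : ℕ} (p : Polynomial ℕ) (i : Fin k) (v : Fin k → ℕ) :
    MvPolynomial.eval v (p.eval₂ (algebraMap ℕ (MvPolynomial (Fin k) ℕ))
      (MvPolynomial.X i)) = p.eval (v i) := by
  rw [Polynomial.hom_eval₂, MvPolynomial.eval_X, Polynomial.eval]
  congr 1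
  exact Subsingleton.elim _ _

/-- Preimages. -/
theorem rud_pre {B : Set ℕ} (h : Rud B) (p : Polynomial ℕ) (d : ℕ) :
    Rud {n | ∃ s ∈ B, s + d = p.eval n} := by
  have h1 : Bd 2 {v : Fin 2 → ℕ | v 0 ∈ B} := by
    have h2 := Bd.subst h (l := 2) fun _ => MvPolynomial.X 0
    simpa using h2
  have h2 : Bd 2 {v : Fin 2 → ℕ | v 0 + d ≤ p.eval (v 1)} := by
    have h3 := Bd.le 2 (MvPolynomial.X 0 + MvPolynomial.C d)
      (p.eval₂ (algebraMap ℕ (MvPolynomial (Fin 2) ℕ)) (MvPolynomial.X 1))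
    simp only [rudPoly_eval] at h3
    simpa using h3
  have h3 : Bd 2 {v : Fin 2 → ℕ | p.eval (v 1) ≤ v 0 + d} := by
    have h3 := Bd.le 2 (p.eval₂ (algebraMap ℕ (MvPolynomial (Fin 2) ℕ)) (MvPolynomial.X 1))
      (MvPolynomial.X 0 + MvPolynomial.C d)
    simp only [rudPoly_eval] at h3
    simpa using h3
  have h5 := Bd.ex 1 (p.eval₂ (algebraMap ℕ (MvPolynomial (Fin 1) ℕ)) (MvPolynomial.X 0)) _
    (Bd.inter 2 _ _ h1 (Bd.inter 2 _ _ h2 h3))
  unfold Rud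
  convert h5 using 1
  ext v
  simp only [Set.mem_ofPred_eq, rudPoly_eval, Set.mem_inter_iff, Fin.cons_zero,
    Fin.cons_one]
  constructor
  · rintro ⟨s, hs, h⟩
    exact ⟨s, by omega, hs, h.le, h.ge⟩
  · rintro ⟨s, -, hs, h, h'⟩
    exact ⟨s, hs, le_antisymm h h'⟩

/-- Images. -/
theorem rud_img {A : Set ℕ} (h : Rud A) (p : Polynomial ℕ) (d : ℕ)
    (hp : StrictMono fun n => p.eval n) :
    Rud {s | ∃ n ∈ A, 2 ≤ n ∧ s + d = p.eval n} := by
  have h1 : Bd 2 {v : Fin 2 → ℕ | v 0 ∈ A} := by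
    have h2 := Bd.subst h (l := 2) fun _ => MvPolynomial.X 0
    simpa using h2
  have h0 : Bd 2 {v : Fin 2 → ℕ | 2 ≤ v 0} := by
    have h3 := Bd.le 2 (MvPolynomial.C 2) (MvPolynomial.X 0)
    simpa using h3
  have h2 : Bd 2 {v : Fin 2 → ℕ | v 1 + d ≤ p.eval (v 0)} := by
    have h3 := Bd.le 2 (MvPolynomial.X 1 + MvPolynomial.C d)
      (p.eval₂ (algebraMap ℕ (MvPolynomial (Fin 2) ℕ)) (MvPolynomial.X 0))
    simp only [rudPoly_eval] at h3
    simpa using h3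
  have h3 : Bd 2 {v : Fin 2 → ℕ | p.eval (v 0) ≤ v 1 + d} := by
    have h3 := Bd.le 2 (p.eval₂ (algebraMap ℕ (MvPolynomial (Fin 2) ℕ)) (MvPolynomial.X 0))
      (MvPolynomial.X 1 + MvPolynomial.C d)
    simp only [rudPoly_eval] at h3
    simpa using h3
  have h5 := Bd.ex 1 (MvPolynomial.X 0 + MvPolynomial.C d) _
    (Bd.inter 2 _ _ h1 (Bd.inter 2 _ _ h0 (Bd.inter 2 _ _ h2 h3)))
  unfold Rud
  convert h5 using 1
  ext v
  simp only [Set.mem_ofPred_eq, MvPolynomial.eval_X, MvPolynomial.eval_C, map_add,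
    Set.mem_inter_iff, Fin.cons_zero, Fin.cons_one]
  constructor
  · rintro ⟨n, hn, hn2, hs⟩
    refine ⟨n, ?_, hn, hn2, hs.le, hs.ge⟩
    rw [hs]
    exact hp.le_apply
  · rintro ⟨n, -, hn, hn2, hs, hs'⟩
    exact ⟨n, hn, hn2, le_antisymm hs hs'⟩

theorem rud_img_iff {A : Set ℕ} (p : Polynomial ℕ) (d : ℕ) (hp : StrictMono fun n => p.eval n)
    (hd : d ≤ p.eval 2) : Rud A ↔ Rud {s | ∃ n ∈ A, 2 ≤ n ∧ s + d = p.eval n} := by
  refine ⟨fun h => rud_img h p d hp, fun h => Rud.change (rud_pre h p d) 2 fun n hn => ?_⟩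
  constructor
  · rintro ⟨s, ⟨n', hn', -, h1⟩, h2⟩
    have h3 : n = n' := hp.injective (h2.symm.trans h1)
    rw [h3]
    exact hn'
  · intro hn'
    have h1 : p.eval 2 ≤ p.eval n := hp.monotone hn
    exact ⟨p.eval n - d, ⟨n, hn', hn, by omega⟩, by omega⟩

end Pool.Agent.Lib.MP_586990_lc.W
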