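import Pool.Agent.Lib.MP_586990_lc.Main
import Pool.Agent.Lib.MP_586990_lc.TGeo

set_option autoImplicit false

/-!
# Spectra in tile form: the number of cells and the number of columns
-/

namespace Pool.Agent.Lib.MP_586990_lc.W

/-- Every spectrum in tile form. -/
theorem spec_tile2 {L : FirstOrder.Language.{0, 0}} (φ : L.Sentence) :
    ∃ (Λ : Type) (_ : Finite Λ) (T : TileSys Λ) (r : ℕ), 0 < r ∧ ∀ N m : ℕ,
      (∃ f, T.Sat N m f) ↔ ∃ n, 2 ≤ n ∧ m = n ^ r ∧ N = m * m ∧ n ∈ Spec φ := by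
  obtain ⟨a, ha⟩ := sentence_nform φ
  obtain ⟨a', ha'⟩ := a.exists_nat
  obtain ⟨F, hF⟩ := nform_nf a'
  have key : ∀ n, 2 ≤ n → (n ∈ Spec φ ↔ F.SatN n) := by
    intro n hn
    have h1 : Nonempty (Fin n) := ⟨⟨0, by omega⟩⟩
    rw [mem_spec_iff, ha (Fin n) h1, ha' (Fin n), hF n (by omega), NF.sat_iff_satN F (by omega)]
  refine ⟨Lbl F, inferInstance, tileSys F, F.q + 1, by omega, fun N m => ?_⟩
  constructor
  · rintro ⟨f, hf⟩
    obtain ⟨n, hn, hN, hs⟩ := tile_sound hf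
    obtain ⟨-, hNm, -⟩ := tile_geo hf
    refine ⟨n, hn, ?_, hNm, (key n hn).2 hs⟩
    have h1 : m * m = n ^ (F.q + 1) * n ^ (F.q + 1) := by
      rw [← hNm, hN, ← pow_add]
      congr 1
      ring
    exact Nat.mul_self_inj.1 h1
  · rintro ⟨n, hn, hm, hN, hmem⟩
    obtain ⟨m', f, hf⟩ := (tile F _).2 ⟨n, hn, rfl, (key n hn).1 hmem⟩
    obtain ⟨-, hNm, -⟩ := tile_geo hf
    have h1 : m' * m' = n ^ (F.q + 1) * n ^ (F.q + 1) := by
      rw [← hNm, ← pow_add]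
      congr 1
      ring
    have h2 : m' = m := by rw [Nat.mul_self_inj.1 h1, hm]
    subst h2
    rw [← hNm] at hN
    rw [hN]
    exact ⟨f, hf⟩

end Pool.Agent.Lib.MP_586990_lc.W
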