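import Pool.Agent.Lib.MP_586990_lc_W.LCode
import Pool.Agent.Lib.MP_586990_lc_W.DLiff
import Pool.Agent.Lib.MP_586990_lc_W.STile
import Pool.Agent.Lib.MP_586990_lc_W.RudPoly
import Pool.Agent.Lib.MP_586990_lc_W.CSpec

set_option autoImplicit false

/-!
# Spectra and spectra of distributive lattices
-/

namespace Pool.Agent.Lib.MP_586990_lc.W

/-- The polynomial for distributive lattices. -/
noncomputable def polyL (c r : ℕ) : Polynomial ℕ :=
  Polynomial.C (2 * c) * Polynomial.X ^ (3 * r) + Polynomial.C (c + 2) * Polynomial.X ^ (2 * r) +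
    Polynomial.C 2 * Polynomial.X ^ r

theorem polyL_eval (c r n : ℕ) :
    (polyL c r).eval n = 2 * c * (n ^ r * n ^ r * n ^ r) + (c + 2) * (n ^ r * n ^ r) +
      2 * n ^ r := by
  simp only [polyL, Polynomial.eval_add, Polynomial.eval_mul, Polynomial.eval_C,
    Polynomial.eval_pow, Polynomial.eval_X]
  have h1 : n ^ (3 * r) = n ^ r * n ^ r * n ^ r := by ring
  have h2 : n ^ (2 * r) = n ^ r * n ^ r := by ring
  rw [h1, h2]

theorem polyL_strictMono {c r : ℕ} (hr : 0 < r) : StrictMono fun n => (polyL c r).eval n := by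
  intro x y hxy
  have h1 : x ^ r < y ^ r := Nat.pow_lt_pow_left hxy hr.ne'
  have h2 : x ^ r * x ^ r ≤ y ^ r * y ^ r := Nat.mul_le_mul h1.le h1.le
  have h3 : x ^ r * x ^ r * x ^ r ≤ y ^ r * y ^ r * y ^ r := Nat.mul_le_mul h2 h1.le
  have h4 : (c + 2) * (x ^ r * x ^ r) ≤ (c + 2) * (y ^ r * y ^ r) := Nat.mul_le_mul_left _ h2
  have h5 : 2 * c * (x ^ r * x ^ r * x ^ r) ≤ 2 * c * (y ^ r * y ^ r * y ^ r) :=
    Nat.mul_le_mul_left _ h3
  show (polyL c r).eval x < (polyL c r).eval y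
  rw [polyL_eval, polyL_eval]
  omega

/-- Fagin's theorem for distributive lattices. -/
theorem exists_lattice {L : FirstOrder.Language.{0, 0}} (φ : L.Sentence) :
    ∃ (p : Polynomial ℕ) (ψ : FirstOrder.Language.order.Sentence),
      (StrictMono fun n => p.eval n) ∧
      ∀ C : ∀ (M : Type), PartialOrder M → Prop,
        (∀ (M : Type) (i : PartialOrder M), Finite M → Nonempty M → @IsPlanar M i → C M i) →
        SpecC C ψ = {s | ∃ n ∈ Spec φ, 2 ≤ n ∧ s = p.eval n} := by
  obtain ⟨Λ, hΛ, T, r, hr, hT⟩ := spec_tile2 φ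
  obtain ⟨c, ψ, hc, h1, h2⟩ := lcode T
  refine ⟨polyL c r, ψ, polyL_strictMono hr, fun C hC => Set.ext fun s => ⟨?_, ?_⟩⟩
  · rintro ⟨M, i, hfin, hcard, -, hψ⟩
    obtain ⟨-, N, m, f, hf, hN⟩ := h1 M i hfin hψ
    obtain ⟨n, hn, hm, hN', hmem⟩ := (hT N m).1 ⟨f, hf⟩
    refine ⟨n, hmem, hn, ?_⟩
    rw [← hcard, hN, polyL_eval, ← hm, hN']
    ring
  · rintro ⟨n, hmem, hn, rfl⟩
    obtain ⟨f, hf⟩ := (hT _ (n ^ r)).2 ⟨n, hn, rfl, rfl, hmem⟩
    obtain ⟨M, i, hfin, hcard, hdl, hpl, hψ⟩ := h2 _ _ f hf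
    obtain ⟨x, -⟩ := hdl.ne
    refine ⟨M, i, hfin, ?_, hC M i hfin ⟨x⟩ hpl, hψ⟩
    rw [hcard, polyL_eval]
    ring

/-- All spectra and the spectra in an elementary class of partial orders which contains the planar
distributive lattices. -/
theorem main_lattice (C : ∀ (M : Type), PartialOrder M → Prop)
    (hC : ∀ (M : Type) (i : PartialOrder M), Finite M → Nonempty M → @IsPlanar M i → C M i)
    (hχ : ∃ χ : FirstOrder.Language.order.Sentence, ∀ (M : Type) (i : PartialOrder M),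
      Finite M → (@Tr M i χ ↔ C M i)) :
    (∀ (L : FirstOrder.Language.{0, 0}) (φ : L.Sentence), Rud (Spec φ)) ↔
    ∀ ψ : FirstOrder.Language.order.Sentence, Rud (SpecC C ψ) := by
  constructor
  · intro h ψ
    obtain ⟨ψ', hψ'⟩ := classSpec hχ ψ
    rw [← hψ']
    exact h _ ψ'
  · intro h L φ
    obtain ⟨p, ψ, hp, hψ⟩ := exists_lattice φ
    rw [rud_img_iff p 0 hp (Nat.zero_le _)]
    have h1 := h ψ
    rw [hψ C hC] at h1
    simpa only [add_zero] using h1

/-- The class of distributive lattices. -/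
def Distr : ∀ (M : Type), PartialOrder M → Prop :=
  fun M i => Nonempty M ∧ ∃ d : DistribLattice M, d.toPartialOrder = i

/-- A sublattice of `ℕ × ℕ` is a distributive lattice. -/
theorem IsPlanar.distrib {M : Type} [i : PartialOrder M] (h : IsPlanar M) :
    ∃ d : DistribLattice M, d.toPartialOrder = i := by
  obtain ⟨f, hf, h1, h2⟩ := h
  choose g hg using h1
  choose s hs using h2
  have hle : ∀ x y : M, f x ≤ f y → x ≤ y := fun x y h => (hf x y).2 h
  have hle' : ∀ x y : M, x ≤ y → f x ≤ f y := fun x y h => (hf x y).1 h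
  exact ⟨{ i with
    sup := s
    le_sup_left := fun x y => hle _ _ (by rw [hs]; exact le_sup_left)
    le_sup_right := fun x y => hle _ _ (by rw [hs]; exact le_sup_right)
    sup_le := fun x y z h h' => hle _ _ (by rw [hs]; exact sup_le (hle' _ _ h) (hle' _ _ h'))
    inf := g
    inf_le_left := fun x y => hle _ _ (by rw [hg]; exact inf_le_left)
    inf_le_right := fun x y => hle _ _ (by rw [hg]; exact inf_le_right)
    le_inf := fun x y z h h' => hle _ _ (by rw [hg]; exact le_inf (hle' _ _ h) (hle' _ _ h'))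
    le_sup_inf := fun x y z => hle _ _ (by
      change f (g (s x y) (s x z)) ≤ f (s x (g y z))
      rw [hg, hs, hs, hs, hg]
      exact le_sup_inf) }, rfl⟩

theorem main_distr :
    (∀ (L : FirstOrder.Language.{0, 0}) (φ : L.Sentence), Rud (Spec φ)) ↔
    ∀ ψ : FirstOrder.Language.order.Sentence, Rud (SpecC Distr ψ) := by
  obtain ⟨χ, hχ⟩ := exists_dlSentence
  exact main_lattice Distr (fun M i _ hne hpl => ⟨hne, hpl.distrib⟩)
    ⟨χ, fun M i hfin => (hχ M i).trans DL_iff⟩

end Pool.Agent.Lib.MP_586990_lc.W
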