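import Pool.Agent.Lib.MP_586990_lc.Defs

set_option autoImplicit false

/-!
# MP_586990_lc, project W: posets of width two and distributive lattices; definitions

The code of a labelling of `0, .., N - 1` by `Fin ℓ` (the cells of a grid with `m` columns) is a
partial order which is the union of two chains.  The first chain consists of `P = 2 * N` blocks
with at least two elements: the block number `2 * k` has `f k + 2` elements, the block number
`2 * k + 1` has `2 * ℓ + 2 - f k` elements.  The second chain has `P + K - 1` elements, `K = 2 * m`.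
The element number `j` of the second chain is below the block number `i` if `j < i` and above it
if `i + K ≤ j`.
-/

namespace Pool.Agent.Lib.MP_586990_lc.W

section

variable {M : Type} [PartialOrder M]

/-- Incomparable elements. -/
def Inc (x y : M) : Prop := ¬ x < y ∧ ¬ y < x ∧ x ≠ y

/-- Twins: elements which are incomparable with the same elements. -/
def Tw (x y : M) : Prop := ∀ z, Inc x z ↔ Inc y z

/-- `x` has no other twin. -/
def Sg (x : M) : Prop := ∀ y, Tw x y → y = x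

/-- `x` belongs to a block. -/
def Bl (x : M) : Prop := ¬ Sg x

/-- The block of `x` is before the block of `y`. -/
def Lb (x y : M) : Prop := Bl x ∧ Bl y ∧ x < y ∧ ¬ Tw x y

/-- The next block. -/
def Su (x y : M) : Prop := Lb x y ∧ ¬ ∃ z, Lb x z ∧ Lb z y

/-- The next but one block. -/
def Nx (x y : M) : Prop := ∃ z, Su x z ∧ Su z y

/-- The block of `y` is the shift of the block of `x`. -/
def Sh (x y : M) : Prop := Bl x ∧ Bl y ∧ ∀ b, Sg b → (x < b ↔ ¬ b < y)

/-- The element `x` has `s` twins (`x` included). -/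
def Sz (s : ℕ) (x : M) : Prop :=
  ∃ g : Fin s → M, Function.Injective g ∧ ∀ y, Tw x y ↔ ∃ i, g i = y

/-- The number of the block of `x` is even, the label is `a`. -/
def Lab {ℓ : ℕ} (a : Fin ℓ) (x : M) : Prop :=
  Bl x ∧ Sz ((a : ℕ) + 2) x ∧ ∃ y, Su x y ∧ Sz (2 * ℓ + 2 - a) y

/-- The number of the block of `x` is even. -/
def Fs (ℓ : ℕ) (x : M) : Prop := ∃ a : Fin ℓ, Lab a x

/-- The number of the block of `x` is odd. -/
def Sn (ℓ : ℕ) (x : M) : Prop := Bl x ∧ ∃ a : Fin ℓ, Sz (2 * ℓ + 2 - a) x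

end

/-- The conditions which characterise the codes of the labellings for the tile system `T`. -/
structure Ok {ℓ : ℕ} (T : TileSys (Fin ℓ)) (M : Type) [PartialOrder M] : Prop where
  ne : ∃ x : M, Bl x
  chA : ∀ x y : M, Bl x → Bl y → x < y ∨ y < x ∨ x = y
  chB : ∀ x y : M, Sg x → Sg y → x < y ∨ y < x ∨ x = y
  inc : ∀ x : M, ∃ y, Inc x y
  lo0 : ∀ x : M, Bl x → (¬ ∃ z, Lb z x) → ¬ ∃ b, Sg b ∧ b < x
  lo1 : ∀ x y : M, Su x y → ∃ b, ∀ c, (Sg c ∧ c < y ∧ ¬ c < x) ↔ c = b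
  up0 : ∀ x : M, Bl x → (¬ ∃ z, Lb x z) → ¬ ∃ b, Sg b ∧ x < b
  up1 : ∀ x y : M, Su x y → ∃ b, ∀ c, (Sg c ∧ x < c ∧ ¬ y < c) ↔ c = b
  two : ∀ x : M, Bl x → (∃ z, Sh z x) ∨ ∃ z, Sh x z
  lab : ∀ x : M, Bl x → Fs ℓ x ∨ Sn ℓ x
  lab0 : ∀ x : M, Bl x → (¬ ∃ z, Lb z x) → Fs ℓ x
  lab1 : ∀ x y : M, Su x y → Sn ℓ x → Fs ℓ y
  labS : ∀ x y : M, Sh x y → Fs ℓ x → Fs ℓ y
  cell : ∀ (a : Fin ℓ) (x : M), Lab a x → T.cell a
  init : ∀ (a : Fin ℓ) (x : M), Lab a x → (¬ ∃ z, Lb z x) → T.init a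
  last : ∀ (a : Fin ℓ) (x : M), Lab a x → (¬ ∃ z, Nx x z) → T.last a
  row0 : ∀ (a : Fin ℓ) (x : M), Lab a x → (¬ ∃ z, Sh z x) → T.row0 a
  rowL : ∀ (a : Fin ℓ) (x : M), Lab a x → (¬ ∃ z, Sh x z) → T.rowL a
  hor : ∀ (a b : Fin ℓ) (x y : M), Lab a x → Lab b y → Nx x y → T.hor a b
  ver : ∀ (a b : Fin ℓ) (x y : M), Lab a x → Lab b y → Sh x y → T.ver a b
  dia : ∀ (a b : Fin ℓ) (x y z : M), Lab a x → Lab b z → Sh x y → Nx y z → T.dia a b

/-- The position model: `P` blocks, shift `K`; `a x`: the element `x` belongs to the first chain,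
`pos x` is the number of its block, or the number of `x` in the second chain. -/
structure PW (M : Type) [PartialOrder M] (P K : ℕ) (a : M → Prop) (pos : M → ℕ) : Prop where
  ltA : ∀ x, a x → pos x < P
  ltB : ∀ x, ¬ a x → pos x + 1 < P + K
  surA : ∀ i, i < P → ∃ x, a x ∧ pos x = i
  surB : ∀ j, j + 1 < P + K → ∃ x, ¬ a x ∧ pos x = j
  injB : ∀ x y, ¬ a x → ¬ a y → pos x = pos y → x = y
  more : ∀ x, a x → ∃ y, y ≠ x ∧ a y ∧ pos y = pos x
  AA : ∀ x y, a x → a y → x < y ∨ y < x ∨ x = y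
  AAlt : ∀ x y, a x → a y → pos x < pos y → x < y
  BB : ∀ x y, ¬ a x → ¬ a y → (x < y ↔ pos x < pos y)
  AB : ∀ x y, a x → ¬ a y → (x < y ↔ pos x + K ≤ pos y)
  BA : ∀ x y, ¬ a x → a y → (x < y ↔ pos x < pos y)
  K0 : 0 < K
  KP : 2 * K ≤ P

/-- No three elements are pairwise incomparable. -/
def IsWidthTwo (M : Type) [PartialOrder M] : Prop :=
  ∀ x y z : M, ¬ (Inc x y ∧ Inc y z ∧ Inc x z)

/-! ### Lattices -/

section

variable {M : Type} [PartialOrder M]

/-- `z` is the least upper bound of `x` and `y`. -/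
def Lub (x y z : M) : Prop := x ≤ z ∧ y ≤ z ∧ ∀ w, x ≤ w → y ≤ w → z ≤ w

/-- `z` is the greatest lower bound of `x` and `y`. -/
def Glb (x y z : M) : Prop := z ≤ x ∧ z ≤ y ∧ ∀ w, w ≤ x → w ≤ y → w ≤ z

/-- `x` is join-irreducible: not minimal, and not the least upper bound of two other elements. -/
def JI (x : M) : Prop := (∃ y, y < x) ∧ ∀ y z, Lub y z x → x = y ∨ x = z

end

/-- `M` is a distributive lattice: all least upper bounds and greatest lower bounds exist and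
the join-irreducible elements are prime. -/
structure DL (M : Type) [PartialOrder M] : Prop where
  ne : ∃ _ : M, True
  lub : ∀ x y : M, ∃ z, Lub x y z
  glb : ∀ x y : M, ∃ z, Glb x y z
  prime : ∀ j x y z : M, JI j → Lub x y z → j ≤ z → j ≤ x ∨ j ≤ y

/-- `M` is isomorphic to a sublattice of `ℕ × ℕ`. -/
def IsPlanar (M : Type) [PartialOrder M] : Prop :=
  ∃ f : M → ℕ × ℕ, (∀ x y, x ≤ y ↔ f x ≤ f y) ∧ (∀ x y, ∃ z, f z = f x ⊓ f y) ∧
    ∀ x y, ∃ z, f z = f x ⊔ f y

end Pool.Agent.Lib.MP_586990_lc.W
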