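import Pool.Agent.Lib.MP_586990_lc.Cal
import Pool.Agent.Lib.MP_586990_lc_W.WRel

set_option autoImplicit false

/-!
# Join-irreducible elements and distributive lattices: first-order definitions
-/

namespace Pool.Agent.Lib.MP_586990_lc.W

theorem UD_le {k : ℕ} (x y : Fin k) : UD k fun M _ v => v x ≤ v y := by
  simp only [le_iff_lt_or_eq]
  exact UD.or (UD.lt x y) (UD.eq x y)

theorem UD_Lub {k : ℕ} (x y z : Fin k) : UD k fun M _ v => Lub (v x) (v y) (v z) := by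
  unfold Lub
  refine (UD_le x z).and ((UD_le y z).and ?_)
  refine UD.all (R := fun M _ v w => v x ≤ w → v y ≤ w → v z ≤ w) ?_
  exact (UD_le x.succ 0).imp ((UD_le y.succ 0).imp (UD_le z.succ 0))

theorem UD_Glb {k : ℕ} (x y z : Fin k) : UD k fun M _ v => Glb (v x) (v y) (v z) := by
  unfold Glb
  refine (UD_le z x).and ((UD_le z y).and ?_)
  refine UD.all (R := fun M _ v w => w ≤ v x → w ≤ v y → w ≤ v z) ?_
  exact (UD_le 0 x.succ).imp ((UD_le 0 y.succ).imp (UD_le 0 z.succ))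

theorem UD_JI {k : ℕ} (x : Fin k) : UD k fun M _ v => JI (v x) := by
  unfold JI
  refine UD.and ?_ ?_
  · refine UD.ex (R := fun M _ v w => w < v x) ?_
    exact UD.lt 0 x.succ
  · refine UD.all (R := fun M _ v y => ∀ z, Lub y z (v x) → v x = y ∨ v x = z) ?_
    refine UD.all (R := fun M _ v z => Lub (v 0) z (v x.succ) → v x.succ = v 0 ∨ v x.succ = z) ?_
    exact (UD_Lub 1 0 x.succ.succ).imp ((UD.eq x.succ.succ 1).or (UD.eq x.succ.succ 0))

theorem exists_dlSentence : ∃ χ : FirstOrder.Language.order.Sentence,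
    ∀ (M : Type) (i : PartialOrder M), @Tr M i χ ↔ @DL M i := by
  have h1 : UD 0 fun M _ _ => ∃ _ : M, True :=
    UD.ex (R := fun _ _ _ _ => True) (UD.const True)
  have h2 : UD 0 fun M _ _ => ∀ x y : M, ∃ z, Lub x y z := by
    refine UD.all (R := fun M _ _ x => ∀ y, ∃ z, Lub x y z) ?_
    refine UD.all (R := fun M _ v y => ∃ z, Lub (v 0) y z) ?_
    refine UD.ex (R := fun M _ v z => Lub (v 1) (v 0) z) ?_
    exact UD_Lub 2 1 0
  have h3 : UD 0 fun M _ _ => ∀ x y : M, ∃ z, Glb x y z := by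
    refine UD.all (R := fun M _ _ x => ∀ y, ∃ z, Glb x y z) ?_
    refine UD.all (R := fun M _ v y => ∃ z, Glb (v 0) y z) ?_
    refine UD.ex (R := fun M _ v z => Glb (v 1) (v 0) z) ?_
    exact UD_Glb 2 1 0
  have h4 : UD 0 fun M _ _ => ∀ j x y z : M, JI j → Lub x y z → j ≤ z → j ≤ x ∨ j ≤ y := by
    refine UD.all (R := fun M _ _ j => ∀ x y z, JI j → Lub x y z → j ≤ z → j ≤ x ∨ j ≤ y) ?_
    refine UD.all (R := fun M _ v x => ∀ y z, JI (v 0) → Lub x y z → v 0 ≤ z →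
      v 0 ≤ x ∨ v 0 ≤ y) ?_
    refine UD.all (R := fun M _ v y => ∀ z, JI (v 1) → Lub (v 0) y z → v 1 ≤ z →
      v 1 ≤ v 0 ∨ v 1 ≤ y) ?_
    refine UD.all (R := fun M _ v z => JI (v 2) → Lub (v 1) (v 0) z → v 2 ≤ z →
      v 2 ≤ v 1 ∨ v 2 ≤ v 0) ?_
    exact (UD_JI 3).imp ((UD_Lub 2 1 0).imp ((UD_le 3 0).imp ((UD_le 3 2).or (UD_le 3 1))))
  obtain ⟨χ, hχ⟩ := UD.sentence (R := fun M _ => (∃ _ : M, True) ∧ (∀ x y : M, ∃ z, Lub x y z) ∧
    (∀ x y : M, ∃ z, Glb x y z) ∧ ∀ j x y z : M, JI j → Lub x y z → j ≤ z → j ≤ x ∨ j ≤ y)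
    (h1.and (h2.and (h3.and h4)))
  refine ⟨χ, fun M i => (hχ M i).trans ?_⟩
  exact ⟨fun ⟨a, b, c, d⟩ => ⟨a, b, c, d⟩, fun h => ⟨h.ne, h.lub, h.glb, h.prime⟩⟩

end Pool.Agent.Lib.MP_586990_lc.W
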