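import Pool.Agent.Lib.MP_586990_lc_W.WRel

set_option autoImplicit false

/-!
# Birkhoff's theorem
-/

namespace Pool.Agent.Lib.MP_586990_lc.W

private theorem birk_le {M : Type} [PartialOrder M] [Finite M] (h : DL M) (y x : M)
    (hx : ∀ j, JI j → j ≤ x → j ≤ y) : x ≤ y := by
  induction x using WellFoundedLT.induction with
  | ind x ih =>
    by_cases hmin : ∃ z, z < x
    · by_cases hJ : JI x
      · exact hx x hJ le_rfl
      · have hex : ∃ u v, Lub u v x ∧ x ≠ u ∧ x ≠ v := by
          by_contra hc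
          refine hJ ⟨hmin, fun u v hl => or_iff_not_imp_left.2 fun h1 => ?_⟩
          by_contra h2
          exact hc ⟨u, v, hl, h1, h2⟩
        obtain ⟨u, v, hl, hu, hv⟩ := hex
        have hu' : u < x := lt_of_le_of_ne hl.1 (Ne.symm hu)
        have hv' : v < x := lt_of_le_of_ne hl.2.1 (Ne.symm hv)
        exact hl.2.2 y (ih u hu' fun j hj hju => hx j hj (hju.trans hl.1))
          (ih v hv' fun j hj hjv => hx j hj (hjv.trans hl.2.1))
    · obtain ⟨g, hg⟩ := h.glb x y
      have hgx : g = x := by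
        by_contra hne
        exact hmin ⟨g, lt_of_le_of_ne hg.1 hne⟩
      rw [← hgx]
      exact hg.2.1

private theorem birk_sup {M : Type} [PartialOrder M] [Finite M] (h : DL M)
    (s : Finset {x : M // JI x}) :
    ∃ z : M, ∀ j : {x : M // JI x}, (j : M) ≤ z ↔ ∃ i ∈ s, j ≤ i := by
  classical
  induction s using Finset.induction_on with
  | empty =>
    obtain ⟨x, -⟩ := h.ne
    obtain ⟨m, -, hm⟩ := WellFounded.has_min (wellFounded_lt (α := M)) Set.univ ⟨x, trivial⟩
    refine ⟨m, fun j => ⟨fun hj => ?_, fun hj => ?_⟩⟩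
    · obtain ⟨y, hy⟩ := j.2.1
      exact absurd (lt_of_lt_of_le hy hj) (hm y trivial)
    · obtain ⟨i, hi, -⟩ := hj
      exact absurd hi (Finset.notMem_empty i)
  | insert a s _ ih =>
    obtain ⟨z, hz⟩ := ih
    obtain ⟨w, hw⟩ := h.lub z a
    refine ⟨w, fun j => ⟨fun hj => ?_, fun hj => ?_⟩⟩
    · rcases h.prime j z a w j.2 hw hj with h1 | h1
      · obtain ⟨i, hi, hji⟩ := (hz j).1 h1
        exact ⟨i, Finset.mem_insert_of_mem hi, hji⟩
      · exact ⟨a, Finset.mem_insert_self a s, h1⟩
    · obtain ⟨i, hi, hji⟩ := hj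
      rcases Finset.mem_insert.1 hi with rfl | hi
      · exact le_trans (show (j : M) ≤ i from hji) hw.2.1
      · exact ((hz j).2 ⟨i, hi, hji⟩).trans hw.1

/-- A finite distributive lattice is the lattice of the lower sets of the partial order of its
join-irreducible elements. -/
theorem birkhoff {M : Type} [PartialOrder M] [Finite M] (h : DL M) :
    Nonempty (M ≃o LowerSet {x : M // JI x}) := by
  let e : M → LowerSet {x : M // JI x} :=
    fun x => ⟨{j | (j : M) ≤ x}, fun a b hab ha => le_trans (show (b : M) ≤ a from hab) ha⟩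
  have he : ∀ x y, e x ≤ e y ↔ x ≤ y := by
    intro x y
    refine ⟨fun hxy => birk_le h y x fun j hj hjx => ?_, fun hxy j hj => ?_⟩
    · exact hxy (show (⟨j, hj⟩ : {x : M // JI x}) ∈ e x from hjx)
    · exact le_trans (show (j : M) ≤ x from hj) hxy
  let E : M ↪o LowerSet {x : M // JI x} := OrderEmbedding.ofMapLEIff e he
  have hs : Function.Surjective E := by
    intro I
    obtain ⟨z, hz⟩ := birk_sup h (Set.toFinite (I : Set {x : M // JI x})).toFinset
    refine ⟨z, ?_⟩
    apply LowerSet.ext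
    ext j
    show (j : M) ≤ z ↔ j ∈ I
    rw [hz]
    refine ⟨fun hj => ?_, fun hj => ⟨j, ?_, le_rfl⟩⟩
    · obtain ⟨i, hi, hji⟩ := hj
      exact I.lower hji ((Set.Finite.mem_toFinset _).1 hi)
    · exact (Set.Finite.mem_toFinset _).2 hj
  exact ⟨RelIso.ofSurjective E hs⟩

end Pool.Agent.Lib.MP_586990_lc.W
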