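import Pool.Agent.Lib.MP_586990_lc_W.WRel

set_option autoImplicit false

/-!
# The lattice of lower sets
-/

namespace Pool.Agent.Lib.MP_586990_lc.W

private theorem birk2_JI {P : Type} [PartialOrder P] [Finite P] (I : LowerSet P) :
    JI I ↔ ∃ p, I = LowerSet.Iic p := by
  constructor
  · rintro ⟨⟨y, hy⟩, h⟩
    have hne : (I : Set P).Nonempty := by
      by_contra hcon
      rw [Set.not_nonempty_iff_eq_empty] at hcon
      have h1 : I ≤ y := fun x hx => by
        have h2 : x ∈ (I : Set P) := hx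
        rw [hcon] at h2
        exact h2.elim
      exact (hy.trans_le h1).false
    obtain ⟨p, hp⟩ := (Set.toFinite (I : Set P)).exists_maximal hne
    have hpI : p ∈ I := hp.1
    let I' : LowerSet P := ⟨{x | x ∈ I ∧ x ≠ p}, by
      rintro x z hzx ⟨hx, hxp⟩
      refine ⟨I.lower hzx hx, ?_⟩
      rintro rfl
      exact hxp (le_antisymm (hp.2 hx hzx) hzx)⟩
    have hlub : Lub (LowerSet.Iic p) I' I := by
      refine ⟨LowerSet.Iic_le.2 hpI, fun x hx => hx.1, fun w h1 h2 x hx => ?_⟩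
      by_cases hxp : x = p
      · rw [hxp]
        exact LowerSet.Iic_le.1 h1
      · exact h2 ⟨hx, hxp⟩
    rcases h _ _ hlub with h1 | h1
    · exact ⟨p, h1⟩
    · have h2 : p ∈ I' := h1 ▸ hpI
      exact absurd rfl h2.2
  · rintro ⟨p, rfl⟩
    refine ⟨⟨⊥, bot_lt_iff_ne_bot.2 fun h => ?_⟩, fun y z h => ?_⟩
    · have h1 : p ∈ LowerSet.Iic p := LowerSet.mem_Iic_iff.2 le_rfl
      rw [h] at h1
      exact h1
    · have h1 : LowerSet.Iic p ≤ y ⊔ z := h.2.2 _ le_sup_left le_sup_right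
      rcases LowerSet.mem_sup_iff.1 (LowerSet.Iic_le.1 h1) with h2 | h2
      · exact Or.inl (le_antisymm (LowerSet.Iic_le.2 h2) h.1)
      · exact Or.inr (le_antisymm (LowerSet.Iic_le.2 h2) h.2.1)

theorem DL_lowerSet (P : Type) [PartialOrder P] [Finite P] : DL (LowerSet P) := by
  refine ⟨⟨⊥, trivial⟩, fun x y => ⟨x ⊔ y, le_sup_left, le_sup_right, fun w => sup_le⟩,
    fun x y => ⟨x ⊓ y, inf_le_left, inf_le_right, fun w => le_inf⟩, ?_⟩
  intro j x y z hj hz hjz
  obtain ⟨p, rfl⟩ := (birk2_JI j).1 hj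
  have h1 : LowerSet.Iic p ≤ x ⊔ y := hjz.trans (hz.2.2 _ le_sup_left le_sup_right)
  rcases LowerSet.mem_sup_iff.1 (LowerSet.Iic_le.1 h1) with h2 | h2
  · exact Or.inl (LowerSet.Iic_le.2 h2)
  · exact Or.inr (LowerSet.Iic_le.2 h2)

/-- The join-irreducible lower sets are the principal ones. -/
theorem JI_lowerSet (P : Type) [PartialOrder P] [Finite P] :
    Nonempty ({x : LowerSet P // JI x} ≃o P) := by
  let f : P ↪o {x : LowerSet P // JI x} := OrderEmbedding.ofMapLEIff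
    (fun p => ⟨LowerSet.Iic p, (birk2_JI _).2 ⟨p, rfl⟩⟩)
    (fun p q => by
      change LowerSet.Iic p ≤ LowerSet.Iic q ↔ p ≤ q
      exact LowerSet.Iic_le.trans LowerSet.mem_Iic_iff)
  have hf : Function.Surjective f := by
    rintro ⟨I, hI⟩
    obtain ⟨p, rfl⟩ := (birk2_JI I).1 hI
    exact ⟨p, rfl⟩
  exact ⟨(RelIso.ofSurjective f hf).symm⟩

end Pool.Agent.Lib.MP_586990_lc.W
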