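import Pool.Agent.Lib.MP_586990_lc_W.WRel

set_option autoImplicit false

/-!
# The number of lower sets of a position model
-/

namespace Pool.Agent.Lib.MP_586990_lc.W

section

variable {M : Type} [PartialOrder M] {P K : ℕ} {a : M → Prop} {pos : M → ℕ}

private theorem LCount_pos (h : PW M P K a pos) {x y : M} (hx : a x) (hy : a y) (hxy : x ≤ y) :
    pos x ≤ pos y := by
  by_contra hc
  exact absurd hxy (not_le_of_gt (h.AAlt y x hy hx (not_le.mp hc)))

/-- The lower sets without free elements. -/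
private def LCount_I0 (h : PW M P K a pos) (β : ℕ) : LowerSet M where
  carrier := {y | (¬ a y ∧ pos y < β) ∨ (a y ∧ pos y + K < β)}
  lower' := by
    intro y w hwy hy
    rcases hwy.eq_or_lt with rfl | hlt
    · exact hy
    · rcases hy with ⟨hy1, hy2⟩ | ⟨hy1, hy2⟩
      · by_cases hw : a w
        · exact Or.inr ⟨hw, ((h.AB w y hw hy1).mp hlt).trans_lt hy2⟩
        · exact Or.inl ⟨hw, ((h.BB w y hw hy1).mp hlt).trans hy2⟩
      · by_cases hw : a w
        · have h1 := LCount_pos h hw hy1 hlt.le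
          exact Or.inr ⟨hw, by omega⟩
        · have h1 := (h.BA w y hw hy1).mp hlt
          exact Or.inl ⟨hw, by omega⟩

/-- The lower sets with a largest free element. -/
private def LCount_I1 (h : PW M P K a pos) (x : M) (hx : a x) (c : ℕ) (hc : c ≤ K) :
    LowerSet M where
  carrier := {y | (¬ a y ∧ pos y < pos x + c) ∨ (a y ∧ y ≤ x)}
  lower' := by
    intro y w hwy hy
    rcases hwy.eq_or_lt with rfl | hlt
    · exact hy
    · rcases hy with ⟨hy1, hy2⟩ | ⟨hy1, hy2⟩
      · by_cases hw : a w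
        · have h1 := (h.AB w y hw hy1).mp hlt
          exact Or.inr ⟨hw, (h.AAlt w x hw hx (by omega)).le⟩
        · exact Or.inl ⟨hw, ((h.BB w y hw hy1).mp hlt).trans hy2⟩
      · by_cases hw : a w
        · exact Or.inr ⟨hw, hlt.le.trans hy2⟩
        · have h1 := (h.BA w y hw hy1).mp hlt
          have h2 := LCount_pos h hy1 hx hy2
          exact Or.inl ⟨hw, by omega⟩

/-- All the lower sets. -/
private def LCount_F (h : PW M P K a pos) :
    ({x : M // a x} × Fin (K + 1)) ⊕ Fin (P + K) → LowerSet M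
  | Sum.inl p => LCount_I1 h p.1 p.1.2 p.2 (Nat.lt_succ_iff.mp p.2.2)
  | Sum.inr β => LCount_I0 h β

/-- The number of elements of the second chain. -/
private def LCount_b : ({x : M // a x} × Fin (K + 1)) ⊕ Fin (P + K) → ℕ
  | Sum.inl p => pos p.1 + p.2
  | Sum.inr β => β

private theorem LCount_memB (h : PW M P K a pos)
    (t : ({x : M // a x} × Fin (K + 1)) ⊕ Fin (P + K)) {y : M} (hy : ¬ a y) :
    y ∈ LCount_F h t ↔ pos y < LCount_b (pos := pos) t := by
  rcases t with p | β
  · change ((¬ a y ∧ pos y < pos p.1 + p.2) ∨ (a y ∧ y ≤ p.1)) ↔ pos y < pos p.1 + p.2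
    tauto
  · change ((¬ a y ∧ pos y < β) ∨ (a y ∧ pos y + K < β)) ↔ pos y < β
    tauto

private theorem LCount_b_lt (h : PW M P K a pos)
    (t : ({x : M // a x} × Fin (K + 1)) ⊕ Fin (P + K)) : LCount_b (pos := pos) t < P + K := by
  rcases t with p | β
  · change pos p.1 + (p.2 : ℕ) < P + K
    have h1 := h.ltA p.1 p.1.2
    have h2 := p.2.2
    omega
  · exact β.2

private theorem LCount_b_le (h : PW M P K a pos)
    (t t' : ({x : M // a x} × Fin (K + 1)) ⊕ Fin (P + K)) (he : LCount_F h t = LCount_F h t') :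
    LCount_b (pos := pos) t' ≤ LCount_b (pos := pos) t := by
  by_contra hc
  push Not at hc
  have h1 := LCount_b_lt h t'
  obtain ⟨y, hy, hy'⟩ := h.surB (LCount_b (pos := pos) t) (by omega)
  have h2 : y ∈ LCount_F h t' := (LCount_memB h t' hy).mpr (by omega)
  rw [← he] at h2
  have h3 := (LCount_memB h t hy).mp h2
  omega

private theorem LCount_inj (h : PW M P K a pos) : Function.Injective (LCount_F h) := by
  intro t t' he
  have hb : LCount_b (pos := pos) t = LCount_b (pos := pos) t' :=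
    le_antisymm (LCount_b_le h t' t he.symm) (LCount_b_le h t t' he)
  have key : ∀ (p : {x : M // a x} × Fin (K + 1)) (β : Fin (P + K)),
      LCount_F h (Sum.inl p) = LCount_F h (Sum.inr β) → False := by
    intro p β hpb
    have h1 := LCount_b_le h _ _ hpb.symm
    have h2 : (p.1 : M) ∈ LCount_F h (Sum.inl p) := Or.inr ⟨p.1.2, le_rfl⟩
    rw [hpb] at h2
    have h3 : (¬ a (p.1 : M) ∧ pos p.1 < β) ∨ (a (p.1 : M) ∧ pos p.1 + K < β) := h2
    have h4 := LCount_b_le h _ _ hpb
    change (β : ℕ) ≤ pos p.1 + (p.2 : ℕ) at h4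
    have h5 := p.2.2
    rcases h3 with ⟨h6, _⟩ | ⟨_, h6⟩
    · exact h6 p.1.2
    · omega
  rcases t with p | β <;> rcases t' with p' | β'
  · change pos p.1 + (p.2 : ℕ) = pos p'.1 + (p'.2 : ℕ) at hb
    have h1 : (p.1 : M) ∈ LCount_F h (Sum.inl p) := Or.inr ⟨p.1.2, le_rfl⟩
    have h2 : (p'.1 : M) ∈ LCount_F h (Sum.inl p') := Or.inr ⟨p'.1.2, le_rfl⟩
    rw [he] at h1
    rw [← he] at h2
    have h3 : (p.1 : M) ≤ p'.1 := by
      rcases h1 with ⟨h4, _⟩ | ⟨_, h4⟩
      · exact absurd p.1.2 h4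
      · exact h4
    have h3' : (p'.1 : M) ≤ p.1 := by
      rcases h2 with ⟨h4, _⟩ | ⟨_, h4⟩
      · exact absurd p'.1.2 h4
      · exact h4
    have h5 : p.1 = p'.1 := Subtype.ext (le_antisymm h3 h3')
    rw [h5] at hb
    have h6 : p.2 = p'.2 := Fin.ext (by omega)
    exact congrArg Sum.inl (Prod.ext h5 h6)
  · exact (key _ _ he).elim
  · exact (key _ _ he.symm).elim
  · exact congrArg Sum.inr (Fin.ext hb)

private theorem LCount_surj [Finite M] (h : PW M P K a pos) :
    Function.Surjective (LCount_F h) := by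
  classical
  intro I
  have hex : ∃ β, ∀ y ∈ I, ¬ a y → pos y < β :=
    ⟨P + K - 1, fun y _ hy => by have := h.ltB y hy; omega⟩
  obtain ⟨β, hβ⟩ : ∃ β, β = Nat.find hex := ⟨_, rfl⟩
  have hspec : ∀ y ∈ I, ¬ a y → pos y < β := by rw [hβ]; exact Nat.find_spec hex
  have hmin : ∀ γ, γ < β → ∃ y ∈ I, ¬ a y ∧ γ ≤ pos y := by
    intro γ hγ
    have h1 := Nat.find_min hex (m := γ) (by rw [← hβ]; exact hγ)
    push Not at h1
    exact h1
  have hK := h.K0
  have hKP := h.KP
  have hβR : β < P + K := by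
    have h1 : β ≤ P + K - 1 := by
      rw [hβ]
      exact Nat.find_min' hex fun y _ hy => by have := h.ltB y hy; omega
    omega
  -- elements of the second chain
  have hB : ∀ y, ¬ a y → (y ∈ I ↔ pos y < β) := by
    intro y hy
    refine ⟨fun hyI => hspec y hyI hy, fun hlt => ?_⟩
    obtain ⟨z, hz, hz1, hz2⟩ := hmin (pos y) hlt
    rcases hz2.eq_or_lt with h1 | h1
    · rwa [h.injB y z hy hz1 h1]
    · exact I.lower ((h.BB y z hy hz1).mpr h1).le hz
  -- elements of the first chain which are forced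
  have hA : ∀ x, a x → pos x + K < β → x ∈ I := by
    intro x hx hlt
    obtain ⟨z, hz, hz1, hz2⟩ := hmin (pos x + K) hlt
    exact I.lower ((h.AB x z hx hz1).mpr hz2).le hz
  have hA' : ∀ x ∈ I, a x → pos x ≤ β := by
    intro x hx hax
    by_contra hc
    push Not at hc
    have h1 := h.ltA x hax
    obtain ⟨z, hz, hz'⟩ := h.surB β (by omega)
    have h2 : z < x := (h.BA z x hz hax).mpr (by omega)
    have h3 := hspec z (I.lower h2.le hx) hz
    omega
  by_cases hF : ∃ x, a x ∧ x ∈ I ∧ β ≤ pos x + K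
  · -- the largest free element
    have hfin : {x : M | a x ∧ x ∈ I ∧ β ≤ pos x + K}.Finite := Set.toFinite _
    obtain ⟨x, hx, hmax⟩ := hfin.exists_maximal hF
    obtain ⟨hx1, hx2, hx3⟩ := hx
    have hle : ∀ y, a y → y ∈ I → y ≤ x := by
      intro y hy hyI
      by_cases hyF : β ≤ pos y + K
      · rcases h.AA y x hy hx1 with h1 | h1 | h1
        · exact h1.le
        · exact hmax ⟨hy, hyI, hyF⟩ h1.le
        · exact h1.le
      · exact (h.AAlt y x hy hx1 (by omega)).le
    have h1 := hA' x hx2 hx1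
    refine ⟨Sum.inl (⟨x, hx1⟩, ⟨β - pos x, by omega⟩), ?_⟩
    ext y
    change ((¬ a y ∧ pos y < pos x + (β - pos x)) ∨ (a y ∧ y ≤ x)) ↔ y ∈ I
    constructor
    · rintro (⟨h2, h3⟩ | ⟨h2, h3⟩)
      · exact (hB y h2).mpr (by omega)
      · exact I.lower h3 hx2
    · intro hy
      by_cases h2 : a y
      · exact Or.inr ⟨h2, hle y h2 hy⟩
      · exact Or.inl ⟨h2, by have := (hB y h2).mp hy; omega⟩
  · push Not at hF
    refine ⟨Sum.inr ⟨β, hβR⟩, ?_⟩
    ext y
    change ((¬ a y ∧ pos y < β) ∨ (a y ∧ pos y + K < β)) ↔ y ∈ I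
    constructor
    · rintro (⟨h2, h3⟩ | ⟨h2, h3⟩)
      · exact (hB y h2).mpr h3
      · exact hA y h2 h3
    · intro hy
      by_cases h2 : a y
      · exact Or.inr ⟨h2, hF y h2 hy⟩
      · exact Or.inl ⟨h2, (hB y h2).mp hy⟩

end

theorem PW.card_lower {M : Type} [PartialOrder M] [Finite M] {P K : ℕ} {a : M → Prop}
    {pos : M → ℕ} (h : PW M P K a pos) :
    Nat.card (LowerSet M) = Nat.card {x : M // a x} * (K + 1) + (P + K) := by
  rw [← Nat.card_congr (Equiv.ofBijective _ ⟨LCount_inj h, LCount_surj h⟩), Nat.card_sum,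
    Nat.card_prod, Nat.card_fin, Nat.card_fin]

end Pool.Agent.Lib.MP_586990_lc.W
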