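import Pool.Agent.Lib.MP_586990_lc_W.WRel

set_option autoImplicit false

/-!
# The lattice of the lower sets of a position model is planar
-/

namespace Pool.Agent.Lib.MP_586990_lc.W

section

variable {M : Type} [PartialOrder M]

private noncomputable def lpCnt (c : M → Prop) (I : LowerSet M) : ℕ := {x | x ∈ I ∧ c x}.ncard

private theorem lp_nested {c : M → Prop} (hc : ∀ x y, c x → c y → x < y ∨ y < x ∨ x = y)
    (I J : LowerSet M) : {x | x ∈ I ∧ c x} ⊆ {x | x ∈ J ∧ c x} ∨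
      {x | x ∈ J ∧ c x} ⊆ {x | x ∈ I ∧ c x} := by
  by_contra hcon
  rw [not_or, Set.not_subset, Set.not_subset] at hcon
  obtain ⟨⟨x, ⟨hxI, hcx⟩, hxJ⟩, ⟨y, ⟨hyJ, hcy⟩, hyI⟩⟩ := hcon
  have hxJ' : x ∉ J := fun h => hxJ ⟨h, hcx⟩
  have hyI' : y ∉ I := fun h => hyI ⟨h, hcy⟩
  rcases hc x y hcx hcy with h | h | h
  · exact hxJ' (J.lower h.le hyJ)
  · exact hyI' (I.lower h.le hxI)
  · rw [h] at hxJ'
    exact hxJ' hyJ

private theorem lp_sub [Finite M] {c : M → Prop}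
    (hc : ∀ x y, c x → c y → x < y ∨ y < x ∨ x = y) {I J : LowerSet M}
    (h : lpCnt c I ≤ lpCnt c J) : {x | x ∈ I ∧ c x} ⊆ {x | x ∈ J ∧ c x} := by
  rcases lp_nested hc I J with h1 | h1
  · exact h1
  · exact (Set.eq_of_subset_of_ncard_le h1 h (Set.toFinite _)).ge

private theorem lp_mono [Finite M] (c : M → Prop) {I J : LowerSet M} (h : I ≤ J) :
    lpCnt c I ≤ lpCnt c J :=
  Set.ncard_le_ncard (fun _ hx => ⟨h hx.1, hx.2⟩) (Set.toFinite _)

private theorem lp_inf [Finite M] {c : M → Prop}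
    (hc : ∀ x y, c x → c y → x < y ∨ y < x ∨ x = y) (I J : LowerSet M) :
    lpCnt c (I ⊓ J) = lpCnt c I ⊓ lpCnt c J := by
  refine le_antisymm (le_inf (lp_mono c inf_le_left) (lp_mono c inf_le_right)) ?_
  rcases lp_nested hc I J with h1 | h1
  · refine inf_le_left.trans (Set.ncard_le_ncard (fun x hx => ?_) (Set.toFinite _))
    exact ⟨LowerSet.mem_inf_iff.2 ⟨hx.1, (h1 hx).1⟩, hx.2⟩
  · refine inf_le_right.trans (Set.ncard_le_ncard (fun x hx => ?_) (Set.toFinite _))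
    exact ⟨LowerSet.mem_inf_iff.2 ⟨(h1 hx).1, hx.1⟩, hx.2⟩

private theorem lp_sup [Finite M] {c : M → Prop}
    (hc : ∀ x y, c x → c y → x < y ∨ y < x ∨ x = y) (I J : LowerSet M) :
    lpCnt c (I ⊔ J) = lpCnt c I ⊔ lpCnt c J := by
  refine le_antisymm ?_ (sup_le (lp_mono c le_sup_left) (lp_mono c le_sup_right))
  rcases lp_nested hc I J with h1 | h1
  · refine le_trans (Set.ncard_le_ncard (fun x hx => ?_) (Set.toFinite _)) le_sup_right
    rcases LowerSet.mem_sup_iff.1 hx.1 with h | h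
    · exact h1 ⟨h, hx.2⟩
    · exact ⟨h, hx.2⟩
  · refine le_trans (Set.ncard_le_ncard (fun x hx => ?_) (Set.toFinite _)) le_sup_left
    rcases LowerSet.mem_sup_iff.1 hx.1 with h | h
    · exact ⟨h, hx.2⟩
    · exact h1 ⟨h, hx.2⟩

end

theorem PW.planar {M : Type} [PartialOrder M] [Finite M] {P K : ℕ} {a : M → Prop}
    {pos : M → ℕ} (h : PW M P K a pos) : IsPlanar (LowerSet M) := by
  have hB : ∀ x y, ¬ a x → ¬ a y → x < y ∨ y < x ∨ x = y := by
    intro x y hx hy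
    rcases lt_trichotomy (pos x) (pos y) with h1 | h1 | h1
    · exact Or.inl ((h.BB x y hx hy).2 h1)
    · exact Or.inr (Or.inr (h.injB x y hx hy h1))
    · exact Or.inr (Or.inl ((h.BB y x hy hx).2 h1))
  refine ⟨fun I => (lpCnt a I, lpCnt (fun x => ¬ a x) I), ?_, ?_, ?_⟩
  · intro I J
    constructor
    · intro hIJ
      exact ⟨lp_mono _ hIJ, lp_mono _ hIJ⟩
    · rintro ⟨h1, h2⟩ x hx
      by_cases hax : a x
      · exact (lp_sub h.AA h1 ⟨hx, hax⟩).1
      · exact (lp_sub hB h2 ⟨hx, hax⟩).1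
  · intro I J
    exact ⟨I ⊓ J, Prod.ext (lp_inf h.AA I J) (lp_inf hB I J)⟩
  · intro I J
    exact ⟨I ⊔ J, Prod.ext (lp_sup h.AA I J) (lp_sup hB I J)⟩

end Pool.Agent.Lib.MP_586990_lc.W
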