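import Pool.Agent.Lib.MP_586990_lc.Cal

set_option autoImplicit false

/-!
# Relativisation of a sentence to a definable set, isomorphic partial orders
-/

namespace Pool.Agent.Lib.MP_586990_lc.W

open FirstOrder FirstOrder.Language

private theorem rlz_congr {k : ℕ} {R Q : ∀ (M : Type), PartialOrder M → (Fin k → M) → Prop}
    (h : UD k R) (e : ∀ M i v, R M i v ↔ Q M i v) : UD k Q := by
  obtain ⟨φ, hφ⟩ := h
  exact ⟨φ, fun M i v => (hφ M i v).trans (e M i v)⟩

/-- The truth of a formula in the partially ordered subset `D`. -/
private def RR (D : ∀ (M : Type), PartialOrder M → M → Prop) {n : ℕ}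
    (φ : FirstOrder.Language.order.BoundedFormula Empty n) (M : Type) (i : PartialOrder M)
    (v : Fin n → M) : Prop :=
  ∀ h : ∀ j, D M i (v j), @BoundedFormula.Realize FirstOrder.Language.order
    {x : M // D M i x} (@FirstOrder.Language.orderStructure {x : M // D M i x}
      (@Subtype.partialOrder M i (D M i)).toLE) Empty n φ default (fun j => ⟨v j, h j⟩)

private theorem rlz_term {n : ℕ} (t : FirstOrder.Language.order.Term (Empty ⊕ Fin n)) :
    ∃ j : Fin n, t = Term.var (Sum.inr j) := by
  cases t with
  | var a =>
    cases a with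
    | inl a => exact a.elim
    | inr j => exact ⟨j, rfl⟩
  | func f ts => exact isEmptyElim f

private theorem rlz_main {D : ∀ (M : Type), PartialOrder M → M → Prop}
    (hD : UD 1 fun M i v => D M i (v 0)) {n : ℕ}
    (φ : FirstOrder.Language.order.BoundedFormula Empty n) :
    UD n fun M i v => RR D φ M i v := by
  have hall : ∀ m : ℕ, UD m fun M i v => ∀ j : Fin m, D M i (v j) := fun m =>
    UD.allType fun j => hD.sub fun _ => j
  induction φ with
  | falsum =>
    refine rlz_congr (hall _).not fun M i v => ?_
    exact ⟨fun h h' => h h', fun h h' => h h'⟩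
  | equal t₁ t₂ =>
    obtain ⟨a, rfl⟩ := rlz_term t₁
    obtain ⟨b, rfl⟩ := rlz_term t₂
    refine rlz_congr ((hall _).imp (UD.eq a b)) fun M i v => ?_
    refine forall_congr' fun h => ?_
    exact ⟨fun e => Subtype.ext e, fun e => congrArg Subtype.val e⟩
  | @rel n l R ts =>
    have hts : ∀ a, ∃ j : Fin n, ts a = Term.var (Sum.inr j) := fun a => rlz_term (ts a)
    choose t ht using hts
    obtain rfl : ts = fun a => Term.var (Sum.inr (t a)) := funext ht
    cases R
    refine rlz_congr ((hall _).imp ((UD.lt (t 0) (t 1)).or (UD.eq (t 0) (t 1))))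
      fun M i v => ?_
    refine forall_congr' fun h => ?_
    exact (@le_iff_lt_or_eq M i (v (t 0)) (v (t 1))).symm
  | imp f₁ f₂ ih₁ ih₂ =>
    refine rlz_congr ((hall _).imp (ih₁.imp ih₂)) fun M i v => ?_
    exact ⟨fun H h h1 => H h (fun _ => h1) h, fun H h h1 h' => H h' (h1 h')⟩
  | @all n f ih =>
    have h1 := ih.sub (Fin.snoc (fun j : Fin n => j.succ) 0 : Fin (n + 1) → Fin (n + 1))
    have h2 : UD n fun M i v => ∀ a, RR D f M i (Fin.snoc v a : Fin (n + 1) → M) := by
      refine UD.all (R := fun M i v a => RR D f M i (Fin.snoc v a : Fin (n + 1) → M)) ?_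
      refine rlz_congr h1 fun M i v => ?_
      have e : (fun j => v ((Fin.snoc (fun j : Fin n => j.succ) 0 : Fin (n + 1) → Fin (n + 1)) j))
          = (Fin.snoc (fun j : Fin n => v j.succ) (v 0) : Fin (n + 1) → M) := by
        funext j
        induction j using Fin.lastCases with
        | last => simp
        | cast j => simp
      rw [e]
    refine rlz_congr h2 fun M i v => ?_
    constructor
    · intro H h a
      have h3 : ∀ j, D M i ((Fin.snoc v a.1 : Fin (n + 1) → M) j) := by
        intro j
        induction j using Fin.lastCases with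
        | last => simpa using a.2
        | cast j => simpa using h j
      have h4 := H a.1 h3
      have e : (fun j => ⟨(Fin.snoc v a.1 : Fin (n + 1) → M) j, h3 j⟩ :
          Fin (n + 1) → {x : M // D M i x}) = Fin.snoc (fun j => ⟨v j, h j⟩) a := by
        funext j
        induction j using Fin.lastCases with
        | last => exact Subtype.ext (by simp)
        | cast j => exact Subtype.ext (by simp)
      rw [e] at h4
      exact h4
    · intro H a h3
      have h : ∀ j, D M i (v j) := fun j => by simpa using h3 j.castSucc
      have ha : D M i a := by simpa using h3 (Fin.last n)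
      have h4 := H h ⟨a, ha⟩
      have e : (fun j => ⟨(Fin.snoc v a : Fin (n + 1) → M) j, h3 j⟩ :
          Fin (n + 1) → {x : M // D M i x}) = Fin.snoc (fun j => ⟨v j, h j⟩) ⟨a, ha⟩ := by
        funext j
        induction j using Fin.lastCases with
        | last => exact Subtype.ext (by simp)
        | cast j => exact Subtype.ext (by simp)
      rw [e]
      exact h4

/-- Relativisation of a sentence to a definable set. -/
theorem relativize {D : ∀ (M : Type), PartialOrder M → M → Prop}
    (hD : UD 1 fun M i v => D M i (v 0)) (ψ : FirstOrder.Language.order.Sentence) :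
    ∃ ψ' : FirstOrder.Language.order.Sentence, ∀ (M : Type) (i : PartialOrder M),
      @Tr M i ψ' ↔ @Tr {x : M // D M i x} (@Subtype.partialOrder M i (D M i)) ψ := by
  have h := rlz_main hD ψ
  have h' : UD 0 fun M i _ => @Tr {x : M // D M i x} (@Subtype.partialOrder M i (D M i)) ψ := by
    refine rlz_congr h fun M i v => ?_
    have e : ∀ h : ∀ j : Fin 0, D M i (v j),
        (fun j => ⟨v j, h j⟩ : Fin 0 → {x : M // D M i x}) = default :=
      fun h => Subsingleton.elim _ _
    constructor
    · intro h1
      have h2 := h1 fun j => j.elim0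
      rw [e] at h2
      exact h2
    · intro h1 h3
      rw [e]
      exact h1
  exact h'.sentence

/-- Isomorphic partial orders satisfy the same sentences. -/
theorem Tr_iso {M M' : Type} [i : PartialOrder M] [i' : PartialOrder M'] (e : M ≃o M')
    (ψ : FirstOrder.Language.order.Sentence) : Tr M ψ ↔ Tr M' ψ := by
  let _ := FirstOrder.Language.orderStructure M
  let _ := FirstOrder.Language.orderStructure M'
  have : FirstOrder.Language.order.OrderedStructure M := ⟨fun _ => Iff.rfl⟩
  have : FirstOrder.Language.order.OrderedStructure M' := ⟨fun _ => Iff.rfl⟩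
  exact StrongHomClass.realize_sentence e ψ

end Pool.Agent.Lib.MP_586990_lc.W
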