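import Pool.Agent.Lib.MP_586990_lc_W.WCode
import Pool.Agent.Lib.MP_586990_lc_W.Rlz
import Pool.Agent.Lib.MP_586990_lc_W.LDef
import Pool.Agent.Lib.MP_586990_lc_W.Birk
import Pool.Agent.Lib.MP_586990_lc_W.Birk2
import Pool.Agent.Lib.MP_586990_lc_W.LCount
import Pool.Agent.Lib.MP_586990_lc_W.LPlan

set_option autoImplicit false

/-!
# The coding theorem for distributive lattices
-/

namespace Pool.Agent.Lib.MP_586990_lc.W

/-- Isomorphic partial orders: position models. -/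
theorem PW.iso {M M' : Type} [PartialOrder M] [PartialOrder M'] {P K : ℕ} {a : M → Prop}
    {pos : M → ℕ} (h : PW M P K a pos) (e : M' ≃o M) :
    PW M' P K (fun x => a (e x)) (fun x => pos (e x)) where
  ltA x hx := h.ltA _ hx
  ltB x hx := h.ltB _ hx
  surA i hi := by
    obtain ⟨x, hx, hx'⟩ := h.surA i hi
    exact ⟨e.symm x, by rwa [e.apply_symm_apply], by rwa [e.apply_symm_apply]⟩
  surB i hi := by
    obtain ⟨x, hx, hx'⟩ := h.surB i hi
    exact ⟨e.symm x, by rwa [e.apply_symm_apply], by rwa [e.apply_symm_apply]⟩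
  injB x y hx hy hxy := e.injective (h.injB _ _ hx hy hxy)
  more x hx := by
    obtain ⟨y, hy, hy', hy''⟩ := h.more _ hx
    refine ⟨e.symm y, ?_, by rwa [e.apply_symm_apply], by rwa [e.apply_symm_apply]⟩
    rintro rfl
    exact hy (e.apply_symm_apply y).symm
  AA x y hx hy := by
    rcases h.AA _ _ hx hy with h1 | h1 | h1
    · exact Or.inl (e.lt_iff_lt.1 h1)
    · exact Or.inr (Or.inl (e.lt_iff_lt.1 h1))
    · exact Or.inr (Or.inr (e.injective h1))
  AAlt x y hx hy hxy := e.lt_iff_lt.1 (h.AAlt _ _ hx hy hxy)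
  BB x y hx hy := e.lt_iff_lt.symm.trans (h.BB _ _ hx hy)
  AB x y hx hy := e.lt_iff_lt.symm.trans (h.AB _ _ hx hy)
  BA x y hx hy := e.lt_iff_lt.symm.trans (h.BA _ _ hx hy)
  K0 := h.K0
  KP := h.KP

theorem Md.card_lower {c N m : ℕ} {M : Type} {i : PartialOrder M} (hf : Finite M)
    (h : Md c N m M i) : Nat.card (LowerSet M) = c * N * (2 * m + 1) + (2 * N + 2 * m) := by
  obtain ⟨a, pos, hp, hA⟩ := h
  rw [hp.card_lower, hA]

/-- The coding theorem for distributive lattices. -/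
theorem lcode {Λ : Type} [Finite Λ] (T : TileSys Λ) :
    ∃ (c : ℕ) (ψ : FirstOrder.Language.order.Sentence), 4 ≤ c ∧
      (∀ (M : Type) (i : PartialOrder M) (_ : Finite M), @Tr M i ψ → @DL M i ∧
        ∃ (N m : ℕ) (f : ℕ → Λ), T.Sat N m f ∧
          Nat.card M = c * N * (2 * m + 1) + (2 * N + 2 * m)) ∧
      ∀ (N m : ℕ) (f : ℕ → Λ), T.Sat N m f →
        ∃ (M : Type) (i : PartialOrder M) (_ : Finite M),
          Nat.card M = c * N * (2 * m + 1) + (2 * N + 2 * m) ∧ @DL M i ∧ @IsPlanar M i ∧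
            @Tr M i ψ := by
  obtain ⟨c, ψ, hc, h1, h2⟩ := code T
  obtain ⟨ψ', hψ'⟩ := relativize (D := fun M i => @JI M i) (UD_JI 0) ψ
  obtain ⟨χ, hχ⟩ := exists_dlSentence
  have hinf : ∀ (M : Type) (i : PartialOrder M), @Tr M i (χ ⊓ ψ') ↔ @Tr M i χ ∧ @Tr M i ψ' :=
    fun M i => by
      let _ := FirstOrder.Language.orderStructure M
      exact FirstOrder.Language.Formula.realize_inf
  refine ⟨c, χ ⊓ ψ', hc, ?_, ?_⟩
  · intro M i hfin hT
    obtain ⟨h3, h4⟩ := (hinf M i).1 hT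
    have hdl : DL M := (hχ M i).1 h3
    refine ⟨hdl, ?_⟩
    obtain ⟨N, m, f, hS, hM⟩ := h1 _ _ inferInstance ((hψ' M i).1 h4)
    obtain ⟨e⟩ := birkhoff hdl
    refine ⟨N, m, f, hS, ?_⟩
    rw [Nat.card_congr e.toEquiv]
    exact Md.card_lower inferInstance hM
  · intro N m f hS
    obtain ⟨M, i, hfin, hM, hT⟩ := h2 N m f hS
    have hdl : DL (LowerSet M) := DL_lowerSet M
    obtain ⟨e⟩ := JI_lowerSet M
    refine ⟨LowerSet M, inferInstance, inferInstance, Md.card_lower hfin hM, hdl, ?_, ?_⟩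
    · obtain ⟨a, pos, hp, -⟩ := hM
      exact hp.planar
    · refine (hinf _ _).2 ⟨(hχ _ _).2 hdl, (hψ' _ _).2 ?_⟩
      exact (Tr_iso e ψ).2 hT

end Pool.Agent.Lib.MP_586990_lc.W
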