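import Pool.Agent.Lib.MP_586990_lc.Defs

set_option autoImplicit false

/-!
# Two linear orders: definitions
-/

namespace Pool.Agent.Lib.MP_586990_lc.W

/-- The relation symbols for two linear orders: two binary symbols. -/
inductive TwoSymb : ℕ → Type
  | fst : TwoSymb 2
  | snd : TwoSymb 2

/-- The first-order language with two binary relation symbols. -/
def twoLang : FirstOrder.Language.{0, 0} := ⟨fun _ => Empty, TwoSymb⟩

/-- The structure given by two linear orders. -/
def twoStr (M : Type) (i j : LinearOrder M) : twoLang.Structure M where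
  funMap := fun f _ => nomatch f
  RelMap := fun {_} r v => match r, v with
    | TwoSymb.fst, v => i.le (v 0) (v 1)
    | TwoSymb.snd, v => j.le (v 0) (v 1)

/-- The truth of a sentence in a set with two linear orders. -/
def Tr2 (M : Type) (i j : LinearOrder M) (ψ : twoLang.Sentence) : Prop :=
  @FirstOrder.Language.Sentence.Realize twoLang M (twoStr M i j) ψ

/-- The spectrum of the sentence `ψ` in the class `C` of sets with two linear orders. -/
def SpecC2 (C : ∀ (M : Type), LinearOrder M → LinearOrder M → Prop) (ψ : twoLang.Sentence) :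
    Set ℕ :=
  {n | ∃ (M : Type) (i j : LinearOrder M) (_ : Finite M), Nat.card M = n ∧ C M i j ∧
    Tr2 M i j ψ}

/-- No three elements `x < y < z` of the first order satisfy `z < y < x` in the second order:
the permutation given by the two linear orders avoids the pattern `321`. -/
def Avoids321 (M : Type) (i j : LinearOrder M) : Prop :=
  ∀ x y z : M, ¬ (i.lt x y ∧ i.lt y z ∧ j.lt z y ∧ j.lt y x)

/-- The intersection of two linear orders. -/
@[reducible]
def interPO {M : Type} (i j : LinearOrder M) : PartialOrder M where
  le x y := i.le x y ∧ j.le x y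
  lt x y := (i.le x y ∧ j.le x y) ∧ ¬ (i.le y x ∧ j.le y x)
  lt_iff_le_not_ge _ _ := Iff.rfl
  le_refl x := ⟨i.le_refl x, j.le_refl x⟩
  le_trans x y z h h' := ⟨i.le_trans x y z h.1 h'.1, j.le_trans x y z h.2 h'.2⟩
  le_antisymm x y h h' := i.le_antisymm x y h.1 h'.1

end Pool.Agent.Lib.MP_586990_lc.W
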