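import Pool.Agent.Lib.MP_586990_lc_W.WRel
import Pool.Agent.Lib.MP_586990_lc_W.TwDef

set_option autoImplicit false

/-!
# A position model is the intersection of two linear orders
-/

namespace Pool.Agent.Lib.MP_586990_lc.W

/-- A linear order from its relation. -/
private noncomputable abbrev twMk {M : Type} (R : M → M → Prop) (h1 : ∀ x, R x x)
    (h2 : ∀ x y z, R x y → R y z → R x z) (h3 : ∀ x y, R x y → R y x → x = y)
    (h4 : ∀ x y, R x y ∨ R y x) : LinearOrder M where
  le := R
  le_refl := h1
  le_trans := h2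
  le_antisymm := h3
  le_total := h4
  toDecidableLE := Classical.decRel _

/-- The order in which incomparable elements are ordered according to their side. -/
private def twR {M : Type} [PartialOrder M] (b : M → Prop) (x y : M) : Prop :=
  x ≤ y ∨ (b x ∧ ¬ b y ∧ ¬ y ≤ x)

/-- The linear order in which incomparable elements are ordered according to their side. -/
private noncomputable abbrev twL {M : Type} [PartialOrder M] (b : M → Prop)
    (hb : ∀ x y, (b x ↔ b y) → x ≤ y ∨ y ≤ x) : LinearOrder M := by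
  refine twMk (twR b) (fun x => Or.inl (le_refl x)) (fun x y z h h' => ?_)
    (fun x y h h' => ?_) (fun x y => ?_)
  · rcases h with h | ⟨h1, h2, h3⟩
    · rcases h' with h' | ⟨h4, h5, h6⟩
      · exact Or.inl (h.trans h')
      · have h7 : ¬ z ≤ x := fun h8 => h6 (h8.trans h)
        by_cases hx : b x
        · exact Or.inr ⟨hx, h5, h7⟩
        · rcases hb x z ⟨fun h8 => absurd h8 hx, fun h8 => absurd h8 h5⟩ with h8 | h8
          · exact Or.inl h8
          · exact absurd h8 h7
    · rcases h' with h' | ⟨h4, h5, h6⟩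
      · have h7 : ¬ z ≤ x := fun h8 => h3 (h'.trans h8)
        by_cases hz : b z
        · rcases hb x z ⟨fun _ => hz, fun _ => h1⟩ with h8 | h8
          · exact Or.inl h8
          · exact absurd h8 h7
        · exact Or.inr ⟨h1, hz, h7⟩
      · exact absurd h4 h2
  · rcases h with h | ⟨h1, h2, h3⟩
    · rcases h' with h' | ⟨h4, h5, h6⟩
      · exact le_antisymm h h'
      · exact absurd h h6
    · rcases h' with h' | ⟨h4, h5, h6⟩
      · exact absurd h' h3
      · exact absurd h4 h2
  · by_cases h1 : x ≤ y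
    · exact Or.inl (Or.inl h1)
    by_cases h2 : y ≤ x
    · exact Or.inr (Or.inl h2)
    by_cases h3 : b x
    · by_cases h4 : b y
      · rcases hb x y ⟨fun _ => h4, fun _ => h3⟩ with h | h
        · exact absurd h h1
        · exact absurd h h2
      · exact Or.inl (Or.inr ⟨h3, h4, h2⟩)
    · by_cases h4 : b y
      · exact Or.inr (Or.inr ⟨h4, h3, h1⟩)
      · rcases hb x y ⟨fun h => absurd h h3, fun h => absurd h h4⟩ with h | h
        · exact absurd h h1
        · exact absurd h h2

private theorem tw_key {M : Type} [PartialOrder M] (b : M → Prop)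
    (hb : ∀ x y, (b x ↔ b y) → x ≤ y ∨ y ≤ x)
    (hc : ∀ x y, (¬ b x ↔ ¬ b y) → x ≤ y ∨ y ≤ x) {x y : M}
    (h1 : (twL b hb).lt x y) (h2 : (twL (fun z => ¬ b z) hc).lt y x) : b x ∧ ¬ b y := by
  have h3 := ((twL b hb).lt_iff_le_not_ge x y).1 h1
  have h4 := ((twL (fun z => ¬ b z) hc).lt_iff_le_not_ge y x).1 h2
  rcases h3.1 with h5 | h5
  · exact absurd (Or.inl h5) h4.2
  · exact ⟨h5.1, h5.2.1⟩

theorem PW.two {M : Type} [i0 : PartialOrder M] {P K : ℕ} {a : M → Prop} {pos : M → ℕ}
    (h : PW M P K a pos) :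
    ∃ i j : LinearOrder M, interPO i j = i0 ∧ Avoids321 M i j := by
  have hb : ∀ x y, (a x ↔ a y) → x ≤ y ∨ y ≤ x := by
    intro x y hxy
    by_cases hx : a x
    · rcases h.AA x y hx (hxy.1 hx) with h1 | h1 | h1
      · exact Or.inl h1.le
      · exact Or.inr h1.le
      · exact Or.inl h1.le
    · have hy : ¬ a y := fun h1 => hx (hxy.2 h1)
      rcases lt_trichotomy (pos x) (pos y) with h1 | h1 | h1
      · exact Or.inl ((h.BB x y hx hy).2 h1).le
      · exact Or.inl (h.injB x y hx hy h1).le
      · exact Or.inr ((h.BB y x hy hx).2 h1).le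
  have hc : ∀ x y, (¬ a x ↔ ¬ a y) → x ≤ y ∨ y ≤ x := fun x y hxy => hb x y (not_iff_not.1 hxy)
  refine ⟨twL a hb, twL (fun z => ¬ a z) hc, ?_, ?_⟩
  · refine PartialOrder.ext fun x y => ?_
    constructor
    · rintro ⟨h1, h2⟩
      rcases h1 with h1 | h1
      · exact h1
      · rcases h2 with h2 | h2
        · exact h2
        · exact absurd h1.1 h2.1
    · intro h1
      exact ⟨Or.inl h1, Or.inl h1⟩
  · rintro x y z ⟨h1, h2, h3, h4⟩
    have h5 := tw_key a hb hc h1 h4
    have h6 := tw_key a hb hc h2 h3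
    exact h5.2 h6.1

end Pool.Agent.Lib.MP_586990_lc.W
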