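import Pool.Agent.Lib.MP_586990_lc_W.TwDef

set_option autoImplicit false

/-!
# Two linear orders: the spectra of sentences in an elementary class are spectra
-/

namespace Pool.Agent.Lib.MP_586990_lc.W

open FirstOrder FirstOrder.Language

/-- The axioms of linear orders. -/
private def TwSpec_ax (R : twoLang.Relations 2) : twoLang.Sentence :=
  R.reflexive ⊓ (R.transitive ⊓ (R.antisymmetric ⊓ R.total))

private theorem TwSpec_ax_iff {M : Type} (s : twoLang.Structure M) (R : twoLang.Relations 2) :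
    @Sentence.Realize twoLang M s (TwSpec_ax R) ↔
      ((∀ a : M, Structure.RelMap R ![a, a]) ∧
      (∀ a b c : M, Structure.RelMap R ![a, b] → Structure.RelMap R ![b, c] →
        Structure.RelMap R ![a, c]) ∧
      (∀ a b : M, Structure.RelMap R ![a, b] → Structure.RelMap R ![b, a] → a = b) ∧
      ∀ a b : M, Structure.RelMap R ![a, b] ∨ Structure.RelMap R ![b, a]) := by
  constructor
  · intro h
    obtain ⟨h1, h⟩ := Formula.realize_inf.1 h
    obtain ⟨h2, h⟩ := Formula.realize_inf.1 h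
    obtain ⟨h3, h4⟩ := Formula.realize_inf.1 h
    exact ⟨fun a => (Relations.realize_reflexive.1 h1).refl a,
      fun a b c => (Relations.realize_transitive.1 h2).trans a b c,
      fun a b => (Relations.realize_antisymmetric.1 h3).antisymm a b,
      fun a b => (Relations.realize_total.1 h4).total a b⟩
  · rintro ⟨h1, h2, h3, h4⟩
    refine Formula.realize_inf.2 ⟨?_, Formula.realize_inf.2 ⟨?_, Formula.realize_inf.2 ⟨?_, ?_⟩⟩⟩
    · exact Relations.realize_reflexive.2 ⟨h1⟩
    · exact Relations.realize_transitive.2 ⟨h2⟩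
    · exact Relations.realize_antisymmetric.2 ⟨h3⟩
    · exact Relations.realize_total.2 ⟨h4⟩

/-- A linear order from its relation. -/
private theorem TwSpec_lo {M : Type} (r : M → M → Prop) (h1 : ∀ a, r a a)
    (h2 : ∀ a b c, r a b → r b c → r a c) (h3 : ∀ a b, r a b → r b a → a = b)
    (h4 : ∀ a b, r a b ∨ r b a) : ∃ i : LinearOrder M, i.le = r := by
  classical
  exact ⟨{ le := r
           le_refl := h1
           le_trans := h2
           le_antisymm := h3
           le_total := h4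
           toDecidableLE := fun _ _ => Classical.propDecidable _ }, rfl⟩

private theorem TwSpec_ex (M : Type) (s : twoLang.Structure M)
    (h : @Sentence.Realize twoLang M s (TwSpec_ax TwoSymb.fst))
    (h' : @Sentence.Realize twoLang M s (TwSpec_ax TwoSymb.snd)) :
    ∃ i j : LinearOrder M, twoStr M i j = s := by
  replace h := (TwSpec_ax_iff s TwoSymb.fst).1 h
  replace h' := (TwSpec_ax_iff s TwoSymb.snd).1 h'
  obtain ⟨i, hi⟩ := TwSpec_lo (fun a b => Structure.RelMap (L := twoLang) TwoSymb.fst ![a, b])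
    h.1 h.2.1 h.2.2.1 h.2.2.2
  obtain ⟨j, hj⟩ := TwSpec_lo (fun a b => Structure.RelMap (L := twoLang) TwoSymb.snd ![a, b])
    h'.1 h'.2.1 h'.2.2.1 h'.2.2.2
  refine ⟨i, j, ?_⟩
  refine Structure.ext ?_ ?_
  · funext n f
    exact nomatch f
  · funext n R x
    cases R
    · have hx : x = ![x 0, x 1] := by
        funext k
        fin_cases k <;> rfl
      conv_rhs => rw [hx]
      exact congrFun (congrFun hi (x 0)) (x 1)
    · have hx : x = ![x 0, x 1] := by
        funext k
        fin_cases k <;> rfl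
      conv_rhs => rw [hx]
      exact congrFun (congrFun hj (x 0)) (x 1)

theorem twoSpec {C : ∀ (M : Type), LinearOrder M → LinearOrder M → Prop}
    (hC : ∃ χ : twoLang.Sentence, ∀ (M : Type) (i j : LinearOrder M),
      Finite M → (Tr2 M i j χ ↔ C M i j)) (ψ : twoLang.Sentence) :
    ∃ ψ' : twoLang.Sentence, Spec ψ' = SpecC2 C ψ := by
  obtain ⟨χ, hχ⟩ := hC
  refine ⟨TwSpec_ax TwoSymb.fst ⊓ (TwSpec_ax TwoSymb.snd ⊓ (χ ⊓ ψ)), ?_⟩
  ext n
  constructor
  · rintro ⟨M, s, hf, hn, hs⟩
    obtain ⟨h1, hs⟩ := Formula.realize_inf.1 hs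
    obtain ⟨h2, hs⟩ := Formula.realize_inf.1 hs
    obtain ⟨i, j, rfl⟩ := TwSpec_ex M s h1 h2
    let _ := twoStr M i j
    obtain ⟨h3, h4⟩ := Formula.realize_inf.1 hs
    exact ⟨M, i, j, hf, hn, (hχ M i j hf).1 h3, h4⟩
  · rintro ⟨M, i, j, hf, hn, hs, ht⟩
    refine ⟨M, twoStr M i j, hf, hn, ?_⟩
    let _ := twoStr M i j
    refine Formula.realize_inf.2 ⟨?_, Formula.realize_inf.2 ⟨?_, Formula.realize_inf.2
      ⟨(hχ M i j hf).2 hs, ht⟩⟩⟩
    · exact (TwSpec_ax_iff (twoStr M i j) TwoSymb.fst).2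
        ⟨i.le_refl, i.le_trans, i.le_antisymm, i.le_total⟩
    · exact (TwSpec_ax_iff (twoStr M i j) TwoSymb.snd).2
        ⟨j.le_refl, j.le_trans, j.le_antisymm, j.le_total⟩

end Pool.Agent.Lib.MP_586990_lc.W
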