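import Pool.Agent.Lib.MP_586990_lc_W.TwDef

set_option autoImplicit false

/-!
# Two linear orders: translation of the sentences about partial orders
-/

namespace Pool.Agent.Lib.MP_586990_lc.W

open FirstOrder FirstOrder.Language

/-- The same term in the language of two orders. -/
private def TwTr_term {α : Type} : FirstOrder.Language.order.Term α → twoLang.Term α
  | .var x => .var x
  | .func f _ => isEmptyElim f

private def TwTr_rel {n : ℕ} : {l : ℕ} → FirstOrder.Language.order.Relations l →
    (Fin l → twoLang.Term (Empty ⊕ Fin n)) → twoLang.BoundedFormula Empty n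
  | _, orderRel.le, ts =>
    BoundedFormula.rel (L := twoLang) TwoSymb.fst ts ⊓
      BoundedFormula.rel (L := twoLang) TwoSymb.snd ts

private def TwTr_bf : {n : ℕ} → FirstOrder.Language.order.BoundedFormula Empty n →
    twoLang.BoundedFormula Empty n
  | _, .falsum => .falsum
  | _, .equal t₁ t₂ => .equal (TwTr_term t₁) (TwTr_term t₂)
  | _, .rel R ts => TwTr_rel R fun k => TwTr_term (ts k)
  | _, .imp a b => .imp (TwTr_bf a) (TwTr_bf b)
  | _, .all a => .all (TwTr_bf a)

private theorem TwTr_term_real {M : Type} (i j : LinearOrder M) {α : Type} (v : α → M)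
    (t : FirstOrder.Language.order.Term α) :
    @Term.realize twoLang M (twoStr M i j) α v (TwTr_term t) =
      @Term.realize FirstOrder.Language.order M
        (@FirstOrder.Language.orderStructure M (interPO i j).toLE) α v t := by
  cases t with
  | var x => rfl
  | func f ts => exact isEmptyElim f

private theorem TwTr_bf_real {M : Type} (i j : LinearOrder M) (v : Empty → M) :
    ∀ {n : ℕ} (φ : FirstOrder.Language.order.BoundedFormula Empty n) (xs : Fin n → M),
      @BoundedFormula.Realize twoLang M (twoStr M i j) Empty n (TwTr_bf φ) v xs ↔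
      @BoundedFormula.Realize FirstOrder.Language.order M
        (@FirstOrder.Language.orderStructure M (interPO i j).toLE) Empty n φ v xs := by
  intro n φ
  induction φ with
  | falsum => intro xs; exact Iff.rfl
  | equal t₁ t₂ =>
    intro xs
    change (@Term.realize twoLang M (twoStr M i j) _ _ (TwTr_term t₁) =
      @Term.realize twoLang M (twoStr M i j) _ _ (TwTr_term t₂)) ↔ _
    rw [TwTr_term_real, TwTr_term_real]
    exact Iff.rfl
  | rel R ts =>
    intro xs
    cases R
    let _ := twoStr M i j
    change BoundedFormula.Realize (BoundedFormula.rel (L := twoLang) TwoSymb.fst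
      (fun k => TwTr_term (ts k)) ⊓ BoundedFormula.rel (L := twoLang) TwoSymb.snd
      (fun k => TwTr_term (ts k))) v xs ↔ _
    rw [BoundedFormula.realize_inf]
    change (i.le (@Term.realize twoLang M (twoStr M i j) _ _ (TwTr_term (ts 0)))
        (@Term.realize twoLang M (twoStr M i j) _ _ (TwTr_term (ts 1))) ∧
      j.le (@Term.realize twoLang M (twoStr M i j) _ _ (TwTr_term (ts 0)))
        (@Term.realize twoLang M (twoStr M i j) _ _ (TwTr_term (ts 1)))) ↔ _
    rw [TwTr_term_real, TwTr_term_real]
    exact Iff.rfl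
  | imp a b ha hb =>
    intro xs
    have h1 := ha xs
    have h2 := hb xs
    change (@BoundedFormula.Realize twoLang M (twoStr M i j) Empty _ (TwTr_bf a) v xs →
      @BoundedFormula.Realize twoLang M (twoStr M i j) Empty _ (TwTr_bf b) v xs) ↔ _
    rw [h1, h2]
    exact Iff.rfl
  | all a ha =>
    intro xs
    change (∀ x : M, @BoundedFormula.Realize twoLang M (twoStr M i j) Empty _ (TwTr_bf a) v
      (Fin.snoc xs x)) ↔ _
    constructor
    · intro h x
      exact (ha _).1 (h x)
    · intro h x
      exact (ha _).2 (h x)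

/-- Sentences about the intersection of two linear orders. -/
theorem two_tr (ψ : FirstOrder.Language.order.Sentence) :
    ∃ ψ' : twoLang.Sentence, ∀ (M : Type) (i j : LinearOrder M),
      Tr2 M i j ψ' ↔ @Tr M (interPO i j) ψ :=
  ⟨TwTr_bf ψ, fun _ i j => TwTr_bf_real i j _ ψ _⟩

private def TwTr_le (R : twoLang.Relations 2) (x y : Fin 3) : twoLang.BoundedFormula Empty 3 :=
  BoundedFormula.rel R ![.var (Sum.inr x), .var (Sum.inr y)]

private def TwTr_lt (R : twoLang.Relations 2) (x y : Fin 3) : twoLang.BoundedFormula Empty 3 :=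
  TwTr_le R x y ⊓ (TwTr_le R y x).not

private theorem TwTr_fst {M : Type} (i j : LinearOrder M) (v : Empty → M) (xs : Fin 3 → M)
    (x y : Fin 3) : @BoundedFormula.Realize twoLang M (twoStr M i j) Empty 3
      (TwTr_lt TwoSymb.fst x y) v xs ↔ i.lt (xs x) (xs y) := by
  let _ := twoStr M i j
  unfold TwTr_lt
  rw [BoundedFormula.realize_inf, BoundedFormula.realize_not]
  exact (i.lt_iff_le_not_ge (xs x) (xs y)).symm

private theorem TwTr_snd {M : Type} (i j : LinearOrder M) (v : Empty → M) (xs : Fin 3 → M)
    (x y : Fin 3) : @BoundedFormula.Realize twoLang M (twoStr M i j) Empty 3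
      (TwTr_lt TwoSymb.snd x y) v xs ↔ j.lt (xs x) (xs y) := by
  let _ := twoStr M i j
  unfold TwTr_lt
  rw [BoundedFormula.realize_inf, BoundedFormula.realize_not]
  exact (j.lt_iff_le_not_ge (xs x) (xs y)).symm

/-- Avoiding `321` is a first-order property. -/
theorem exists_avoids : ∃ χ : twoLang.Sentence, ∀ (M : Type) (i j : LinearOrder M),
    Tr2 M i j χ ↔ Avoids321 M i j := by
  refine ⟨.all (.all (.all (BoundedFormula.not (TwTr_lt TwoSymb.fst 0 1 ⊓
    (TwTr_lt TwoSymb.fst 1 2 ⊓ (TwTr_lt TwoSymb.snd 2 1 ⊓ TwTr_lt TwoSymb.snd 1 0)))))),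
    fun M i j => ?_⟩
  let _ := twoStr M i j
  have key : ∀ (v : Empty → M) (xs : Fin 3 → M), BoundedFormula.Realize
      (BoundedFormula.not (TwTr_lt TwoSymb.fst 0 1 ⊓
    (TwTr_lt TwoSymb.fst 1 2 ⊓ (TwTr_lt TwoSymb.snd 2 1 ⊓ TwTr_lt TwoSymb.snd 1 0)))) v xs ↔
      ¬ (i.lt (xs 0) (xs 1) ∧ i.lt (xs 1) (xs 2) ∧ j.lt (xs 2) (xs 1) ∧ j.lt (xs 1) (xs 0)) := by
    intro v xs
    rw [BoundedFormula.realize_not, BoundedFormula.realize_inf, BoundedFormula.realize_inf,
      BoundedFormula.realize_inf, TwTr_fst, TwTr_fst, TwTr_snd, TwTr_snd]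
  constructor
  · intro h x y z
    exact (key _ _).1 (h x y z)
  · intro h x y z
    exact (key _ _).2 (h x y z)

end Pool.Agent.Lib.MP_586990_lc.W
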