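import Pool.Agent.Lib.MP_586990_lc_W.WMain
import Pool.Agent.Lib.MP_586990_lc_W.TwTr
import Pool.Agent.Lib.MP_586990_lc_W.TwSpec
import Pool.Agent.Lib.MP_586990_lc_W.TwMod

set_option autoImplicit false

/-!
# Spectra and spectra of two linear orders
-/

namespace Pool.Agent.Lib.MP_586990_lc.W

/-- Fagin's theorem for two linear orders. -/
theorem exists_two {L : FirstOrder.Language.{0, 0}} (φ : L.Sentence) :
    ∃ (p : Polynomial ℕ) (ψ : twoLang.Sentence),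
      (StrictMono fun n => p.eval n) ∧ 1 ≤ p.eval 2 ∧
      ∀ C : ∀ (M : Type), LinearOrder M → LinearOrder M → Prop,
        (∀ (M : Type) (i j : LinearOrder M), Finite M → Avoids321 M i j → C M i j) →
        SpecC2 C ψ = {s | ∃ n ∈ Spec φ, 2 ≤ n ∧ s + 1 = p.eval n} := by
  obtain ⟨Λ, hΛ, T, r, hr, hT⟩ := spec_tile2 φ
  obtain ⟨c, ψ, hc, h1, h2⟩ := code T
  obtain ⟨ψ', hψ'⟩ := two_tr ψ
  refine ⟨polyW c r, ψ', polyW_strictMono hr, ?_, fun C hC => Set.ext fun s => ⟨?_, ?_⟩⟩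
  · rw [polyW_eval]
    have : 0 < 2 ^ r := Nat.pow_pos (by norm_num)
    omega
  · rintro ⟨M, i, j, hfin, hcard, -, hψ⟩
    obtain ⟨N, m, f, hf, a, pos, hp, hA⟩ := h1 M _ hfin ((hψ' M i j).1 hψ)
    obtain ⟨n, hn, hm, hN, hmem⟩ := (hT N m).1 ⟨f, hf⟩
    refine ⟨n, hmem, hn, ?_⟩
    have h3 := @PW.card M (interPO i j) _ _ _ _ hfin hp
    rw [hcard, hA] at h3
    rw [h3, polyW_eval, ← hm, ← hN]
    ring
  · rintro ⟨n, hmem, hn, hs⟩
    obtain ⟨f, hf⟩ := (hT _ (n ^ r)).2 ⟨n, hn, rfl, rfl, hmem⟩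
    obtain ⟨M, i0, hfin, ⟨a, pos, hp, hA⟩, hψ⟩ := h2 _ _ f hf
    obtain ⟨i, j, hij, hav⟩ := hp.two
    refine ⟨M, i, j, hfin, ?_, hC M i j hfin hav, (hψ' M i j).2 (by rw [hij]; exact hψ)⟩
    have h3 := hp.card
    rw [hA] at h3
    rw [polyW_eval] at hs
    have h4 : (c + 2) * (n ^ r * n ^ r) = c * (n ^ r * n ^ r) + 2 * (n ^ r * n ^ r) := by ring
    omega

/-- All spectra and the spectra in an elementary class of sets with two linear orders. -/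
theorem main_two (C : ∀ (M : Type), LinearOrder M → LinearOrder M → Prop)
    (hC : ∀ (M : Type) (i j : LinearOrder M), Finite M → Avoids321 M i j → C M i j)
    (hχ : ∃ χ : twoLang.Sentence, ∀ (M : Type) (i j : LinearOrder M),
      Finite M → (Tr2 M i j χ ↔ C M i j)) :
    (∀ (L : FirstOrder.Language.{0, 0}) (φ : L.Sentence), Rud (Spec φ)) ↔
    ∀ ψ : twoLang.Sentence, Rud (SpecC2 C ψ) := by
  constructor
  · intro h ψ
    obtain ⟨ψ', hψ'⟩ := twoSpec hχ ψ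
    rw [← hψ']
    exact h _ ψ'
  · intro h L φ
    obtain ⟨p, ψ, hp, hp2, hψ⟩ := exists_two φ
    rw [rud_img_iff p 1 hp hp2, ← hψ C hC]
    exact h ψ

end Pool.Agent.Lib.MP_586990_lc.W
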