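import Pool.Agent.Lib.MP_586990_lc_W.WRel

set_option autoImplicit false

/-!
# The two chains: comparison of blocks
-/

namespace Pool.Agent.Lib.MP_586990_lc.W

variable {M : Type} [PartialOrder M]

/-- Incomparable elements are in different chains. -/
theorem inc_side (chA : ∀ x y : M, Bl x → Bl y → x < y ∨ y < x ∨ x = y)
    (chB : ∀ x y : M, Sg x → Sg y → x < y ∨ y < x ∨ x = y) {x y : M} (h : Inc x y) :
    (Bl x ∧ Sg y) ∨ (Sg x ∧ Bl y) := by
  by_cases hx : Sg x
  · by_cases hy : Sg y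
    · rcases chB x y hx hy with h1 | h1 | h1
      · exact absurd h1 h.1
      · exact absurd h1 h.2.1
      · exact absurd h1 h.2.2
    · exact Or.inr ⟨hx, hy⟩
  · by_cases hy : Sg y
    · exact Or.inl ⟨hx, hy⟩
    · rcases chA x y hx hy with h1 | h1 | h1
      · exact absurd h1 h.1
      · exact absurd h1 h.2.1
      · exact absurd h1 h.2.2

theorem WBlk_sg (chA : ∀ x y : M, Bl x → Bl y → x < y ∨ y < x ∨ x = y)
    (chB : ∀ x y : M, Sg x → Sg y → x < y ∨ y < x ∨ x = y) {x y : M} (hx : Bl x)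
    (h : Inc x y) : Sg y := by
  rcases inc_side chA chB h with h1 | h1
  · exact h1.2
  · exact absurd h1.1 hx

theorem WBlk_symm {x y : M} (h : Tw x y) : Tw y x := fun z => (h z).symm

theorem WBlk_trans {x y z : M} (h : Tw x y) (h' : Tw y z) : Tw x z :=
  fun w => (h w).trans (h' w)

theorem WBlk_conv (chA : ∀ x y : M, Bl x → Bl y → x < y ∨ y < x ∨ x = y)
    (chB : ∀ x y : M, Sg x → Sg y → x < y ∨ y < x ∨ x = y) (inc : ∀ x : M, ∃ y, Inc x y)
    {x y z : M} (hx : Bl x) (hy : Bl y) (hz : Bl z) (h1 : x < y) (h2 : y < z) (h : Tw x z) :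
    Tw x y := by
  intro b
  constructor
  · intro hb
    have hs := WBlk_sg chA chB hx hb
    have hzb := (h b).1 hb
    refine ⟨fun h3 => hb.1 (h1.trans h3), fun h3 => hzb.2.1 (h3.trans h2), ?_⟩
    rintro rfl
    exact hy hs
  · intro hb
    have hs := WBlk_sg chA chB hy hb
    by_contra hxb
    have hzb : ¬ Inc z b := fun h3 => hxb ((h b).2 h3)
    have hxl : x < b := by
      by_contra h3
      refine hxb ⟨h3, fun h4 => hb.2.1 (h4.trans h1), ?_⟩
      rintro rfl
      exact hx hs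
    have hzl : b < z := by
      by_contra h3
      refine hzb ⟨fun h4 => hb.1 (h2.trans h4), h3, ?_⟩
      rintro rfl
      exact hz hs
    obtain ⟨c, hc⟩ := inc x
    have hcs := WBlk_sg chA chB hx hc
    have hzc := (h c).1 hc
    rcases chB b c hs hcs with h3 | h3 | h3
    · exact hc.1 (hxl.trans h3)
    · exact hzc.2.1 (h3.trans hzl)
    · rw [← h3] at hc
      exact hc.1 hxl

theorem Lb_irrefl (x : M) : ¬ Lb x x := fun h => lt_irrefl x h.2.2.1

theorem Lb_trans (chA : ∀ x y : M, Bl x → Bl y → x < y ∨ y < x ∨ x = y)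
    (chB : ∀ x y : M, Sg x → Sg y → x < y ∨ y < x ∨ x = y) (inc : ∀ x : M, ∃ y, Inc x y)
    {x y z : M} (h : Lb x y) (h' : Lb y z) : Lb x z :=
  ⟨h.1, h'.2.1, h.2.2.1.trans h'.2.2.1, fun ht =>
    h.2.2.2 (WBlk_conv chA chB inc h.1 h.2.1 h'.2.1 h.2.2.1 h'.2.2.1 ht)⟩

theorem Lb_neg (chA : ∀ x y : M, Bl x → Bl y → x < y ∨ y < x ∨ x = y)
    (chB : ∀ x y : M, Sg x → Sg y → x < y ∨ y < x ∨ x = y) (inc : ∀ x : M, ∃ y, Inc x y)
    {x y z : M} (hx : Bl x) (hy : Bl y) (hz : Bl z) (h : ¬ Lb x y) (h' : ¬ Lb y z) :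
    ¬ Lb x z := by
  intro hL
  have e1 : x < y → Tw x y := fun h1 => by
    by_contra h2
    exact h ⟨hx, hy, h1, h2⟩
  have e2 : y < z → Tw y z := fun h1 => by
    by_contra h2
    exact h' ⟨hy, hz, h1, h2⟩
  apply hL.2.2.2
  rcases chA x y hx hy with h1 | h1 | h1
  · rcases chA y z hy hz with h2 | h2 | h2
    · exact WBlk_trans (e1 h1) (e2 h2)
    · exact WBlk_conv chA chB inc hx hz hy hL.2.2.1 h2 (e1 h1)
    · rw [← h2]
      exact e1 h1
  · have h2 := e2 (h1.trans hL.2.2.1)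
    have h3 := WBlk_conv chA chB inc hy hx hz h1 hL.2.2.1 h2
    exact WBlk_trans (WBlk_symm h3) h2
  · rw [h1]
    apply e2
    rw [← h1]
    exact hL.2.2.1

/-- Two elements of a block which are not twins are in different blocks. -/
theorem Tw_or_Lb (chA : ∀ x y : M, Bl x → Bl y → x < y ∨ y < x ∨ x = y) {x y : M} (hx : Bl x)
    (hy : Bl y) : Tw x y ∨ Lb x y ∨ Lb y x := by
  by_cases ht : Tw x y
  · exact Or.inl ht
  · rcases chA x y hx hy with h1 | h1 | h1
    · exact Or.inr (Or.inl ⟨hx, hy, h1, ht⟩)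
    · exact Or.inr (Or.inr ⟨hy, hx, h1, fun h => ht (WBlk_symm h)⟩)
    · left
      rw [h1]
      exact fun z => Iff.rfl

end Pool.Agent.Lib.MP_586990_lc.W
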