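import Pool.Agent.Lib.MP_586990_lc_W.WMod
import Pool.Agent.Lib.MP_586990_lc.Decode

set_option autoImplicit false

/-!
# Decoding
-/

namespace Pool.Agent.Lib.MP_586990_lc.W

/-- The number of elements of the first chain is the sum of the sizes of the blocks. -/
private theorem WDecode_card {M : Type} [Finite M] (P : ℕ) (a : M → Prop) (pos : M → ℕ)
    (h : ∀ x, a x → pos x < P) : Nat.card {x : M // a x} =
      ∑ i ∈ Finset.range P, Nat.card {y : M // a y ∧ pos y = i} := by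
  rw [Decode_card (M := {x : M // a x}) P (fun x => pos x.1) (fun x => h x.1 x.2)]
  refine Finset.sum_congr rfl fun i _ => ?_
  exact Nat.card_congr (Equiv.subtypeSubtypeEquivSubtypeInter a (fun y => pos y = i))

theorem PW.decode {M : Type} [PartialOrder M] [Finite M] {P K : ℕ} {a : M → Prop} {pos : M → ℕ}
    (h : PW M P K a pos) {ℓ : ℕ} {T : TileSys (Fin ℓ)} (ok : Ok T M) :
    ∃ (N m : ℕ) (f : ℕ → Fin ℓ), T.Sat N m f ∧ P = 2 * N ∧ K = 2 * m ∧
      Nat.card {x : M // a x} = (2 * ℓ + 4) * N := by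
  have hK0 := h.K0
  have hKP := h.KP
  -- the sizes
  obtain ⟨S, hS⟩ : ∃ S : ℕ → ℕ, ∀ i, S i = Nat.card {y : M // a y ∧ pos y = i} :=
    ⟨_, fun _ => rfl⟩
  have hSz : ∀ (s : ℕ) (x : M), a x → (Sz s x ↔ S (pos x) = s) := by
    intro s x hx
    rw [h.Sz_iff, hS]
    have e : Nat.card {y : M // (a x ↔ a y) ∧ pos x = pos y} =
        Nat.card {y : M // a y ∧ pos y = pos x} := by
      refine Nat.card_congr (Equiv.subtypeEquivRight fun y => ?_)
      constructor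
      · rintro ⟨h1, h2⟩
        exact ⟨h1.1 hx, h2.symm⟩
      · rintro ⟨h1, h2⟩
        exact ⟨⟨fun _ => h1, fun _ => hx⟩, h2.symm⟩
    rw [e]
  have hLab : ∀ (b : Fin ℓ) (x : M), a x → (Lab b x ↔
      S (pos x) = (b : ℕ) + 2 ∧ pos x + 1 < P ∧ S (pos x + 1) = 2 * ℓ + 2 - b) := by
    intro b x hx
    unfold Lab
    rw [hSz _ x hx, h.Bl_iff]
    constructor
    · rintro ⟨_, h1, y, hy, hy2⟩
      rw [h.Su_iff] at hy
      rw [hSz _ y hy.2.1, hy.2.2] at hy2
      refine ⟨h1, ?_, hy2⟩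
      have := h.ltA y hy.2.1
      omega
    · rintro ⟨h1, h2, h3⟩
      obtain ⟨y, hya, hy⟩ := h.surA _ h2
      exact ⟨hx, h1, y, h.Su_iff.2 ⟨hx, hya, hy⟩, by rw [hSz _ y hya, hy]; exact h3⟩
  let FP : ℕ → Prop := fun i => ∃ b : Fin ℓ,
    S i = (b : ℕ) + 2 ∧ i + 1 < P ∧ S (i + 1) = 2 * ℓ + 2 - b
  let SP : ℕ → Prop := fun i => ∃ b : Fin ℓ, S i = 2 * ℓ + 2 - b
  have hFs : ∀ x : M, a x → (Fs ℓ x ↔ FP (pos x)) := fun x hx =>
    exists_congr fun b => hLab b x hx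
  have hSn : ∀ x : M, a x → (Sn ℓ x ↔ SP (pos x)) := by
    intro x hx
    unfold Sn
    rw [h.Bl_iff]
    constructor
    · rintro ⟨_, b, hb⟩
      exact ⟨b, (hSz _ x hx).1 hb⟩
    · rintro ⟨b, hb⟩
      exact ⟨hx, b, (hSz _ x hx).2 hb⟩
  have hexcl : ∀ i, FP i → SP i → False := by
    rintro i ⟨b, hb, _⟩ ⟨c, hc⟩
    have h1 := b.2
    have h2 := c.2
    omega
  have hFS : ∀ i, FP i → SP (i + 1) := by
    rintro i ⟨b, _, _, hb⟩
    exact ⟨b, hb⟩
  have h0 : FP 0 := by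
    obtain ⟨x, hxa, hx⟩ := h.surA 0 (by omega)
    have h1 := ok.lab0 x (h.Bl_iff.2 hxa) (by
      rintro ⟨z, hz⟩
      rw [h.Lb_iff, hx] at hz
      omega)
    rwa [hFs x hxa, hx] at h1
  have hSF : ∀ i, i + 1 < P → SP i → FP (i + 1) := by
    intro i hi hs
    obtain ⟨x, hxa, hx⟩ := h.surA i (by omega)
    obtain ⟨y, hya, hy⟩ := h.surA (i + 1) hi
    have h1 := ok.lab1 x y (h.Su_iff.2 ⟨hxa, hya, by rw [hx, hy]⟩) (by rwa [hSn x hxa, hx])
    rwa [hFs y hya, hy] at h1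
  have hpar : ∀ n, (2 * n < P → FP (2 * n)) ∧ (2 * n + 1 < P → SP (2 * n + 1)) := by
    intro n
    induction n with
    | zero => exact ⟨fun _ => h0, fun _ => hFS 0 h0⟩
    | succ n ih =>
      have h1 : 2 * (n + 1) < P → FP (2 * (n + 1)) := fun hn =>
        hSF (2 * n + 1) (by omega) (ih.2 (by omega))
      exact ⟨h1, fun hn => hFS _ (h1 (by omega))⟩
  -- the number of positions is even
  obtain ⟨N, hN⟩ : ∃ N, P = 2 * N := by
    refine ⟨P / 2, ?_⟩
    by_contra hne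
    have h1 : 2 * (P / 2) < P := by omega
    obtain ⟨b, _, h2, _⟩ := (hpar (P / 2)).1 h1
    omega
  -- the shift is even
  obtain ⟨m, hm⟩ : ∃ m, K = 2 * m := by
    refine ⟨K / 2, ?_⟩
    by_contra hne
    have h1 : 2 * (K / 2) + 1 = K := by omega
    have h2 := (hpar (K / 2)).2 (by omega)
    rw [h1] at h2
    refine hexcl K ?_ h2
    obtain ⟨x, hxa, hx⟩ := h.surA 0 (by omega)
    obtain ⟨y, hya, hy⟩ := h.surA K (by omega)
    have h3 := ok.labS x y (h.Sh_iff.2 ⟨hxa, hya, by rw [hx, hy, zero_add]⟩)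
      (by rwa [hFs x hxa, hx])
    rwa [hFs y hya, hy] at h3
  subst hN hm
  have hf : ∀ k, ∃ b : Fin ℓ, k < N → S (2 * k) = (b : ℕ) + 2 ∧ 2 * k + 1 < 2 * N ∧
      S (2 * k + 1) = 2 * ℓ + 2 - b := by
    intro k
    by_cases hk : k < N
    · obtain ⟨b, hb⟩ := (hpar k).1 (by omega)
      exact ⟨b, fun _ => hb⟩
    · obtain ⟨b, _⟩ := h0
      exact ⟨b, fun h' => absurd h' hk⟩
  choose f hf using hf
  have hL : ∀ k, k < N → ∀ x : M, a x → pos x = 2 * k → Lab (f k) x := by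
    intro k hk x hxa hx
    rw [hLab _ x hxa, hx]
    exact hf k hk
  refine ⟨N, m, f, ?_, rfl, rfl, ?_⟩
  · refine ⟨by omega, by omega, ?_, ?_, ?_, ?_, ?_, ?_, ?_, ?_⟩
    · intro k hk
      obtain ⟨x, hxa, hx⟩ := h.surA (2 * k) (by omega)
      exact ok.cell _ x (hL k hk x hxa hx)
    · obtain ⟨x, hxa, hx⟩ := h.surA (2 * 0) (by omega)
      refine ok.init _ x (hL 0 (by omega) x hxa hx) ?_
      rintro ⟨z, hz⟩
      rw [h.Lb_iff, hx] at hz
      omega
    · obtain ⟨x, hxa, hx⟩ := h.surA (2 * (N - 1)) (by omega)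
      refine ok.last _ x (hL (N - 1) (by omega) x hxa hx) ?_
      rintro ⟨z, hz⟩
      rw [h.Nx_iff, hx] at hz
      have := h.ltA z hz.2.1
      omega
    · intro k hk
      obtain ⟨x, hxa, hx⟩ := h.surA (2 * k) (by omega)
      refine ok.row0 _ x (hL k (by omega) x hxa hx) ?_
      rintro ⟨z, hz⟩
      rw [h.Sh_iff, hx] at hz
      omega
    · intro k hk hk2
      obtain ⟨x, hxa, hx⟩ := h.surA (2 * k) (by omega)
      refine ok.rowL _ x (hL k (by omega) x hxa hx) ?_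
      rintro ⟨z, hz⟩
      rw [h.Sh_iff, hx] at hz
      have := h.ltA z hz.2.1
      omega
    · intro k hk
      obtain ⟨x, hxa, hx⟩ := h.surA (2 * k) (by omega)
      obtain ⟨y, hya, hy⟩ := h.surA (2 * (k + 1)) (by omega)
      refine ok.hor _ _ x y (hL k (by omega) x hxa hx) (hL (k + 1) hk y hya hy) ?_
      exact h.Nx_iff.2 ⟨hxa, hya, by omega⟩
    · intro k hk
      obtain ⟨x, hxa, hx⟩ := h.surA (2 * k) (by omega)
      obtain ⟨y, hya, hy⟩ := h.surA (2 * (k + m)) (by omega)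
      refine ok.ver _ _ x y (hL k (by omega) x hxa hx) (hL (k + m) hk y hya hy) ?_
      exact h.Sh_iff.2 ⟨hxa, hya, by omega⟩
    · intro k hk
      obtain ⟨x, hxa, hx⟩ := h.surA (2 * k) (by omega)
      obtain ⟨y, hya, hy⟩ := h.surA (2 * (k + m)) (by omega)
      obtain ⟨z, hza, hz⟩ := h.surA (2 * (k + m + 1)) (by omega)
      refine ok.dia _ _ x y z (hL k (by omega) x hxa hx) (hL (k + m + 1) hk z hza hz) ?_ ?_
      · exact h.Sh_iff.2 ⟨hxa, hya, by omega⟩
      · exact h.Nx_iff.2 ⟨hya, hza, by omega⟩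
  · rw [WDecode_card (2 * N) a pos h.ltA]
    simp only [← hS]
    have key : ∀ n, n ≤ N → ∑ i ∈ Finset.range (2 * n), S i = (2 * ℓ + 4) * n := by
      intro n
      induction n with
      | zero => intro _; simp
      | succ n ih =>
        intro hn
        rw [show 2 * (n + 1) = 2 * n + 1 + 1 by ring, Finset.sum_range_succ,
          Finset.sum_range_succ, ih (by omega)]
        obtain ⟨h1, _, h2⟩ := hf n (by omega)
        have h3 := (f n).2
        rw [h1, h2, Nat.mul_succ]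
        omega
    exact key N le_rfl

end Pool.Agent.Lib.MP_586990_lc.W
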