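import Pool.Agent.Lib.MP_586990_lc_W.WRel

set_option autoImplicit false

/-!
# The coded partial order
-/

namespace Pool.Agent.Lib.MP_586990_lc.W

/-- The elements of the code. -/
abbrev Cd (ℓ N m : ℕ) : Type := (Fin N × Fin (2 * ℓ + 4)) ⊕ Fin (2 * N + 2 * m - 1)

/-- The number of the block, the number in the second chain. -/
def cPos {ℓ : ℕ} (N m : ℕ) (f : ℕ → Fin ℓ) : Cd ℓ N m → ℕ
  | Sum.inl x => 2 * (x.1 : ℕ) + if (x.2 : ℕ) < (f x.1 : ℕ) + 2 then 0 else 1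
  | Sum.inr j => j

/-- The first chain. -/
def cA {ℓ : ℕ} (N m : ℕ) : Cd ℓ N m → Prop
  | Sum.inl _ => True
  | Sum.inr _ => False

/-- The order. -/
def cLe {ℓ : ℕ} (N m : ℕ) (f : ℕ → Fin ℓ) : Cd ℓ N m → Cd ℓ N m → Prop
  | Sum.inl x, Sum.inl y => (x.1 : ℕ) < y.1 ∨ ((x.1 : ℕ) = y.1 ∧ (x.2 : ℕ) ≤ y.2)
  | Sum.inl x, Sum.inr j => cPos N m f (Sum.inl x) + 2 * m ≤ j
  | Sum.inr j, Sum.inl x => (j : ℕ) < cPos N m f (Sum.inl x)
  | Sum.inr i, Sum.inr j => (i : ℕ) ≤ j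

private theorem wenc_mono {ℓ : ℕ} (N m : ℕ) (f : ℕ → Fin ℓ) {x y : Fin N × Fin (2 * ℓ + 4)}
    (h : cLe (ℓ := ℓ) N m f (Sum.inl x) (Sum.inl y)) :
    cPos N m f (Sum.inl x) ≤ cPos N m f (Sum.inl y) := by
  have h1 : (x.1 : ℕ) < y.1 ∨ ((x.1 : ℕ) = y.1 ∧ (x.2 : ℕ) ≤ y.2) := h
  change 2 * (x.1 : ℕ) + (if (x.2 : ℕ) < (f x.1 : ℕ) + 2 then 0 else 1) ≤
    2 * (y.1 : ℕ) + (if (y.2 : ℕ) < (f y.1 : ℕ) + 2 then 0 else 1)
  rcases h1 with h1 | ⟨h1, h2⟩
  · split_ifs <;> omega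
  · rw [h1]
    split_ifs <;> omega

private theorem wenc_even {ℓ N m : ℕ} (f : ℕ → Fin ℓ) (y : Fin N × Fin (2 * ℓ + 4)) (k : ℕ) :
    cPos N m f (Sum.inl y) = 2 * k ↔ (y.1 : ℕ) = k ∧ (y.2 : ℕ) < (f k : ℕ) + 2 := by
  change 2 * (y.1 : ℕ) + (if (y.2 : ℕ) < (f y.1 : ℕ) + 2 then 0 else 1) = 2 * k ↔ _
  constructor
  · intro h
    split_ifs at h with h1
    · have h2 : (y.1 : ℕ) = k := by omega
      rw [h2] at h1
      exact ⟨h2, h1⟩
    · omega
  · rintro ⟨h1, h2⟩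
    rw [← h1] at h2 ⊢
    rw [if_pos h2, add_zero]

private theorem wenc_odd {ℓ N m : ℕ} (f : ℕ → Fin ℓ) (y : Fin N × Fin (2 * ℓ + 4)) (k : ℕ) :
    cPos N m f (Sum.inl y) = 2 * k + 1 ↔ (y.1 : ℕ) = k ∧ (f k : ℕ) + 2 ≤ (y.2 : ℕ) := by
  change 2 * (y.1 : ℕ) + (if (y.2 : ℕ) < (f y.1 : ℕ) + 2 then 0 else 1) = 2 * k + 1 ↔ _
  constructor
  · intro h
    split_ifs at h with h1
    · omega
    · have h2 : (y.1 : ℕ) = k := by omega
      rw [h2] at h1
      exact ⟨h2, not_lt.1 h1⟩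
  · rintro ⟨h1, h2⟩
    rw [← h1] at h2 ⊢
    rw [if_neg (not_lt.2 h2)]

/-- The code is a position model; the numbers of elements of the blocks. -/
theorem exists_code {ℓ : ℕ} (f : ℕ → Fin ℓ) {N m : ℕ} (hm : 0 < m) (hN : 2 * m ≤ N) :
    ∃ i : PartialOrder (Cd ℓ N m), (∀ x y, @LE.le _ i.toLE x y ↔ cLe N m f x y) ∧
      @PW (Cd ℓ N m) i (2 * N) (2 * m) (cA N m) (cPos N m f) := by
  have hrefl : ∀ x : Cd ℓ N m, cLe N m f x x := by
    rintro (x | j)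
    · exact Or.inr ⟨rfl, le_rfl⟩
    · exact le_rfl (a := (j : ℕ))
  have htrans : ∀ x y z : Cd ℓ N m, cLe N m f x y → cLe N m f y z → cLe N m f x z := by
    rintro (x | i) (y | j) (z | l) h1 h2
    · change (x.1 : ℕ) < y.1 ∨ ((x.1 : ℕ) = y.1 ∧ (x.2 : ℕ) ≤ y.2) at h1
      change (y.1 : ℕ) < z.1 ∨ ((y.1 : ℕ) = z.1 ∧ (y.2 : ℕ) ≤ z.2) at h2
      change (x.1 : ℕ) < z.1 ∨ ((x.1 : ℕ) = z.1 ∧ (x.2 : ℕ) ≤ z.2)
      omega
    · have h3 := wenc_mono N m f h1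
      change cPos N m f (Sum.inl y) + 2 * m ≤ (l : ℕ) at h2
      change cPos N m f (Sum.inl x) + 2 * m ≤ (l : ℕ)
      omega
    · change cPos N m f (Sum.inl x) + 2 * m ≤ (j : ℕ) at h1
      change (j : ℕ) < cPos N m f (Sum.inl z) at h2
      have h3 : cPos N m f (Sum.inl x) < cPos N m f (Sum.inl z) := by omega
      change (x.1 : ℕ) < z.1 ∨ ((x.1 : ℕ) = z.1 ∧ (x.2 : ℕ) ≤ z.2)
      by_contra hcon
      have h4 : cLe N m f (Sum.inl z) (Sum.inl x) := by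
        change (z.1 : ℕ) < x.1 ∨ ((z.1 : ℕ) = x.1 ∧ (z.2 : ℕ) ≤ x.2)
        omega
      have h5 := wenc_mono N m f h4
      omega
    · change cPos N m f (Sum.inl x) + 2 * m ≤ (j : ℕ) at h1
      change (j : ℕ) ≤ (l : ℕ) at h2
      change cPos N m f (Sum.inl x) + 2 * m ≤ (l : ℕ)
      omega
    · have h3 := wenc_mono N m f h2
      change (i : ℕ) < cPos N m f (Sum.inl y) at h1
      change (i : ℕ) < cPos N m f (Sum.inl z)
      omega
    · change (i : ℕ) < cPos N m f (Sum.inl y) at h1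
      change cPos N m f (Sum.inl y) + 2 * m ≤ (l : ℕ) at h2
      change (i : ℕ) ≤ (l : ℕ)
      omega
    · change (i : ℕ) ≤ (j : ℕ) at h1
      change (j : ℕ) < cPos N m f (Sum.inl z) at h2
      change (i : ℕ) < cPos N m f (Sum.inl z)
      omega
    · change (i : ℕ) ≤ (j : ℕ) at h1
      change (j : ℕ) ≤ (l : ℕ) at h2
      change (i : ℕ) ≤ (l : ℕ)
      omega
  have hanti : ∀ x y : Cd ℓ N m, cLe N m f x y → cLe N m f y x → x = y := by
    rintro (x | i) (y | j) h1 h2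
    · change (x.1 : ℕ) < y.1 ∨ ((x.1 : ℕ) = y.1 ∧ (x.2 : ℕ) ≤ y.2) at h1
      change (y.1 : ℕ) < x.1 ∨ ((y.1 : ℕ) = x.1 ∧ (y.2 : ℕ) ≤ x.2) at h2
      have h3 : x.1 = y.1 := Fin.ext (by omega)
      have h4 : x.2 = y.2 := Fin.ext (by omega)
      rw [Prod.ext h3 h4]
    · change cPos N m f (Sum.inl x) + 2 * m ≤ (j : ℕ) at h1
      change (j : ℕ) < cPos N m f (Sum.inl x) at h2
      omega
    · change cPos N m f (Sum.inl y) + 2 * m ≤ (i : ℕ) at h2
      change (i : ℕ) < cPos N m f (Sum.inl y) at h1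
      omega
    · change (i : ℕ) ≤ (j : ℕ) at h1
      change (j : ℕ) ≤ (i : ℕ) at h2
      rw [Fin.ext (le_antisymm h1 h2)]
  let io : PartialOrder (Cd ℓ N m) :=
    { le := cLe N m f
      lt := fun x y => cLe N m f x y ∧ ¬ cLe N m f y x
      lt_iff_le_not_ge := fun _ _ => Iff.rfl
      le_refl := hrefl
      le_trans := htrans
      le_antisymm := hanti }
  have hlt : ∀ x y : Cd ℓ N m, @LT.lt _ io.toLT x y ↔ cLe N m f x y ∧ ¬ cLe N m f y x :=
    fun _ _ => Iff.rfl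
  refine ⟨io, fun _ _ => Iff.rfl, @PW.mk _ io _ _ _ _ ?_ ?_ ?_ ?_ ?_ ?_ ?_ ?_ ?_ ?_ ?_
    (by omega) (by omega)⟩
  · rintro (x | j) hx
    · have h1 := x.1.2
      change 2 * (x.1 : ℕ) + (if (x.2 : ℕ) < (f x.1 : ℕ) + 2 then 0 else 1) < 2 * N
      split_ifs <;> omega
    · exact hx.elim
  · rintro (x | j) hx
    · exact absurd trivial hx
    · have h1 := j.2
      change (j : ℕ) + 1 < 2 * N + 2 * m
      omega
  · intro i hi
    rcases Nat.even_or_odd' i with ⟨k, rfl | rfl⟩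
    · refine ⟨Sum.inl (⟨k, by omega⟩, ⟨0, by omega⟩), trivial,
        (wenc_even f _ k).2 ⟨rfl, Nat.zero_lt_succ _⟩⟩
    · refine ⟨Sum.inl (⟨k, by omega⟩, ⟨2 * ℓ + 3, by omega⟩), trivial,
        (wenc_odd f _ k).2 ⟨rfl, ?_⟩⟩
      have h1 := (f k).2
      change (f k : ℕ) + 2 ≤ 2 * ℓ + 3
      omega
  · intro j hj
    exact ⟨Sum.inr ⟨j, by omega⟩, fun h => h, rfl⟩
  · rintro (x | i) (y | j) hx hy h
    · exact absurd trivial hx
    · exact absurd trivial hx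
    · exact absurd trivial hy
    · change (i : ℕ) = (j : ℕ) at h
      rw [Fin.ext h]
  · rintro (x | j) hx
    · rcases Nat.even_or_odd' (cPos N m f (Sum.inl x)) with ⟨k, hk | hk⟩
      · have hx2 := x.1.2
        have h1 := (wenc_even f x k).1 hk
        by_cases h0 : (x.2 : ℕ) = 0
        · refine ⟨Sum.inl (x.1, ⟨1, by omega⟩), ?_, trivial, ?_⟩
          · intro h
            have h2 := congrArg (fun q : Fin N × Fin (2 * ℓ + 4) => (q.2 : ℕ)) (Sum.inl.inj h)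
            change 1 = (x.2 : ℕ) at h2
            omega
          · rw [hk]
            exact (wenc_even f _ k).2 ⟨h1.1, by
              change 1 < (f k : ℕ) + 2
              omega⟩
        · refine ⟨Sum.inl (x.1, ⟨0, by omega⟩), ?_, trivial, ?_⟩
          · intro h
            have h2 := congrArg (fun q : Fin N × Fin (2 * ℓ + 4) => (q.2 : ℕ)) (Sum.inl.inj h)
            change 0 = (x.2 : ℕ) at h2
            omega
          · rw [hk]
            exact (wenc_even f _ k).2 ⟨h1.1, by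
              change 0 < (f k : ℕ) + 2
              omega⟩
      · have h1 := (wenc_odd f x k).1 hk
        have hf := (f k).2
        by_cases h0 : (x.2 : ℕ) = 2 * ℓ + 3
        · refine ⟨Sum.inl (x.1, ⟨2 * ℓ + 2, by omega⟩), ?_, trivial, ?_⟩
          · intro h
            have h2 := congrArg (fun q : Fin N × Fin (2 * ℓ + 4) => (q.2 : ℕ)) (Sum.inl.inj h)
            change 2 * ℓ + 2 = (x.2 : ℕ) at h2
            omega
          · rw [hk]
            exact (wenc_odd f _ k).2 ⟨h1.1, by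
              change (f k : ℕ) + 2 ≤ 2 * ℓ + 2
              omega⟩
        · refine ⟨Sum.inl (x.1, ⟨2 * ℓ + 3, by omega⟩), ?_, trivial, ?_⟩
          · intro h
            have h2 := congrArg (fun q : Fin N × Fin (2 * ℓ + 4) => (q.2 : ℕ)) (Sum.inl.inj h)
            change 2 * ℓ + 3 = (x.2 : ℕ) at h2
            omega
          · rw [hk]
            exact (wenc_odd f _ k).2 ⟨h1.1, by
              change (f k : ℕ) + 2 ≤ 2 * ℓ + 3
              omega⟩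
    · exact hx.elim
  · rintro (x | i) (y | j) hx hy
    · rw [hlt, hlt]
      change (((x.1 : ℕ) < y.1 ∨ ((x.1 : ℕ) = y.1 ∧ (x.2 : ℕ) ≤ y.2)) ∧
        ¬ ((y.1 : ℕ) < x.1 ∨ ((y.1 : ℕ) = x.1 ∧ (y.2 : ℕ) ≤ x.2))) ∨
        (((y.1 : ℕ) < x.1 ∨ ((y.1 : ℕ) = x.1 ∧ (y.2 : ℕ) ≤ x.2)) ∧
        ¬ ((x.1 : ℕ) < y.1 ∨ ((x.1 : ℕ) = y.1 ∧ (x.2 : ℕ) ≤ y.2))) ∨ _
      by_cases h : (x.1 : ℕ) = y.1 ∧ (x.2 : ℕ) = y.2
      · right; right
        rw [Prod.ext (Fin.ext h.1) (Fin.ext h.2)]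
      · omega
    · exact hy.elim
    · exact hx.elim
    · exact hx.elim
  · rintro (x | i) (y | j) hx hy h
    · rw [hlt]
      have h1 : ¬ cLe N m f (Sum.inl y) (Sum.inl x) := fun h2 => by
        have := wenc_mono N m f h2
        omega
      refine ⟨?_, h1⟩
      by_contra h2
      change ¬ ((y.1 : ℕ) < x.1 ∨ ((y.1 : ℕ) = x.1 ∧ (y.2 : ℕ) ≤ x.2)) at h1
      change ¬ ((x.1 : ℕ) < y.1 ∨ ((x.1 : ℕ) = y.1 ∧ (x.2 : ℕ) ≤ y.2)) at h2
      omega
    · exact hy.elim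
    · exact hx.elim
    · exact hx.elim
  · rintro (x | i) (y | j) hx hy
    · exact absurd trivial hx
    · exact absurd trivial hx
    · exact absurd trivial hy
    · rw [hlt]
      change ((i : ℕ) ≤ j ∧ ¬ (j : ℕ) ≤ i) ↔ (i : ℕ) < j
      omega
  · rintro (x | i) (y | j) hx hy
    · exact absurd trivial hy
    · rw [hlt]
      change (cPos N m f (Sum.inl x) + 2 * m ≤ (j : ℕ) ∧ ¬ (j : ℕ) < cPos N m f (Sum.inl x)) ↔
        cPos N m f (Sum.inl x) + 2 * m ≤ (j : ℕ)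
      omega
    · exact hx.elim
    · exact hx.elim
  · rintro (x | i) (y | j) hx hy
    · exact absurd trivial hx
    · exact absurd trivial hx
    · rw [hlt]
      change ((i : ℕ) < cPos N m f (Sum.inl y) ∧ ¬ cPos N m f (Sum.inl y) + 2 * m ≤ (i : ℕ)) ↔
        (i : ℕ) < cPos N m f (Sum.inl y)
      omega
    · exact hy.elim

theorem code_card0 {ℓ : ℕ} (f : ℕ → Fin ℓ) {N m k : ℕ} (hk : k < N) :
    Nat.card {y : Cd ℓ N m // cA N m y ∧ cPos N m f y = 2 * k} = (f k : ℕ) + 2 := by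
  have hf := (f k).2
  let g : Fin ((f k : ℕ) + 2) → {y : Cd ℓ N m // cA N m y ∧ cPos N m f y = 2 * k} := fun s =>
    ⟨Sum.inl (⟨k, hk⟩, ⟨(s : ℕ), by have := s.2; omega⟩), trivial,
      (wenc_even f _ k).2 ⟨rfl, s.2⟩⟩
  have hg : Function.Bijective g := by
    constructor
    · intro s t h
      have h1 := congrArg (fun q : Fin N × Fin (2 * ℓ + 4) => (q.2 : ℕ))
        (Sum.inl.inj (congrArg Subtype.val h))
      exact Fin.ext h1
    · rintro ⟨y | j, hA, h⟩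
      · have h1 := (wenc_even f y k).1 h
        refine ⟨⟨(y.2 : ℕ), h1.2⟩, ?_⟩
        apply Subtype.ext
        change Sum.inl _ = Sum.inl _
        congr 1
        exact Prod.ext (Fin.ext h1.1.symm) rfl
      · exact hA.elim
  rw [← Nat.card_congr (Equiv.ofBijective g hg), Nat.card_eq_fintype_card, Fintype.card_fin]

theorem code_card1 {ℓ : ℕ} (f : ℕ → Fin ℓ) {N m k : ℕ} (hk : k < N) :
    Nat.card {y : Cd ℓ N m // cA N m y ∧ cPos N m f y = 2 * k + 1} = 2 * ℓ + 2 - f k := by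
  have hf := (f k).2
  let g : Fin (2 * ℓ + 2 - (f k : ℕ)) →
      {y : Cd ℓ N m // cA N m y ∧ cPos N m f y = 2 * k + 1} := fun s =>
    ⟨Sum.inl (⟨k, hk⟩, ⟨(s : ℕ) + ((f k : ℕ) + 2), by have := s.2; omega⟩), trivial,
      (wenc_odd f _ k).2 ⟨rfl, by
        change (f k : ℕ) + 2 ≤ (s : ℕ) + ((f k : ℕ) + 2)
        omega⟩⟩
  have hg : Function.Bijective g := by
    constructor
    · intro s t h
      have h1 := congrArg (fun q : Fin N × Fin (2 * ℓ + 4) => (q.2 : ℕ))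
        (Sum.inl.inj (congrArg Subtype.val h))
      change (s : ℕ) + ((f k : ℕ) + 2) = (t : ℕ) + ((f k : ℕ) + 2) at h1
      exact Fin.ext (by omega)
    · rintro ⟨y | j, hA, h⟩
      · have h1 := (wenc_odd f y k).1 h
        have h2 := y.2.2
        refine ⟨⟨(y.2 : ℕ) - ((f k : ℕ) + 2), by omega⟩, ?_⟩
        apply Subtype.ext
        change Sum.inl _ = Sum.inl _
        congr 1
        refine Prod.ext (Fin.ext h1.1.symm) (Fin.ext ?_)
        change (y.2 : ℕ) - ((f k : ℕ) + 2) + ((f k : ℕ) + 2) = (y.2 : ℕ)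
        omega
      · exact hA.elim
  rw [← Nat.card_congr (Equiv.ofBijective g hg), Nat.card_eq_fintype_card, Fintype.card_fin]

theorem code_cardA {ℓ : ℕ} (N m : ℕ) :
    Nat.card {y : Cd ℓ N m // cA N m y} = (2 * ℓ + 4) * N := by
  let g : Fin N × Fin (2 * ℓ + 4) → {y : Cd ℓ N m // cA N m y} := fun s => ⟨Sum.inl s, trivial⟩
  have hg : Function.Bijective g := by
    constructor
    · intro s t h
      exact Sum.inl.inj (congrArg Subtype.val h)
    · rintro ⟨y | j, hA⟩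
      · exact ⟨y, rfl⟩
      · exact hA.elim
  rw [← Nat.card_congr (Equiv.ofBijective g hg), Nat.card_eq_fintype_card, Fintype.card_prod,
    Fintype.card_fin, Fintype.card_fin, mul_comm]

end Pool.Agent.Lib.MP_586990_lc.W
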