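import Pool.Agent.Lib.MP_586990_lc_W.WMod

set_option autoImplicit false

/-!
# A position model with the right sizes of the blocks satisfies the conditions
-/

namespace Pool.Agent.Lib.MP_586990_lc.W

private theorem wok_card {M : Type} [PartialOrder M] {a : M → Prop} {pos : M → ℕ} {x : M}
    (hx : a x) : Nat.card {y : M // (a x ↔ a y) ∧ pos x = pos y} =
      Nat.card {y : M // a y ∧ pos y = pos x} := by
  refine Nat.card_congr (Equiv.subtypeEquivRight fun y => ?_)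
  constructor
  · rintro ⟨h1, h2⟩
    exact ⟨h1.1 hx, h2.symm⟩
  · rintro ⟨h1, h2⟩
    exact ⟨⟨fun _ => h1, fun _ => hx⟩, h2.symm⟩

private theorem wok_Lab {M : Type} [PartialOrder M] [Finite M] {N K ℓ : ℕ} {a : M → Prop}
    {pos : M → ℕ} (h : PW M (2 * N) K a pos) (f : ℕ → Fin ℓ)
    (h0 : ∀ k, k < N → Nat.card {y : M // a y ∧ pos y = 2 * k} = (f k : ℕ) + 2)
    (h1 : ∀ k, k < N → Nat.card {y : M // a y ∧ pos y = 2 * k + 1} = 2 * ℓ + 2 - f k)
    {b : Fin ℓ} {x : M} : Lab b x ↔ a x ∧ ∃ k, pos x = 2 * k ∧ f k = b := by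
  constructor
  · rintro ⟨hB, hs, -⟩
    have hx := h.Bl_iff.1 hB
    have h2 := (h.Sz_iff).1 hs
    rw [wok_card hx] at h2
    have h3 := h.ltA x hx
    have hb := b.2
    rcases Nat.even_or_odd' (pos x) with ⟨k, hk | hk⟩
    · refine ⟨hx, k, hk, Fin.ext ?_⟩
      have hkN : k < N := by omega
      rw [hk, h0 k hkN] at h2
      omega
    · exfalso
      have hkN : k < N := by omega
      have hf := (f k).2
      rw [hk, h1 k hkN] at h2
      omega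
  · rintro ⟨hx, k, hk, rfl⟩
    have h3 := h.ltA x hx
    have hkN : k < N := by omega
    obtain ⟨y, hy, hy'⟩ := h.surA (2 * k + 1) (by omega)
    refine ⟨h.Bl_iff.2 hx, (h.Sz_iff).2 ?_, y, (h.Su_iff).2 ⟨hx, hy, by omega⟩,
      (h.Sz_iff).2 ?_⟩
    · rw [wok_card hx, hk, h0 k hkN]
    · rw [wok_card hy, hy', h1 k hkN]

private theorem wok_Sn {M : Type} [PartialOrder M] [Finite M] {N K ℓ : ℕ} {a : M → Prop}
    {pos : M → ℕ} (h : PW M (2 * N) K a pos) (f : ℕ → Fin ℓ)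
    (h0 : ∀ k, k < N → Nat.card {y : M // a y ∧ pos y = 2 * k} = (f k : ℕ) + 2)
    (h1 : ∀ k, k < N → Nat.card {y : M // a y ∧ pos y = 2 * k + 1} = 2 * ℓ + 2 - f k)
    {x : M} : Sn ℓ x ↔ a x ∧ ∃ k, pos x = 2 * k + 1 := by
  constructor
  · rintro ⟨hB, b, hs⟩
    have hx := h.Bl_iff.1 hB
    have h2 := (h.Sz_iff).1 hs
    rw [wok_card hx] at h2
    have h3 := h.ltA x hx
    have hb := b.2
    rcases Nat.even_or_odd' (pos x) with ⟨k, hk | hk⟩
    · exfalso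
      have hkN : k < N := by omega
      have hf := (f k).2
      rw [hk, h0 k hkN] at h2
      omega
    · exact ⟨hx, k, hk⟩
  · rintro ⟨hx, k, hk⟩
    have h3 := h.ltA x hx
    exact ⟨h.Bl_iff.2 hx, f k, (h.Sz_iff).2 (by rw [wok_card hx, hk, h1 k (by omega)])⟩

theorem PW.ok {M : Type} [PartialOrder M] [Finite M] {N m : ℕ} {a : M → Prop} {pos : M → ℕ}
    (h : PW M (2 * N) (2 * m) a pos) {ℓ : ℕ} {T : TileSys (Fin ℓ)} {f : ℕ → Fin ℓ}
    (hS : T.Sat N m f)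
    (h0 : ∀ k, k < N → Nat.card {y : M // a y ∧ pos y = 2 * k} = (f k : ℕ) + 2)
    (h1 : ∀ k, k < N → Nat.card {y : M // a y ∧ pos y = 2 * k + 1} = 2 * ℓ + 2 - f k) :
    Ok T M := by
  have hpos := hS.pos
  have hle := hS.le
  have hL : ∀ (b : Fin ℓ) (x : M), Lab b x ↔ a x ∧ ∃ k, pos x = 2 * k ∧ f k = b :=
    fun b x => wok_Lab h f h0 h1
  have hN : ∀ x : M, Sn ℓ x ↔ a x ∧ ∃ k, pos x = 2 * k + 1 := fun x => wok_Sn h f h0 h1
  have hF : ∀ x : M, Fs ℓ x ↔ a x ∧ ∃ k, pos x = 2 * k := by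
    intro x
    constructor
    · rintro ⟨b, hb⟩
      obtain ⟨hx, k, hk, -⟩ := (hL b x).1 hb
      exact ⟨hx, k, hk⟩
    · rintro ⟨hx, k, hk⟩
      exact ⟨f k, (hL _ x).2 ⟨hx, k, hk, rfl⟩⟩
  have hmin : ∀ x : M, a x → (¬ ∃ z, Lb z x) → pos x = 0 := by
    intro x hx hz
    by_contra hne
    obtain ⟨z, hz1, hz2⟩ := h.surA 0 (by omega)
    exact hz ⟨z, (h.Lb_iff).2 ⟨hz1, hx, by omega⟩⟩
  have hmax : ∀ x : M, a x → (¬ ∃ z, Lb x z) → pos x + 1 = 2 * N := by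
    intro x hx hz
    have h2 := h.ltA x hx
    by_contra hne
    obtain ⟨z, hz1, hz2⟩ := h.surA (pos x + 1) (by omega)
    exact hz ⟨z, (h.Lb_iff).2 ⟨hx, hz1, by omega⟩⟩
  refine
    { ne := ?_
      chA := fun x y hx hy => h.AA x y (h.Bl_iff.1 hx) (h.Bl_iff.1 hy)
      chB := ?_
      inc := h.inc
      lo0 := ?_
      lo1 := ?_
      up0 := ?_
      up1 := ?_
      two := ?_
      lab := ?_
      lab0 := ?_
      lab1 := ?_
      labS := ?_
      cell := ?_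
      init := ?_
      last := ?_
      row0 := ?_
      rowL := ?_
      hor := ?_
      ver := ?_
      dia := ?_ }
  · obtain ⟨z, hz, -⟩ := h.surA 0 (by omega)
    exact ⟨z, h.Bl_iff.2 hz⟩
  · intro x y hx hy
    rw [h.Sg_iff] at hx hy
    rw [h.BB x y hx hy, h.BB y x hy hx]
    rcases lt_trichotomy (pos x) (pos y) with h2 | h2 | h2
    · exact Or.inl h2
    · exact Or.inr (Or.inr (h.injB x y hx hy h2))
    · exact Or.inr (Or.inl h2)
  · rintro x hx hz ⟨b, hb, hbx⟩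
    rw [h.Bl_iff] at hx
    rw [h.Sg_iff] at hb
    have h2 := hmin x hx hz
    rw [h.BA b x hb hx] at hbx
    omega
  · intro x y hxy
    obtain ⟨hx, hy, h2⟩ := h.Su_iff.1 hxy
    have h3 := h.ltA y hy
    obtain ⟨b, hb, hb'⟩ := h.surB (pos x) (by omega)
    refine ⟨b, fun c => ⟨?_, ?_⟩⟩
    · rintro ⟨hc, hcy, hcx⟩
      rw [h.Sg_iff] at hc
      rw [h.BA c y hc hy] at hcy
      rw [h.BA c x hc hx] at hcx
      exact h.injB c b hc hb (by omega)
    · rintro rfl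
      rw [h.BA c y hb hy, h.BA c x hb hx, h.Sg_iff]
      exact ⟨hb, by omega, by omega⟩
  · rintro x hx hz ⟨b, hb, hbx⟩
    rw [h.Bl_iff] at hx
    rw [h.Sg_iff] at hb
    have h2 := hmax x hx hz
    have h3 := h.ltB b hb
    rw [h.AB x b hx hb] at hbx
    omega
  · intro x y hxy
    obtain ⟨hx, hy, h2⟩ := h.Su_iff.1 hxy
    have h3 := h.ltA y hy
    obtain ⟨b, hb, hb'⟩ := h.surB (pos x + 2 * m) (by omega)
    refine ⟨b, fun c => ⟨?_, ?_⟩⟩
    · rintro ⟨hc, hcx, hcy⟩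
      rw [h.Sg_iff] at hc
      rw [h.AB y c hy hc] at hcy
      rw [h.AB x c hx hc] at hcx
      exact h.injB c b hc hb (by omega)
    · rintro rfl
      rw [h.AB y c hy hb, h.AB x c hx hb, h.Sg_iff]
      exact ⟨hb, by omega, by omega⟩
  · intro x hx
    rw [h.Bl_iff] at hx
    have h3 := h.ltA x hx
    by_cases hc : 2 * m ≤ pos x
    · obtain ⟨z, hz, hz'⟩ := h.surA (pos x - 2 * m) (by omega)
      exact Or.inl ⟨z, h.Sh_iff.2 ⟨hz, hx, by omega⟩⟩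
    · obtain ⟨z, hz, hz'⟩ := h.surA (pos x + 2 * m) (by omega)
      exact Or.inr ⟨z, h.Sh_iff.2 ⟨hx, hz, by omega⟩⟩
  · intro x hx
    rw [h.Bl_iff] at hx
    rcases Nat.even_or_odd' (pos x) with ⟨k, hk | hk⟩
    · exact Or.inl ((hF x).2 ⟨hx, k, hk⟩)
    · exact Or.inr ((hN x).2 ⟨hx, k, hk⟩)
  · intro x hx hz
    rw [h.Bl_iff] at hx
    exact (hF x).2 ⟨hx, 0, by rw [hmin x hx hz]⟩
  · intro x y hxy hx
    obtain ⟨_, k, hk⟩ := (hN x).1 hx
    obtain ⟨_, hy, h2⟩ := h.Su_iff.1 hxy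
    exact (hF y).2 ⟨hy, k + 1, by omega⟩
  · intro x y hxy hx
    obtain ⟨_, k, hk⟩ := (hF x).1 hx
    obtain ⟨_, hy, h2⟩ := h.Sh_iff.1 hxy
    exact (hF y).2 ⟨hy, k + m, by omega⟩
  · intro b x hx
    obtain ⟨hx', k, hk, rfl⟩ := (hL b x).1 hx
    have h3 := h.ltA x hx'
    exact hS.cell k (by omega)
  · intro b x hx hx0
    obtain ⟨hx', k, hk, rfl⟩ := (hL b x).1 hx
    have h3 := hmin x hx' hx0
    obtain rfl : k = 0 := by omega
    exact hS.init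
  · intro b x hx hx0
    obtain ⟨hx', k, hk, rfl⟩ := (hL b x).1 hx
    have h3 := h.ltA x hx'
    have h4 : ¬ 2 * k + 2 < 2 * N := by
      intro hlt
      obtain ⟨z, hz, hz'⟩ := h.surA (2 * k + 2) hlt
      exact hx0 ⟨z, (h.Nx_iff).2 ⟨hx', hz, by omega⟩⟩
    obtain rfl : k = N - 1 := by omega
    exact hS.last
  · intro b x hx hx0
    obtain ⟨hx', k, hk, rfl⟩ := (hL b x).1 hx
    have h3 := h.ltA x hx'
    refine hS.row0 k ?_
    by_contra hkm
    obtain ⟨z, hz, hz'⟩ := h.surA (2 * k - 2 * m) (by omega)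
    exact hx0 ⟨z, h.Sh_iff.2 ⟨hz, hx', by omega⟩⟩
  · intro b x hx hx0
    obtain ⟨hx', k, hk, rfl⟩ := (hL b x).1 hx
    have h3 := h.ltA x hx'
    refine hS.rowL k (by omega) ?_
    by_contra hkm
    obtain ⟨z, hz, hz'⟩ := h.surA (2 * k + 2 * m) (by omega)
    exact hx0 ⟨z, h.Sh_iff.2 ⟨hx', hz, by omega⟩⟩
  · intro b c x y hx hy hxy
    obtain ⟨_, k, hk, rfl⟩ := (hL b x).1 hx
    obtain ⟨hy', k', hk', rfl⟩ := (hL c y).1 hy
    obtain ⟨_, _, h2⟩ := (h.Nx_iff).1 hxy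
    have h3 := h.ltA y hy'
    obtain rfl : k' = k + 1 := by omega
    exact hS.hor k (by omega)
  · intro b c x y hx hy hxy
    obtain ⟨_, k, hk, rfl⟩ := (hL b x).1 hx
    obtain ⟨hy', k', hk', rfl⟩ := (hL c y).1 hy
    obtain ⟨_, _, h2⟩ := (h.Sh_iff).1 hxy
    have h3 := h.ltA y hy'
    obtain rfl : k' = k + m := by omega
    exact hS.ver k (by omega)
  · intro b c x y z hx hz hxy hyz
    obtain ⟨_, k, hk, rfl⟩ := (hL b x).1 hx
    obtain ⟨hz', k', hk', rfl⟩ := (hL c z).1 hz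
    obtain ⟨_, _, h2⟩ := (h.Sh_iff).1 hxy
    obtain ⟨_, _, h4⟩ := (h.Nx_iff).1 hyz
    have h3 := h.ltA z hz'
    obtain rfl : k' = k + m + 1 := by omega
    exact hS.dia k (by omega)

end Pool.Agent.Lib.MP_586990_lc.W
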