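import Pool.Agent.Lib.MP_586990_lc_W.WRel

set_option autoImplicit false

/-!
# The elements of the second chain below a block
-/

namespace Pool.Agent.Lib.MP_586990_lc.W

/-- The lower part: the elements of the second chain below a block. -/
theorem pos_low {M : Type} [PartialOrder M] {P R : ℕ} {pos : M → ℕ}
    (hA : ∀ x, Bl x → pos x < P) (hA' : ∀ i, i < P → ∃ x, Bl x ∧ pos x = i)
    (hAlt : ∀ x y, Bl x → Bl y → (Lb x y ↔ pos x < pos y))
    (hB : ∀ x, Sg x → pos x < R) (hB' : ∀ i, i < R → ∃ x, Sg x ∧ pos x = i)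
    (hBlt : ∀ x y, Sg x → Sg y → (x < y ↔ pos x < pos y))
    (hBinj : ∀ x y, Sg x → Sg y → pos x = pos y → x = y)
    (lo0 : ∀ x : M, Bl x → (¬ ∃ z, Lb z x) → ¬ ∃ b, Sg b ∧ b < x)
    (lo1 : ∀ x y : M, Su x y → ∃ b, ∀ c, (Sg c ∧ c < y ∧ ¬ c < x) ↔ c = b) :
    ∀ b x : M, Sg b → Bl x → (b < x ↔ pos b < pos x) := by
  have key : ∀ i : ℕ, ∀ x : M, Bl x → pos x = i → ∀ b : M, Sg b → (b < x ↔ pos b < i) := by
    intro i
    induction i with
    | zero =>
      intro x hx hi b hb
      have h1 : ¬ ∃ z, Lb z x := by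
        rintro ⟨z, hz⟩
        have h2 := (hAlt z x hz.1 hx).1 hz
        omega
      have h3 := lo0 x hx h1
      constructor
      · intro h4
        exact absurd ⟨b, hb, h4⟩ h3
      · intro h4
        omega
    | succ i ih =>
      intro x hx hi b hb
      obtain ⟨x', hx', hi'⟩ := hA' i (by have := hA x hx; omega)
      have hlb : Lb x' x := (hAlt x' x hx' hx).2 (by omega)
      have hsu : Su x' x := by
        refine ⟨hlb, ?_⟩
        rintro ⟨z, h1, h2⟩
        have h3 := (hAlt x' z hx' h1.2.1).1 h1
        have h4 := (hAlt z x h1.2.1 hx).1 h2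
        omega
      obtain ⟨b0, hb0⟩ := lo1 x' x hsu
      obtain ⟨h1, h2, h3⟩ := (hb0 b0).2 rfl
      have hx'x : x' < x := hlb.2.2.1
      have hge : i ≤ pos b0 := by
        by_contra hlt
        exact h3 ((ih x' hx' hi' b0 h1).2 (by omega))
      have hpos : pos b0 = i := by
        by_contra hne
        have h4 := hB b0 h1
        obtain ⟨c, hc, hci⟩ := hB' i (by omega)
        have h5 : c < b0 := (hBlt c b0 hc h1).2 (by omega)
        have h6 : ¬ c < x' := by
          intro h7
          have := (ih x' hx' hi' c hc).1 h7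
          omega
        have h8 := (hb0 c).1 ⟨hc, h5.trans h2, h6⟩
        rw [h8] at hci
        omega
      constructor
      · intro h4
        by_cases h5 : b < x'
        · have := (ih x' hx' hi' b hb).1 h5
          omega
        · have h6 := (hb0 b).1 ⟨hb, h4, h5⟩
          rw [h6, hpos]
          omega
      · intro h4
        by_cases h5 : pos b < i
        · exact ((ih x' hx' hi' b hb).2 h5).trans hx'x
        · have h6 : b = b0 := hBinj b b0 hb h1 (by omega)
          rw [h6]
          exact h2
  intro b x hb hx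
  exact key (pos x) x hx rfl b hb

end Pool.Agent.Lib.MP_586990_lc.W
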