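import Pool.Agent.Lib.MP_586990_lc_W.WRel

set_option autoImplicit false

/-!
# The elements of the second chain above a block
-/

namespace Pool.Agent.Lib.MP_586990_lc.W

/-- The upper part: the elements of the second chain above a block. -/
theorem pos_up {M : Type} [PartialOrder M] {P R : ℕ} {pos : M → ℕ}
    (hA : ∀ x, Bl x → pos x < P) (hA' : ∀ i, i < P → ∃ x, Bl x ∧ pos x = i)
    (hAlt : ∀ x y, Bl x → Bl y → (Lb x y ↔ pos x < pos y))
    (hB : ∀ x, Sg x → pos x < R) (hB' : ∀ i, i < R → ∃ x, Sg x ∧ pos x = i)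
    (hBlt : ∀ x y, Sg x → Sg y → (x < y ↔ pos x < pos y))
    (hBinj : ∀ x y, Sg x → Sg y → pos x = pos y → x = y)
    (up0 : ∀ x : M, Bl x → (¬ ∃ z, Lb x z) → ¬ ∃ b, Sg b ∧ x < b)
    (up1 : ∀ x y : M, Su x y → ∃ b, ∀ c, (Sg c ∧ x < c ∧ ¬ y < c) ↔ c = b) :
    ∀ x b : M, Bl x → Sg b → (x < b ↔ pos x + R + 1 ≤ pos b + P) := by
  have key : ∀ k : ℕ, ∀ x : M, Bl x → pos x + k + 1 = P → ∀ b : M, Sg b →
      (x < b ↔ pos x + R + 1 ≤ pos b + P) := by
    intro k
    induction k with
    | zero =>
      intro x hx hi b hb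
      have h1 : ¬ ∃ z, Lb x z := by
        rintro ⟨z, hz⟩
        have h2 := (hAlt x z hx hz.2.1).1 hz
        have h3 := hA z hz.2.1
        omega
      have h3 := up0 x hx h1
      have h5 := hB b hb
      constructor
      · intro h4
        exact absurd ⟨b, hb, h4⟩ h3
      · intro h4
        omega
    | succ k ih =>
      intro x hx hi b hb
      obtain ⟨y, hy, hyi⟩ := hA' (pos x + 1) (by omega)
      have hlb : Lb x y := (hAlt x y hx hy).2 (by omega)
      have hsu : Su x y := by
        refine ⟨hlb, ?_⟩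
        rintro ⟨z, h1, h2⟩
        have h3 := (hAlt x z hx h1.2.1).1 h1
        have h4 := (hAlt z y h1.2.1 hy).1 h2
        omega
      have hyc := ih y hy (by omega)
      obtain ⟨b0, hb0⟩ := up1 x y hsu
      obtain ⟨h1, h2, h3⟩ := (hb0 b0).2 rfl
      have hxy : x < y := hlb.2.2.1
      have hle : pos b0 + P ≤ pos x + R + 1 := by
        by_contra hlt
        exact h3 ((hyc b0 h1).2 (by omega))
      have hpos : pos b0 + P = pos x + R + 1 := by
        by_contra hne
        obtain ⟨c, hc, hci⟩ := hB' (pos b0 + 1) (by omega)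
        have h5 : b0 < c := (hBlt b0 c h1 hc).2 (by omega)
        have h6 : ¬ y < c := by
          intro h7
          have := (hyc c hc).1 h7
          omega
        have h8 := (hb0 c).1 ⟨hc, h2.trans h5, h6⟩
        rw [h8] at hci
        omega
      constructor
      · intro h4
        by_cases h5 : y < b
        · have := (hyc b hb).1 h5
          omega
        · have h6 := (hb0 b).1 ⟨hb, h4, h5⟩
          rw [h6]
          omega
      · intro h4
        by_cases h5 : pos y + R + 1 ≤ pos b + P
        · exact hxy.trans ((hyc b hb).2 h5)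
        · have h6 : b = b0 := hBinj b b0 hb h1 (by omega)
          rw [h6]
          exact h2
  intro x b hx hb
  have h1 := hA x hx
  exact key (P - 1 - pos x) x hx (by omega) b hb

end Pool.Agent.Lib.MP_586990_lc.W
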