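import Pool.Agent.Lib.MP_586990_lc_W.WPos
import Pool.Agent.Lib.MP_586990_lc_W.WLow
import Pool.Agent.Lib.MP_586990_lc_W.WUp

set_option autoImplicit false

/-!
# The position model of a partial order which satisfies the conditions
-/

namespace Pool.Agent.Lib.MP_586990_lc.W

theorem exists_PW {ℓ : ℕ} {T : TileSys (Fin ℓ)} {M : Type} [PartialOrder M] [Finite M]
    (ok : Ok T M) : ∃ (P K : ℕ) (pos : M → ℕ), PW M P K Bl pos := by
  obtain ⟨P, R, pos, P0, hA, hA', hAlt, hB, hB', hBlt, hBinj⟩ := exists_pos ok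
  have low := pos_low hA hA' hAlt hB hB' hBlt hBinj ok.lo0 ok.lo1
  have up := pos_up hA hA' hAlt hB hB' hBlt hBinj ok.up0 ok.up1
  have sg : ∀ x : M, ¬ Bl x → Sg x := fun x hx => not_not.1 hx
  have hPR : P ≤ R := by
    obtain ⟨x, hx, hxp⟩ := hA' (P - 1) (by omega)
    obtain ⟨y, hy⟩ := ok.inc x
    rcases inc_side ok.chA ok.chB hy with ⟨_, h2⟩ | ⟨h1, _⟩
    · have h3 := hy.2.1
      rw [low y x h2 hx] at h3
      have h4 := hB y h2
      omega
    · exact absurd h1 hx
  obtain ⟨K, hK⟩ : ∃ K, P + K = R + 1 := ⟨R + 1 - P, by omega⟩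
  have hAB : ∀ x y, Bl x → Sg y → (x < y ↔ pos x + K ≤ pos y) := by
    intro x y hx hy
    rw [up x y hx hy]
    omega
  have hSh : ∀ x y, Sh x y → pos y = pos x + K := by
    rintro x y ⟨hx, hy, h⟩
    have key : ∀ j, j < R → (pos x + K ≤ j ↔ pos y ≤ j) := by
      intro j hj
      obtain ⟨b, hb, hbj⟩ := hB' j hj
      have h1 := h b hb
      rw [hAB x b hx hb, low b y hb hy, hbj, not_lt] at h1
      exact h1
    have h1 := hA y hy
    have h2 := (key (pos y) (by omega)).2 le_rfl
    by_contra hne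
    have h3 := (key (pos x + K) (by omega)).1 le_rfl
    omega
  refine ⟨P, K, pos, ?_⟩
  refine
    { ltA := hA
      ltB := fun x hx => by
        have := hB x (sg x hx)
        omega
      surA := hA'
      surB := fun j hj => by
        obtain ⟨x, hx, hxj⟩ := hB' j (by omega)
        exact ⟨x, fun h => h hx, hxj⟩
      injB := fun x y hx hy => hBinj x y (sg x hx) (sg y hy)
      more := fun x hx => by
        have h1 : ∃ y, Tw x y ∧ y ≠ x := by
          by_contra hc
          apply hx
          intro y hy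
          by_contra hne
          exact hc ⟨y, hy, hne⟩
        obtain ⟨y, hy, hne⟩ := h1
        have hyx : Tw y x := fun z => (hy z).symm
        have hBy : Bl y := fun hs => hne (hs x hyx).symm
        refine ⟨y, hne, hBy, ?_⟩
        have h2 : ¬ pos x < pos y := fun h => ((hAlt x y hx hBy).2 h).2.2.2 hy
        have h3 : ¬ pos y < pos x := fun h => ((hAlt y x hBy hx).2 h).2.2.2 hyx
        omega
      AA := ok.chA
      AAlt := fun x y hx hy h => ((hAlt x y hx hy).2 h).2.2.1
      BB := fun x y hx hy => hBlt x y (sg x hx) (sg y hy)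
      AB := fun x y hx hy => hAB x y hx (sg y hy)
      BA := fun x y hx hy => low x y (sg x hx) hy
      K0 := by omega
      KP := ?_ }
  by_cases hKP : K - 1 < P
  · obtain ⟨x, hx, hxp⟩ := hA' (K - 1) hKP
    rcases ok.two x hx with ⟨z, hz⟩ | ⟨z, hz⟩
    · have h1 := hSh z x hz
      omega
    · have h1 := hSh x z hz
      have h2 := hA z hz.2.1
      omega
  · obtain ⟨x, hx, hxp⟩ := hA' 0 P0
    rcases ok.two x hx with ⟨z, hz⟩ | ⟨z, hz⟩
    · have h1 := hSh z x hz
      omega
    · have h1 := hSh x z hz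
      have h2 := hA z hz.2.1
      omega

end Pool.Agent.Lib.MP_586990_lc.W
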