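import Pool.Agent.Lib.MP_586990_lc_W.WDef
import Pool.Agent.Lib.MP_586990_lc_W.WOk
import Pool.Agent.Lib.MP_586990_lc_W.WDecode
import Pool.Agent.Lib.MP_586990_lc_W.WPW
import Pool.Agent.Lib.MP_586990_lc_W.WEnc

set_option autoImplicit false

/-!
# The coding theorem for partial orders of width two
-/

namespace Pool.Agent.Lib.MP_586990_lc.W

/-- `M` is a position model for `N`, `m` with `c * N` elements in the first chain. -/
def Md (c N m : ℕ) (M : Type) (i : PartialOrder M) : Prop :=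
  ∃ (a : M → Prop) (pos : M → ℕ), @PW M i (2 * N) (2 * m) a pos ∧
    Nat.card {x : M // a x} = c * N

theorem code_fin {ℓ : ℕ} (T : TileSys (Fin ℓ)) :
    ∃ ψ : FirstOrder.Language.order.Sentence,
      (∀ (M : Type) (i : PartialOrder M) (_ : Finite M), @Tr M i ψ →
        ∃ (N m : ℕ) (f : ℕ → Fin ℓ), T.Sat N m f ∧ Md (2 * ℓ + 4) N m M i) ∧
      ∀ (N m : ℕ) (f : ℕ → Fin ℓ), T.Sat N m f →
        ∃ (M : Type) (i : PartialOrder M) (_ : Finite M), Md (2 * ℓ + 4) N m M i ∧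
          @Tr M i ψ := by
  obtain ⟨ψ, hψ⟩ := exists_okSentence T
  refine ⟨ψ, ?_, ?_⟩
  · intro M i hfin hT
    have ok : Ok T M := (hψ M i).1 hT
    obtain ⟨P, K, pos, hp⟩ := exists_PW ok
    obtain ⟨N, m, f, hS, rfl, rfl, hc⟩ := hp.decode ok
    exact ⟨N, m, f, hS, Bl, pos, hp, hc⟩
  · intro N m f hS
    obtain ⟨i, -, hp⟩ := exists_code f hS.pos hS.le
    refine ⟨Cd ℓ N m, i, inferInstance, ⟨cA N m, cPos N m f, hp, code_cardA N m⟩, ?_⟩
    exact (hψ _ i).2 (@PW.ok _ i _ _ _ _ _ hp _ _ _ hS (fun k hk => code_card0 f hk)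
      fun k hk => code_card1 f hk)

/-- Transport of a tile system along a map of the labels. -/
private def WCode_tr {Λ Λ' : Type} (T : TileSys Λ) (g : Λ' → Λ) : TileSys Λ' where
  cell a := T.cell (g a)
  init a := T.init (g a)
  last a := T.last (g a)
  row0 a := T.row0 (g a)
  rowL a := T.rowL (g a)
  hor a b := T.hor (g a) (g b)
  ver a b := T.ver (g a) (g b)
  dia a b := T.dia (g a) (g b)

private theorem WCode_sat {Λ Λ' : Type} {T : TileSys Λ} {g : Λ' → Λ} {N m : ℕ} {f : ℕ → Λ'} :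
    (WCode_tr T g).Sat N m f ↔ T.Sat N m fun k => g (f k) :=
  ⟨fun h => ⟨h.pos, h.le, h.cell, h.init, h.last, h.row0, h.rowL, h.hor, h.ver, h.dia⟩,
    fun h => ⟨h.pos, h.le, h.cell, h.init, h.last, h.row0, h.rowL, h.hor, h.ver, h.dia⟩⟩

/-- The coding theorem. -/
theorem code {Λ : Type} [Finite Λ] (T : TileSys Λ) :
    ∃ (c : ℕ) (ψ : FirstOrder.Language.order.Sentence), 4 ≤ c ∧
      (∀ (M : Type) (i : PartialOrder M) (_ : Finite M), @Tr M i ψ →
        ∃ (N m : ℕ) (f : ℕ → Λ), T.Sat N m f ∧ Md c N m M i) ∧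
      ∀ (N m : ℕ) (f : ℕ → Λ), T.Sat N m f →
        ∃ (M : Type) (i : PartialOrder M) (_ : Finite M), Md c N m M i ∧ @Tr M i ψ := by
  have e : Λ ≃ Fin (Nat.card Λ) := Finite.equivFin Λ
  obtain ⟨ψ, h1, h2⟩ := code_fin (WCode_tr T e.symm)
  refine ⟨2 * Nat.card Λ + 4, ψ, by omega, ?_, ?_⟩
  · intro M i hfin hT
    obtain ⟨N, m, f, h4, h5⟩ := h1 M i hfin hT
    exact ⟨N, m, fun k => e.symm (f k), WCode_sat.1 h4, h5⟩
  · intro N m f hS
    refine h2 N m (fun k => e (f k)) (WCode_sat.2 ?_)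
    have h6 : (fun k => e.symm (e (f k))) = f := funext fun k => e.symm_apply_apply _
    rw [h6]
    exact hS

end Pool.Agent.Lib.MP_586990_lc.W
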