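import Pool.Agent.Lib.MP_586990_lc.Cal
import Pool.Agent.Lib.MP_586990_lc_W.WRel

set_option autoImplicit false

/-!
# The conditions on the code are expressed by a sentence
-/

namespace Pool.Agent.Lib.MP_586990_lc.W

namespace WDef

theorem inc {k : ℕ} (x y : Fin k) : UD k fun M _ v => Inc (v x) (v y) := by
  unfold Inc
  exact UD.and (UD.not (UD.lt _ _)) (UD.and (UD.not (UD.lt _ _)) (UD.not (UD.eq _ _)))

theorem tw {k : ℕ} (x y : Fin k) : UD k fun M _ v => Tw (v x) (v y) := by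
  unfold Tw
  exact UD.all (UD.iff (inc _ _) (inc _ _))

theorem sg {k : ℕ} (x : Fin k) : UD k fun M _ v => Sg (v x) := by
  unfold Sg
  exact UD.all (UD.imp (tw _ _) (UD.eq _ _))

theorem bl {k : ℕ} (x : Fin k) : UD k fun M _ v => Bl (v x) := by
  unfold Bl
  exact UD.not (sg _)

theorem lb {k : ℕ} (x y : Fin k) : UD k fun M _ v => Lb (v x) (v y) := by
  unfold Lb
  exact UD.and (bl _) (UD.and (bl _) (UD.and (UD.lt _ _) (UD.not (tw _ _))))

theorem su {k : ℕ} (x y : Fin k) : UD k fun M _ v => Su (v x) (v y) := by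
  unfold Su
  exact UD.and (lb _ _) (UD.not (UD.ex (UD.and (lb _ _) (lb _ _))))

theorem nx {k : ℕ} (x y : Fin k) : UD k fun M _ v => Nx (v x) (v y) := by
  unfold Nx
  exact UD.ex (UD.and (su _ _) (su _ _))

theorem sh {k : ℕ} (x y : Fin k) : UD k fun M _ v => Sh (v x) (v y) := by
  unfold Sh
  exact UD.and (bl _) (UD.and (bl _) (UD.all (UD.imp (sg _)
    (UD.iff (UD.lt _ _) (UD.not (UD.lt _ _))))))

theorem sz {k : ℕ} (s : ℕ) (x : Fin k) : UD k fun M _ v => Sz s (v x) := by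
  unfold Sz
  refine UD.exFin (UD.and ?_ (UD.all (UD.iff ?_ ?_)))
  · unfold Function.Injective
    exact UD.allType fun a => UD.allType fun b => UD.imp (UD.eq _ _) (UD.const (a = b))
  · exact tw _ _
  · exact UD.exType fun i => UD.eq _ _

theorem lab {k ℓ : ℕ} (a : Fin ℓ) (x : Fin k) : UD k fun M _ v => Lab a (v x) := by
  unfold Lab
  exact UD.and (bl _) (UD.and (sz _ _) (UD.ex (UD.and (su _ _) (sz _ _))))

theorem fs {k : ℕ} (ℓ : ℕ) (x : Fin k) : UD k fun M _ v => Fs ℓ (v x) := by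
  unfold Fs
  exact UD.exType fun a => lab a _

theorem sn {k : ℕ} (ℓ : ℕ) (x : Fin k) : UD k fun M _ v => Sn ℓ (v x) := by
  unfold Sn
  exact UD.and (bl _) (UD.exType fun a => sz _ _)

/-- the conjunction of the conditions -/
def C {ℓ : ℕ} (T : TileSys (Fin ℓ)) (M : Type) (_ : PartialOrder M) : Prop :=
    ((∃ x : M, Bl x) ∧
      (∀ x y : M, Bl x → Bl y → x < y ∨ y < x ∨ x = y) ∧
      (∀ x y : M, Sg x → Sg y → x < y ∨ y < x ∨ x = y) ∧
      (∀ x : M, ∃ y, Inc x y) ∧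
      (∀ x : M, Bl x → (¬ ∃ z, Lb z x) → ¬ ∃ b, Sg b ∧ b < x) ∧
      (∀ x y : M, Su x y → ∃ b, ∀ c, (Sg c ∧ c < y ∧ ¬ c < x) ↔ c = b) ∧
      (∀ x : M, Bl x → (¬ ∃ z, Lb x z) → ¬ ∃ b, Sg b ∧ x < b) ∧
      (∀ x y : M, Su x y → ∃ b, ∀ c, (Sg c ∧ x < c ∧ ¬ y < c) ↔ c = b) ∧
      (∀ x : M, Bl x → (∃ z, Sh z x) ∨ ∃ z, Sh x z) ∧
      (∀ x : M, Bl x → Fs ℓ x ∨ Sn ℓ x) ∧
      (∀ x : M, Bl x → (¬ ∃ z, Lb z x) → Fs ℓ x) ∧
      (∀ x y : M, Su x y → Sn ℓ x → Fs ℓ y) ∧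
      (∀ x y : M, Sh x y → Fs ℓ x → Fs ℓ y) ∧
      (∀ (a : Fin ℓ) (x : M), Lab a x → T.cell a) ∧
      (∀ (a : Fin ℓ) (x : M), Lab a x → (¬ ∃ z, Lb z x) → T.init a) ∧
      (∀ (a : Fin ℓ) (x : M), Lab a x → (¬ ∃ z, Nx x z) → T.last a) ∧
      (∀ (a : Fin ℓ) (x : M), Lab a x → (¬ ∃ z, Sh z x) → T.row0 a) ∧
      (∀ (a : Fin ℓ) (x : M), Lab a x → (¬ ∃ z, Sh x z) → T.rowL a) ∧
      (∀ (a b : Fin ℓ) (x y : M), Lab a x → Lab b y → Nx x y → T.hor a b) ∧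
      (∀ (a b : Fin ℓ) (x y : M), Lab a x → Lab b y → Sh x y → T.ver a b) ∧
      ∀ (a b : Fin ℓ) (x y z : M), Lab a x → Lab b z → Sh x y → Nx y z → T.dia a b)

theorem iff {ℓ : ℕ} (T : TileSys (Fin ℓ)) (M : Type) (i : PartialOrder M) :
    C T M i ↔ @Ok ℓ T M i := by
  constructor
  · rintro ⟨h1, h2, h3, h4, h5, h6, h7, h8, h9, h10, h11, h12, h13, h14, h15, h16, h17, h18, h19,
      h20, h21⟩
    exact ⟨h1, h2, h3, h4, h5, h6, h7, h8, h9, h10, h11, h12, h13, h14, h15, h16, h17, h18, h19,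
      h20, h21⟩
  · rintro ⟨h1, h2, h3, h4, h5, h6, h7, h8, h9, h10, h11, h12, h13, h14, h15, h16, h17, h18, h19,
      h20, h21⟩
    exact ⟨h1, h2, h3, h4, h5, h6, h7, h8, h9, h10, h11, h12, h13, h14, h15, h16, h17, h18, h19,
      h20, h21⟩

theorem ud {ℓ : ℕ} (T : TileSys (Fin ℓ)) : UD 0 fun M i _ => C T M i := by
  unfold C
  refine UD.and ?_ (UD.and ?_ (UD.and ?_ (UD.and ?_ (UD.and ?_ (UD.and ?_ (UD.and ?_ (UD.and ?_
    (UD.and ?_ (UD.and ?_ (UD.and ?_ (UD.and ?_ (UD.and ?_ (UD.and ?_ (UD.and ?_ (UD.and ?_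
    (UD.and ?_ (UD.and ?_ (UD.and ?_ (UD.and ?_ ?_)))))))))))))))))))
  · exact UD.ex (bl _)
  · exact UD.all (UD.all (UD.imp (bl _) (UD.imp (bl _)
      (UD.or (UD.lt _ _) (UD.or (UD.lt _ _) (UD.eq _ _))))))
  · exact UD.all (UD.all (UD.imp (sg _) (UD.imp (sg _)
      (UD.or (UD.lt _ _) (UD.or (UD.lt _ _) (UD.eq _ _))))))
  · exact UD.all (UD.ex (inc _ _))
  · exact UD.all (UD.imp (bl _) (UD.imp (UD.not (UD.ex (lb _ _)))
      (UD.not (UD.ex (UD.and (sg _) (UD.lt _ _))))))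
  · exact UD.all (UD.all (UD.imp (su _ _) (UD.ex (UD.all (UD.iff
      (UD.and (sg _) (UD.and (UD.lt _ _) (UD.not (UD.lt _ _)))) (UD.eq _ _))))))
  · exact UD.all (UD.imp (bl _) (UD.imp (UD.not (UD.ex (lb _ _)))
      (UD.not (UD.ex (UD.and (sg _) (UD.lt _ _))))))
  · exact UD.all (UD.all (UD.imp (su _ _) (UD.ex (UD.all (UD.iff
      (UD.and (sg _) (UD.and (UD.lt _ _) (UD.not (UD.lt _ _)))) (UD.eq _ _))))))
  · exact UD.all (UD.imp (bl _) (UD.or (UD.ex (sh _ _)) (UD.ex (sh _ _))))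
  · exact UD.all (UD.imp (bl _) (UD.or (fs _ _) (sn _ _)))
  · exact UD.all (UD.imp (bl _) (UD.imp (UD.not (UD.ex (lb _ _))) (fs _ _)))
  · exact UD.all (UD.all (UD.imp (su _ _) (UD.imp (sn _ _) (fs _ _))))
  · exact UD.all (UD.all (UD.imp (sh _ _) (UD.imp (fs _ _) (fs _ _))))
  · exact UD.allType fun a => UD.all (UD.imp (lab _ _) (UD.const (T.cell a)))
  · exact UD.allType fun a => UD.all (UD.imp (lab _ _) (UD.imp (UD.not (UD.ex (lb _ _)))
      (UD.const (T.init a))))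
  · exact UD.allType fun a => UD.all (UD.imp (lab _ _) (UD.imp (UD.not (UD.ex (nx _ _)))
      (UD.const (T.last a))))
  · exact UD.allType fun a => UD.all (UD.imp (lab _ _) (UD.imp (UD.not (UD.ex (sh _ _)))
      (UD.const (T.row0 a))))
  · exact UD.allType fun a => UD.all (UD.imp (lab _ _) (UD.imp (UD.not (UD.ex (sh _ _)))
      (UD.const (T.rowL a))))
  · exact UD.allType fun a => UD.allType fun b => UD.all (UD.all (UD.imp (lab _ _)
      (UD.imp (lab _ _) (UD.imp (nx _ _) (UD.const (T.hor a b))))))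
  · exact UD.allType fun a => UD.allType fun b => UD.all (UD.all (UD.imp (lab _ _)
      (UD.imp (lab _ _) (UD.imp (sh _ _) (UD.const (T.ver a b))))))
  · exact UD.allType fun a => UD.allType fun b => UD.all (UD.all (UD.all (UD.imp (lab _ _)
      (UD.imp (lab _ _) (UD.imp (sh _ _) (UD.imp (nx _ _) (UD.const (T.dia a b))))))))

end WDef

theorem exists_okSentence {ℓ : ℕ} (T : TileSys (Fin ℓ)) :
    ∃ ψ : FirstOrder.Language.order.Sentence, ∀ (M : Type) (i : PartialOrder M),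
      @Tr M i ψ ↔ @Ok ℓ T M i := by
  obtain ⟨ψ, hψ⟩ := UD.sentence (WDef.ud T)
  exact ⟨ψ, fun M i => (hψ M i).trans (WDef.iff T M i)⟩

end Pool.Agent.Lib.MP_586990_lc.W
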