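import Pool.Agent.Lib.MP_586990_lc_W.WCode
import Pool.Agent.Lib.MP_586990_lc_W.STile
import Pool.Agent.Lib.MP_586990_lc_W.RudPoly
import Pool.Agent.Lib.MP_586990_lc_W.CSpec

set_option autoImplicit false

/-!
# Spectra and spectra of partial orders of width two
-/

namespace Pool.Agent.Lib.MP_586990_lc.W

/-- The polynomial for partial orders of width two. -/
noncomputable def polyW (c r : ℕ) : Polynomial ℕ :=
  Polynomial.C (c + 2) * Polynomial.X ^ (2 * r) + Polynomial.C 2 * Polynomial.X ^ r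

theorem polyW_eval (c r n : ℕ) :
    (polyW c r).eval n = (c + 2) * (n ^ r * n ^ r) + 2 * n ^ r := by
  simp only [polyW, Polynomial.eval_add, Polynomial.eval_mul, Polynomial.eval_C,
    Polynomial.eval_pow, Polynomial.eval_X]
  rw [← pow_add, two_mul r]

theorem polyW_strictMono {c r : ℕ} (hr : 0 < r) : StrictMono fun n => (polyW c r).eval n := by
  intro x y hxy
  have h1 : x ^ r < y ^ r := Nat.pow_lt_pow_left hxy hr.ne'
  have h2 : x ^ r * x ^ r ≤ y ^ r * y ^ r := Nat.mul_le_mul h1.le h1.le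
  have h3 : (c + 2) * (x ^ r * x ^ r) ≤ (c + 2) * (y ^ r * y ^ r) := Nat.mul_le_mul_left _ h2
  show (polyW c r).eval x < (polyW c r).eval y
  rw [polyW_eval, polyW_eval]
  omega

/-- Fagin's theorem for partial orders of width two. -/
theorem exists_width {L : FirstOrder.Language.{0, 0}} (φ : L.Sentence) :
    ∃ (p : Polynomial ℕ) (ψ : FirstOrder.Language.order.Sentence),
      (StrictMono fun n => p.eval n) ∧ 1 ≤ p.eval 2 ∧
      ∀ C : ∀ (M : Type), PartialOrder M → Prop,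
        (∀ (M : Type) (i : PartialOrder M), Finite M → @IsWidthTwo M i → C M i) →
        SpecC C ψ = {s | ∃ n ∈ Spec φ, 2 ≤ n ∧ s + 1 = p.eval n} := by
  obtain ⟨Λ, hΛ, T, r, hr, hT⟩ := spec_tile2 φ
  obtain ⟨c, ψ, hc, h1, h2⟩ := code T
  refine ⟨polyW c r, ψ, polyW_strictMono hr, ?_, fun C hC => Set.ext fun s => ⟨?_, ?_⟩⟩
  · rw [polyW_eval]
    have : 0 < 2 ^ r := Nat.pow_pos (by norm_num)
    omega
  · rintro ⟨M, i, hfin, hcard, -, hψ⟩
    obtain ⟨N, m, f, hf, a, pos, hp, hA⟩ := h1 M i hfin hψ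
    obtain ⟨n, hn, hm, hN, hmem⟩ := (hT N m).1 ⟨f, hf⟩
    refine ⟨n, hmem, hn, ?_⟩
    have h3 := hp.card
    rw [hcard, hA] at h3
    rw [h3, polyW_eval, ← hm, ← hN]
    ring
  · rintro ⟨n, hmem, hn, hs⟩
    obtain ⟨f, hf⟩ := (hT _ (n ^ r)).2 ⟨n, hn, rfl, rfl, hmem⟩
    obtain ⟨M, i, hfin, ⟨a, pos, hp, hA⟩, hψ⟩ := h2 _ _ f hf
    refine ⟨M, i, hfin, ?_, hC M i hfin hp.width, hψ⟩
    have h3 := hp.card
    rw [hA] at h3
    rw [polyW_eval] at hs
    have h4 : (c + 2) * (n ^ r * n ^ r) = c * (n ^ r * n ^ r) + 2 * (n ^ r * n ^ r) := by ring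
    omega

/-- All spectra and the spectra in an elementary class of partial orders. -/
theorem main_width (C : ∀ (M : Type), PartialOrder M → Prop)
    (hC : ∀ (M : Type) (i : PartialOrder M), Finite M → @IsWidthTwo M i → C M i)
    (hχ : ∃ χ : FirstOrder.Language.order.Sentence, ∀ (M : Type) (i : PartialOrder M),
      Finite M → (@Tr M i χ ↔ C M i)) :
    (∀ (L : FirstOrder.Language.{0, 0}) (φ : L.Sentence), Rud (Spec φ)) ↔
    ∀ ψ : FirstOrder.Language.order.Sentence, Rud (SpecC C ψ) := by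
  constructor
  · intro h ψ
    obtain ⟨ψ', hψ'⟩ := classSpec hχ ψ
    rw [← hψ']
    exact h _ ψ'
  · intro h L φ
    obtain ⟨p, ψ, hp, hp2, hψ⟩ := exists_width φ
    rw [rud_img_iff p 1 hp hp2, ← hψ C hC]
    exact h ψ

end Pool.Agent.Lib.MP_586990_lc.W
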