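import Pool.Agent.Lib.MP_586990_lc_W.WRel

set_option autoImplicit false

/-!
# The relations in a position model
-/

namespace Pool.Agent.Lib.MP_586990_lc.W

variable {M : Type} [PartialOrder M] {P K : ℕ} {a : M → Prop} {pos : M → ℕ}

namespace PW

theorem Inc_iff (h : PW M P K a pos) {x y : M} : Inc x y ↔
    (a x ∧ ¬ a y ∧ pos x ≤ pos y ∧ pos y < pos x + K) ∨
    (¬ a x ∧ a y ∧ pos y ≤ pos x ∧ pos x < pos y + K) := by
  unfold Inc
  by_cases hx : a x
  · by_cases hy : a y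
    · constructor
      · rintro ⟨h1, h2, h3⟩
        exfalso
        rcases h.AA x y hx hy with h4 | h4 | h4
        · exact h1 h4
        · exact h2 h4
        · exact h3 h4
      · rintro (⟨_, h1, _⟩ | ⟨h1, _⟩)
        · exact absurd hy h1
        · exact absurd hx h1
    · rw [h.AB x y hx hy, h.BA y x hy hx]
      constructor
      · rintro ⟨h1, h2, _⟩
        exact Or.inl ⟨hx, hy, by omega, by omega⟩
      · rintro (⟨_, _, h1, h2⟩ | ⟨h1, _⟩)
        · refine ⟨by omega, by omega, ?_⟩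
          rintro rfl
          exact hy hx
        · exact absurd hx h1
  · by_cases hy : a y
    · rw [h.BA x y hx hy, h.AB y x hy hx]
      constructor
      · rintro ⟨h1, h2, _⟩
        exact Or.inr ⟨hx, hy, by omega, by omega⟩
      · rintro (⟨h1, _⟩ | ⟨_, _, h1, h2⟩)
        · exact absurd h1 hx
        · refine ⟨by omega, by omega, ?_⟩
          rintro rfl
          exact hx hy
    · constructor
      · rintro ⟨h1, h2, h3⟩
        exfalso
        rw [h.BB x y hx hy] at h1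
        rw [h.BB y x hy hx] at h2
        exact h3 (h.injB x y hx hy (by omega))
      · rintro (⟨h1, _⟩ | ⟨_, h1, _⟩)
        · exact absurd h1 hx
        · exact absurd h1 hy

theorem inc (h : PW M P K a pos) (x : M) : ∃ y, Inc x y := by
  have hK := h.K0
  have hKP := h.KP
  by_cases hx : a x
  · have h1 := h.ltA x hx
    obtain ⟨y, hy, hy'⟩ := h.surB (pos x) (by omega)
    refine ⟨y, h.Inc_iff.2 (Or.inl ⟨hx, hy, ?_, ?_⟩)⟩
    · omega
    · omega
  · have h1 := h.ltB x hx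
    obtain ⟨y, hy, hy'⟩ := h.surA (min (pos x) (P - 1)) (by omega)
    refine ⟨y, h.Inc_iff.2 (Or.inr ⟨hx, hy, ?_, ?_⟩)⟩
    · omega
    · omega

private theorem tw_aux (h : PW M P K a pos) {x y : M} (ht : Tw x y) (hs : a x ↔ a y) :
    ¬ pos x < pos y := by
  intro hlt
  have hK := h.K0
  have hKP := h.KP
  by_cases hx : a x
  · have hy := hs.1 hx
    have h1 := h.ltA x hx
    obtain ⟨z, hz, hz'⟩ := h.surB (pos x) (by omega)
    have h2 : Inc x z := h.Inc_iff.2 (Or.inl ⟨hx, hz, by omega, by omega⟩)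
    have h3 := (ht z).1 h2
    rw [h.Inc_iff] at h3
    rcases h3 with ⟨_, _, h3, _⟩ | ⟨h3, _⟩
    · omega
    · exact h3 hy
  · have hy : ¬ a y := fun h' => hx (hs.2 h')
    have h1 := h.ltB y hy
    by_cases hc : K ≤ pos x + 1
    · obtain ⟨z, hz, hz'⟩ := h.surA (pos x + 1 - K) (by omega)
      have h2 : Inc x z := h.Inc_iff.2 (Or.inr ⟨hx, hz, by omega, by omega⟩)
      have h3 := (ht z).1 h2
      rw [h.Inc_iff] at h3
      rcases h3 with ⟨h3, _⟩ | ⟨_, _, _, h3⟩
      · exact hy h3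
      · omega
    · by_cases hc' : pos y < P
      · obtain ⟨z, hz, hz'⟩ := h.surA (pos y) hc'
        have h2 : Inc y z := h.Inc_iff.2 (Or.inr ⟨hy, hz, by omega, by omega⟩)
        have h3 := (ht z).2 h2
        rw [h.Inc_iff] at h3
        rcases h3 with ⟨h3, _⟩ | ⟨_, _, h3, _⟩
        · exact hx h3
        · omega
      · obtain ⟨z, hz, hz'⟩ := h.surA (P - 1) (by omega)
        have h2 : Inc y z := h.Inc_iff.2 (Or.inr ⟨hy, hz, by omega, by omega⟩)
        have h3 := (ht z).2 h2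
        rw [h.Inc_iff] at h3
        rcases h3 with ⟨h3, _⟩ | ⟨_, _, h3, _⟩
        · exact hx h3
        · omega

theorem Tw_iff (h : PW M P K a pos) {x y : M} : Tw x y ↔ (a x ↔ a y) ∧ pos x = pos y := by
  constructor
  · intro ht
    have hs : a x ↔ a y := by
      obtain ⟨z, hz⟩ := h.inc x
      have hz' := (ht z).1 hz
      rw [h.Inc_iff] at hz hz'
      tauto
    refine ⟨hs, ?_⟩
    have h1 := tw_aux h ht hs
    have h2 := tw_aux h (fun z => (ht z).symm) hs.symm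
    omega
  · rintro ⟨h1, h2⟩ z
    rw [h.Inc_iff, h.Inc_iff, h2]
    tauto

theorem Sg_iff (h : PW M P K a pos) {x : M} : Sg x ↔ ¬ a x := by
  constructor
  · intro hs hx
    obtain ⟨y, h1, h2, h3⟩ := h.more x hx
    exact h1 (hs y (h.Tw_iff.2 ⟨⟨fun _ => h2, fun _ => hx⟩, h3.symm⟩))
  · intro hx y hy
    rw [h.Tw_iff] at hy
    exact (h.injB x y hx (fun h' => hx (hy.1.2 h')) hy.2).symm

theorem Bl_iff (h : PW M P K a pos) {x : M} : Bl x ↔ a x := by
  unfold Bl
  rw [h.Sg_iff, not_not]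

theorem Lb_iff (h : PW M P K a pos) {x y : M} : Lb x y ↔ a x ∧ a y ∧ pos x < pos y := by
  unfold Lb
  rw [h.Bl_iff, h.Bl_iff, h.Tw_iff]
  constructor
  · rintro ⟨h1, h2, h3, h4⟩
    refine ⟨h1, h2, ?_⟩
    by_contra hc
    have h5 : pos x ≠ pos y := fun h' => h4 ⟨⟨fun _ => h2, fun _ => h1⟩, h'⟩
    exact lt_asymm h3 (h.AAlt y x h2 h1 (by omega))
  · rintro ⟨h1, h2, h3⟩
    exact ⟨h1, h2, h.AAlt x y h1 h2 h3, fun h' => by omega⟩

theorem Su_iff (h : PW M P K a pos) {x y : M} : Su x y ↔ a x ∧ a y ∧ pos y = pos x + 1 := by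
  unfold Su
  constructor
  · rintro ⟨h1, h2⟩
    rw [h.Lb_iff] at h1
    obtain ⟨hx, hy, hlt⟩ := h1
    refine ⟨hx, hy, ?_⟩
    by_contra hne
    have h3 := h.ltA y hy
    obtain ⟨z, hz, hz'⟩ := h.surA (pos x + 1) (by omega)
    exact h2 ⟨z, h.Lb_iff.2 ⟨hx, hz, by omega⟩, h.Lb_iff.2 ⟨hz, hy, by omega⟩⟩
  · rintro ⟨hx, hy, h1⟩
    refine ⟨h.Lb_iff.2 ⟨hx, hy, by omega⟩, ?_⟩
    rintro ⟨z, h2, h3⟩
    rw [h.Lb_iff] at h2 h3
    omega

theorem Nx_iff (h : PW M P K a pos) {x y : M} : Nx x y ↔ a x ∧ a y ∧ pos y = pos x + 2 := by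
  unfold Nx
  constructor
  · rintro ⟨z, h1, h2⟩
    rw [h.Su_iff] at h1 h2
    exact ⟨h1.1, h2.2.1, by omega⟩
  · rintro ⟨hx, hy, h1⟩
    have h3 := h.ltA y hy
    obtain ⟨z, hz, hz'⟩ := h.surA (pos x + 1) (by omega)
    exact ⟨z, h.Su_iff.2 ⟨hx, hz, hz'⟩, h.Su_iff.2 ⟨hz, hy, by omega⟩⟩

theorem Sh_iff (h : PW M P K a pos) {x y : M} : Sh x y ↔ a x ∧ a y ∧ pos y = pos x + K := by
  unfold Sh
  rw [h.Bl_iff, h.Bl_iff]
  have hK := h.K0
  constructor
  · rintro ⟨hx, hy, h1⟩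
    refine ⟨hx, hy, ?_⟩
    have hy' := h.ltA y hy
    have key : ∀ j, j + 1 < P + K → (pos x + K ≤ j ↔ pos y ≤ j) := by
      intro j hj
      obtain ⟨b, hb, hb'⟩ := h.surB j hj
      have h2 := h1 b (h.Sg_iff.2 hb)
      rw [h.AB x b hx hb, h.BA b y hb hy, hb', not_lt] at h2
      exact h2
    have h3 := (key (pos y) (by omega)).2 le_rfl
    by_contra hne
    have h4 := (key (pos x + K) (by omega)).1 le_rfl
    omega
  · rintro ⟨hx, hy, h1⟩
    refine ⟨hx, hy, fun b hb => ?_⟩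
    rw [h.Sg_iff] at hb
    rw [h.AB x b hx hb, h.BA b y hb hy]
    omega

theorem Sz_iff [Finite M] (h : PW M P K a pos) {s : ℕ} {x : M} :
    Sz s x ↔ Nat.card {y : M // (a x ↔ a y) ∧ pos x = pos y} = s := by
  constructor
  · rintro ⟨g, hg, hgx⟩
    have hmem : ∀ i, (a x ↔ a (g i)) ∧ pos x = pos (g i) := fun i =>
      h.Tw_iff.1 ((hgx (g i)).2 ⟨i, rfl⟩)
    have hb : Function.Bijective
        (fun i : Fin s => (⟨g i, hmem i⟩ : {y : M // (a x ↔ a y) ∧ pos x = pos y})) := by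
      refine ⟨?_, ?_⟩
      · intro i j hij
        exact hg (congrArg Subtype.val hij)
      · rintro ⟨y, hy⟩
        obtain ⟨i, hi⟩ := (hgx y).1 (h.Tw_iff.2 hy)
        exact ⟨i, Subtype.ext hi⟩
    rw [← Nat.card_eq_of_bijective _ hb, Nat.card_fin]
  · intro hs
    let e := Finite.equivFinOfCardEq hs
    refine ⟨fun i => (e.symm i).1, ?_, ?_⟩
    · intro i j hij
      exact e.symm.injective (Subtype.ext hij)
    · intro y
      rw [h.Tw_iff]
      constructor
      · intro hy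
        exact ⟨e ⟨y, hy⟩, by simp⟩
      · rintro ⟨i, hi⟩
        rw [← hi]
        exact (e.symm i).2

theorem width (h : PW M P K a pos) : IsWidthTwo M := by
  rintro x y z ⟨h1, h2, h3⟩
  rw [h.Inc_iff] at h1 h2 h3
  tauto

/-- The number of elements of the second chain. -/
theorem card_B [Finite M] (h : PW M P K a pos) : Nat.card {x : M // ¬ a x} + 1 = P + K := by
  have hK := h.K0
  have hb : Function.Bijective (fun x : {x : M // ¬ a x} =>
      (⟨pos x.1, by have := h.ltB x.1 x.2; omega⟩ : Fin (P + K - 1))) := by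
    refine ⟨?_, ?_⟩
    · rintro ⟨x, hx⟩ ⟨y, hy⟩ hxy
      exact Subtype.ext (h.injB x y hx hy (congrArg Fin.val hxy))
    · rintro ⟨j, hj⟩
      obtain ⟨x, hx, hx'⟩ := h.surB j (by omega)
      exact ⟨⟨x, hx⟩, Fin.ext hx'⟩
  rw [Nat.card_eq_of_bijective _ hb, Nat.card_fin]
  omega

/-- The number of elements. -/
theorem card [Finite M] (h : PW M P K a pos) :
    Nat.card M + 1 = Nat.card {x : M // a x} + (P + K) := by
  classical
  have h1 : Nat.card M = Nat.card {x : M // a x} + Nat.card {x : M // ¬ a x} := by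
    rw [← Nat.card_sum]
    exact Nat.card_congr (Equiv.sumCompl a).symm
  have h2 := h.card_B
  omega

end PW

end Pool.Agent.Lib.MP_586990_lc.W
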