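import Pool.Agent.Lib.MP_586990_lc_W.WRank
import Pool.Agent.Lib.MP_586990_lc_W.WBlk

set_option autoImplicit false

/-!
# Positions
-/

namespace Pool.Agent.Lib.MP_586990_lc.W

/-- The numbers of the blocks and of the elements of the second chain. -/
theorem exists_pos {ℓ : ℕ} {T : TileSys (Fin ℓ)} {M : Type} [PartialOrder M] [Finite M]
    (ok : Ok T M) :
    ∃ (P R : ℕ) (pos : M → ℕ), 0 < P ∧
      (∀ x, Bl x → pos x < P) ∧ (∀ i, i < P → ∃ x, Bl x ∧ pos x = i) ∧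
      (∀ x y, Bl x → Bl y → (Lb x y ↔ pos x < pos y)) ∧
      (∀ x, Sg x → pos x < R) ∧ (∀ i, i < R → ∃ x, Sg x ∧ pos x = i) ∧
      (∀ x y, Sg x → Sg y → (x < y ↔ pos x < pos y)) ∧
      (∀ x y, Sg x → Sg y → pos x = pos y → x = y) := by
  classical
  obtain ⟨P, pA, hA1, hA2, hA3⟩ := exists_rank (S := {x : M // Bl x})
    (fun x y => Lb x.1 y.1) (fun x => Lb_irrefl x.1)
    (fun x y z => Lb_trans ok.chA ok.chB ok.inc)
    (fun x y z => Lb_neg ok.chA ok.chB ok.inc x.2 y.2 z.2)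
  obtain ⟨R, pB, hB1, hB2, hB3⟩ := exists_rank (S := {x : M // Sg x})
    (fun x y => x.1 < y.1) (fun x => lt_irrefl x.1)
    (fun x y z => lt_trans) (by
      intro x y z hxy hyz hxz
      have h1 : y.1 ≤ x.1 := by
        rcases ok.chB x.1 y.1 x.2 y.2 with h | h | h
        · exact absurd h hxy
        · exact h.le
        · exact h.ge
      have h2 : z.1 ≤ y.1 := by
        rcases ok.chB y.1 z.1 y.2 z.2 with h | h | h
        · exact absurd h hyz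
        · exact h.le
        · exact h.ge
      exact absurd hxz (not_lt_of_ge (h2.trans h1)))
  have hbs : ∀ {x : M}, ¬ Bl x → Sg x := fun h => not_not.1 h
  obtain ⟨pos, hpos⟩ : ∃ pos : M → ℕ, pos = fun x =>
      if h : Bl x then pA ⟨x, h⟩ else pB ⟨x, hbs h⟩ := ⟨_, rfl⟩
  have hb : ∀ x (h : Bl x), pos x = pA ⟨x, h⟩ := by
    intro x h
    rw [hpos]
    exact dif_pos h
  have hs : ∀ x (h : Sg x), pos x = pB ⟨x, h⟩ := by
    intro x h
    rw [hpos]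
    exact dif_neg (fun h' : Bl x => h' h)
  refine ⟨P, R, pos, ?_, ?_, ?_, ?_, ?_, ?_, ?_, ?_⟩
  · obtain ⟨x, hx⟩ := ok.ne
    exact lt_of_le_of_lt (Nat.zero_le _) (hA1 ⟨x, hx⟩)
  · intro x hx
    rw [hb x hx]
    exact hA1 _
  · intro i hi
    obtain ⟨x, hx⟩ := hA2 i hi
    exact ⟨x.1, x.2, by rw [hb x.1 x.2, ← hx]⟩
  · intro x y hx hy
    rw [hb x hx, hb y hy]
    exact hA3 ⟨x, hx⟩ ⟨y, hy⟩
  · intro x hx
    rw [hs x hx]
    exact hB1 _
  · intro i hi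
    obtain ⟨x, hx⟩ := hB2 i hi
    exact ⟨x.1, x.2, by rw [hs x.1 x.2, ← hx]⟩
  · intro x y hx hy
    rw [hs x hx, hs y hy]
    exact hB3 ⟨x, hx⟩ ⟨y, hy⟩
  · intro x y hx hy hxy
    rw [hs x hx, hs y hy] at hxy
    rcases ok.chB x y hx hy with h | h | h
    · have := (hB3 ⟨x, hx⟩ ⟨y, hy⟩).1 h
      omega
    · have := (hB3 ⟨y, hy⟩ ⟨x, hx⟩).1 h
      omega
    · exact h

end Pool.Agent.Lib.MP_586990_lc.W
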