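import Mathlib

set_option autoImplicit false

/-!
# The rank function of a strict weak order on a finite set
-/

namespace Pool.Agent.Lib.MP_586990_lc.W

theorem exists_rank {S : Type} [Finite S] (r : S → S → Prop) (irr : ∀ x, ¬ r x x)
    (tr : ∀ x y z, r x y → r y z → r x z) (neg : ∀ x y z, ¬ r x y → ¬ r y z → ¬ r x z) :
    ∃ (P : ℕ) (pos : S → ℕ), (∀ x, pos x < P) ∧ (∀ i, i < P → ∃ x, pos x = i) ∧
      ∀ x y, r x y ↔ pos x < pos y := by
  classical
  have : Fintype S := Fintype.ofFinite S
  let g : S → ℕ := fun x => (Finset.univ.filter fun y => r y x).card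
  have hg : ∀ x y, r x y ↔ g x < g y := by
    intro x y
    constructor
    · intro h
      apply Finset.card_lt_card
      rw [Finset.ssubset_iff_subset_ne]
      refine ⟨fun z hz => ?_, fun heq => ?_⟩
      · simp only [Finset.mem_filter, Finset.mem_univ, true_and] at hz ⊢
        exact tr z x y hz h
      · have hx : x ∈ Finset.univ.filter fun z => r z y := by
          simp only [Finset.mem_filter, Finset.mem_univ, true_and]
          exact h
        rw [← heq] at hx
        simp only [Finset.mem_filter, Finset.mem_univ, true_and] at hx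
        exact irr x hx
    · intro h
      by_contra hxy
      refine absurd h (not_lt.2 ?_)
      apply Finset.card_le_card
      intro z hz
      simp only [Finset.mem_filter, Finset.mem_univ, true_and] at hz ⊢
      by_contra hzx
      exact neg z x y hzx hxy hz
  let R : Finset ℕ := Finset.univ.image g
  have hR : ∀ x, g x ∈ R := fun x => Finset.mem_image_of_mem g (Finset.mem_univ x)
  let o := R.orderIsoOfFin rfl
  refine ⟨R.card, fun x => (o.symm ⟨g x, hR x⟩).val, fun x => (o.symm ⟨g x, hR x⟩).isLt,
    fun i hi => ?_, fun x y => ?_⟩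
  · have h1 : ((o ⟨i, hi⟩ : R) : ℕ) ∈ R := (o ⟨i, hi⟩).2
    obtain ⟨x, -, hx⟩ := Finset.mem_image.1 h1
    refine ⟨x, ?_⟩
    have h2 : (⟨g x, hR x⟩ : R) = o ⟨i, hi⟩ := Subtype.ext hx
    show (o.symm ⟨g x, hR x⟩).val = i
    rw [h2, OrderIso.symm_apply_apply]
  · rw [hg x y]
    show g x < g y ↔ (o.symm ⟨g x, hR x⟩) < (o.symm ⟨g y, hR y⟩)
    rw [OrderIso.lt_iff_lt]
    exact Iff.rfl

end Pool.Agent.Lib.MP_586990_lc.W
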